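import Pool.Agent.Q288.AP.Sing

set_option autoImplicit false

/-!
# Algebraic independence of the branches
-/

namespace Pool.Agent.Q288.AP

open Complex Filter Topology Metric Set

/-- polynomials in differentiable functions -/
theorem dpoly {σ : Type} (P : MvPolynomial σ ℂ) {y : σ → ℂ → ℂ} {U : Set ℂ} (hy : ∀ i, DifferentiableOn ℂ (y i) U) :
    DifferentiableOn ℂ (fun t => MvPolynomial.eval (fun i => y i t) P) U := by
  induction P using MvPolynomial.induction_on with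
  | C a => simp only [MvPolynomial.eval_C]; exact differentiableOn_const a
  | add p q hp hq => simp only [map_add]; exact hp.add hq
  | mul_X p i hp => simp only [map_mul, MvPolynomial.eval_X]; exact hp.mul (hy i)

variable {F G : ℂ → ℂ} {X : ℝ}

theorem min_pos' {ι : Type} [Finite ι] {e : ι → ℝ} (he : ∀ k, 0 < e k) : ∃ ε : ℝ, 0 < ε ∧ ∀ k, ε ≤ e k := by
  classical
  rcases isEmpty_or_nonempty ι with h | h
  · exact ⟨1, one_pos, fun k => (h.false k).elim⟩
  · obtain ⟨k, hk⟩ := Finite.exists_min e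
    exact ⟨e k, he k, hk⟩

theorem shift_diff (h : Core F X G) (k : ℤ) : DifferentiableOn ℂ (fun ζ => G (ζ + k * (2 * Real.pi * I))) (HP X) :=
  (h.fib.sol.shift k fun _ hζ => HP_shift hζ k).1

/-- **Transport** of a relation. -/
theorem transport (h : Core F X G) {c p : ℂ} {κ : ℕ} (hFc : F c = cexp p)
    (hreg : ∀ l : ℕ, 0 < l → Reg G X (p + (-(l : ℤ) : ℤ) * (2 * Real.pi * I)))
    (hcl : ∀ ε : ℝ, 0 < ε → ∃ ζ ∈ HP X, ‖ζ - p‖ < ε ∧ ‖G ζ - c‖ < ε ∧
      ‖G (ζ + (κ : ℤ) * (2 * Real.pi * I)) - c‖ < ε)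
    {ι : Type} [Finite ι] [DecidableEq ι] (P : MvPolynomial ι ℂ) (k : ι → ℤ) (i0 : ι) (hk : ∀ i, i ≠ i0 → k i < k i0)
    (hrel : ∀ ζ ∈ HP X, MvPolynomial.eval (fun i => G (ζ + k i * (2 * Real.pi * I))) P = 0) :
    ∀ ζ ∈ HP X, MvPolynomial.eval (fun i => G (ζ + (Function.update k i0 (k i0 + κ) i) * (2 * Real.pi * I))) P = 0 := by
  obtain ⟨T, hT⟩ : ∃ T : ℂ, T = 2 * Real.pi * I := ⟨_, rfl⟩
  rw [← hT] at hreg hcl hrel ⊢
  have hsh : ∀ (ζ : ℂ) (n : ℤ), ζ ∈ HP X → ζ + n * T ∈ HP X := fun ζ n hζ => by rw [hT]; exact HP_shift hζ n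
  have hexpT : ∀ (ζ : ℂ) (n : ℤ), cexp (ζ + n * T) = cexp ζ := fun ζ n => by
    rw [hT]; exact Complex.exp_eq_exp_iff_exists_int.2 ⟨n, rfl⟩
  obtain ⟨m, hm⟩ : ∃ m : ℤ, m = k i0 := ⟨_, rfl⟩
  have hreg' : ∀ i : ι, ∃ ρ : ℝ, 0 < ρ ∧ ∃ y : ℂ → ℂ, i ≠ i0 → (DifferentiableOn ℂ y (ball p ρ) ∧
      ∀ ζ ∈ ball p ρ, ζ ∈ HP X → y ζ = G (ζ + ((k i - m : ℤ) : ℂ) * T)) := by
    intro i
    by_cases hi : i = i0
    · exact ⟨1, one_pos, fun _ => 0, fun hne => absurd hi hne⟩
    · have hlt : k i < m := by rw [hm]; exact hk i hi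
      obtain ⟨ρ, hρ, g, hg, hgG⟩ := hreg (m - k i).toNat (by omega)
      have e : (-((m - k i).toNat : ℤ) : ℤ) = k i - m := by omega
      rw [e] at hg hgG
      have hmem : ∀ ζ ∈ ball p ρ, ζ + ((k i - m : ℤ) : ℂ) * T ∈ ball (p + ((k i - m : ℤ) : ℂ) * T) ρ := by
        intro ζ hζ
        rw [mem_ball_iff_norm] at hζ ⊢
        rw [add_sub_add_right_eq_sub]
        exact hζ
      refine ⟨ρ, hρ, fun ζ => g (ζ + ((k i - m : ℤ) : ℂ) * T), fun _ => ⟨?_, fun ζ hζ hζX => ?_⟩⟩
      · exact hg.comp ((differentiable_id.add_const _).differentiableOn) hmem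
      · exact hgG _ (hmem ζ hζ) (hsh ζ _ hζX)
  choose ρ hρ y hy using hreg'
  obtain ⟨r, hr, hrρ⟩ := min_pos' hρ
  obtain ⟨L, hL1, hL2, hL3, -⟩ := loglem h.diff hFc
  obtain ⟨ε0, hε0, hball⟩ := Metric.eventually_nhds_iff_ball.1
    ((hL1.eventually_analyticAt.and hL3).and
      (hL1.continuousAt.eventually (isOpen_ball.mem_nhds (mem_ball_self (x := L c) (lt_min hr one_pos)))))
  have hb1 : ∀ t ∈ ball c ε0, AnalyticAt ℂ L t := fun t ht => (hball t ht).1.1
  have hb2 : ∀ t ∈ ball c ε0, cexp (L t) = F t := fun t ht => (hball t ht).1.2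
  have hb3 : ∀ t ∈ ball c ε0, ‖L t - p‖ < min r 1 := fun t ht => by
    have := (hball t ht).2
    rwa [dist_eq_norm, hL2] at this
  -- the function Φ
  obtain ⟨Φ, hΦ⟩ : ∃ Φ : ℂ → ℂ, Φ = fun t => MvPolynomial.eval (fun i => if i = i0 then t else y i (L t)) P := ⟨_, rfl⟩
  have hΦd : DifferentiableOn ℂ Φ (ball c ε0) := by
    rw [hΦ]
    refine dpoly P (y := fun i t => if i = i0 then t else y i (L t)) fun i => ?_
    by_cases hi : i = i0
    · simp only [hi, if_true]
      exact differentiableOn_id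
    · simp only [hi, if_false]
      refine ((hy i hi).1.mono (ball_subset_ball (hrρ i))).comp
        (fun t ht => (hb1 t ht).differentiableAt.differentiableWithinAt) fun t ht => ?_
      rw [mem_ball_iff_norm]
      exact (hb3 t ht).trans_le (min_le_left _ _)
  obtain ⟨ζ, hζ, c1, c2, c3⟩ := hcl (min ε0 (min r 1)) (by positivity)
  have c1r : ζ ∈ ball p r := by
    rw [mem_ball_iff_norm]
    exact c1.trans_le ((min_le_right _ _).trans (min_le_left _ _))
  have c11 : ‖ζ - p‖ < 1 := c1.trans_le ((min_le_right _ _).trans (min_le_right _ _))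
  obtain ⟨w, hw⟩ : ∃ w, w = G ζ := ⟨_, rfl⟩
  obtain ⟨w', hw'⟩ : ∃ w', w' = G (ζ + (κ : ℤ) * T) := ⟨_, rfl⟩
  rw [← hw] at c2
  rw [← hw'] at c3
  have hwb : w ∈ ball c ε0 := by rw [mem_ball_iff_norm]; exact c2.trans_le (min_le_left _ _)
  have hwb' : w' ∈ ball c ε0 := by rw [mem_ball_iff_norm]; exact c3.trans_le (min_le_left _ _)
  have near : ∀ t ∈ ball c ε0, F t = cexp ζ → L t = ζ := by
    intro t ht hFt
    apply exp_inj_near
    · rw [hb2 t ht, hFt]
    · calc ‖L t - ζ‖ = ‖(L t - p) - (ζ - p)‖ := by ring_nf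
        _ ≤ ‖L t - p‖ + ‖ζ - p‖ := norm_sub_le _ _
        _ < 1 + 1 := add_lt_add ((hb3 t ht).trans_le (min_le_right _ _)) c11
        _ < 2 * Real.pi := by linarith [Real.pi_gt_three]
  have hFw : F w = cexp ζ := by rw [hw]; exact h.fib.sol.2 ζ hζ
  have hFw' : F w' = cexp ζ := by rw [hw', h.fib.sol.2 _ (hsh ζ _ hζ), hexpT]
  have hLw := near w hwb hFw
  have hLw' := near w' hwb' hFw'
  -- step 1
  have hdw : deriv F w ≠ 0 := by rw [hw]; exact h.fib.sol.deriv_ne h.diff (HP_open X) hζ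
  obtain ⟨φ, -, hφ, -⟩ := loc_inj (h.diff.analyticAt w) hdw
  have hLc : ContinuousAt L w := (hb1 w hwb).continuousAt
  have hGc : ContinuousAt G ζ := (h.fib.sol.1.differentiableAt ((HP_open X).mem_nhds hζ)).continuousAt
  have hGL : Tendsto (fun t => G (L t)) (𝓝 w) (𝓝 w) := by
    have h1 : Tendsto L (𝓝 w) (𝓝 ζ) := by rw [← hLw]; exact hLc
    have h2 : Tendsto G (𝓝 ζ) (𝓝 w) := by rw [hw]; exact hGc
    exact h2.comp h1
  have hev1 : ∀ᶠ t in 𝓝 w, Φ t = 0 := by
    have h1 : ∀ᶠ t in 𝓝 w, L t ∈ HP X := by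
      apply hLc.eventually
      rw [hLw]
      exact (HP_open X).mem_nhds hζ
    filter_upwards [h1, hφ, hGL.eventually hφ, isOpen_ball.mem_nhds hwb] with t g1 g2 g3 g4
    have e1 : G (L t) = t := by
      rw [← g3, h.fib.sol.2 _ g1, hb2 t g4, g2]
    rw [hΦ]
    simp only
    rw [← hrel (L t + ((-m : ℤ) : ℂ) * T) (hsh _ _ g1)]
    congr 1
    congr 1
    funext i
    by_cases hi : i = i0
    · rw [if_pos hi, hi, ← hm]
      have e2 : L t + ((-m : ℤ) : ℂ) * T + (m : ℂ) * T = L t := by push_cast; ring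
      rw [e2, e1]
    · rw [if_neg hi, (hy i hi).2 (L t) (by
        rw [mem_ball_iff_norm]
        exact (hb3 t g4).trans_le ((min_le_left _ _).trans (hrρ i))) g1]
      congr 1
      push_cast
      ring
  -- step 2
  have hΦ0 : EqOn Φ (fun _ => 0) (ball c ε0) :=
    (hΦd.analyticOnNhd isOpen_ball).eqOn_of_preconnected_of_eventuallyEq (g := fun _ => 0)
      (fun z _ => analyticAt_const) (convex_ball c ε0).isPreconnected hwb hev1
  -- step 3
  obtain ⟨Ψ, hΨ⟩ : ∃ Ψ : ℂ → ℂ, Ψ = fun ζ => MvPolynomial.eval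
      (fun i => G (ζ + (Function.update k i0 (k i0 + κ) i) * T)) P := ⟨_, rfl⟩
  have hΨd : DifferentiableOn ℂ Ψ (HP X) := by
    rw [hΨ]
    refine dpoly P (y := fun i ζ => G (ζ + (Function.update k i0 (k i0 + κ) i) * T)) fun i => ?_
    rw [hT]
    exact shift_diff h _
  have hev3 : ∀ᶠ ζ2 in 𝓝 ζ, Ψ (ζ2 + ((-m : ℤ) : ℂ) * T) = 0 := by
    have h1 : ContinuousAt (fun ζ2 => G (ζ2 + (κ : ℤ) * T)) ζ := by
      have := (shift_diff h (κ : ℤ)).differentiableAt ((HP_open X).mem_nhds hζ)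
      rw [← hT] at this
      exact this.continuousAt
    have h1' : Tendsto (fun ζ2 => G (ζ2 + (κ : ℤ) * T)) (𝓝 ζ) (𝓝 w') := by rw [hw']; exact h1
    have h2 := h1'.eventually (isOpen_ball.mem_nhds hwb')
    have h3 : Tendsto (fun ζ2 => L (G (ζ2 + (κ : ℤ) * T)) - ζ2) (𝓝 ζ) (𝓝 0) := by
      have h4 : Tendsto (fun ζ2 => L (G (ζ2 + (κ : ℤ) * T))) (𝓝 ζ) (𝓝 ζ) := by
        have h5 : Tendsto L (𝓝 w') (𝓝 ζ) := by
          have := (hb1 w' hwb').continuousAt.tendsto
          rwa [hLw'] at this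
        exact h5.comp h1'
      have h6 := h4.sub tendsto_id
      rwa [sub_self] at h6
    have h7 := h3.eventually (isOpen_ball.mem_nhds (mem_ball_self (x := (0 : ℂ)) Real.two_pi_pos))
    filter_upwards [h2, h7, (HP_open X).mem_nhds hζ, isOpen_ball.mem_nhds c1r] with ζ2 g1 g2 g3 g4
    rw [dist_zero_right] at g2
    have e1 : L (G (ζ2 + (κ : ℤ) * T)) = ζ2 := by
      apply exp_inj_near _ g2
      rw [hb2 _ g1, h.fib.sol.2 _ (hsh ζ2 _ g3), hexpT]
    have e2 := hΦ0 g1
    rw [hΦ] at e2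
    simp only at e2
    rw [hΨ]
    simp only
    rw [← e2]
    congr 1
    congr 1
    funext i
    by_cases hi : i = i0
    · rw [if_pos hi, hi, Function.update_self, ← hm]
      congr 1
      push_cast
      ring
    · rw [if_neg hi, Function.update_of_ne hi, e1, (hy i hi).2 ζ2 (ball_subset_ball (hrρ i) g4) g3]
      congr 1
      push_cast
      ring
  -- step 4
  have hζm : ζ + ((-m : ℤ) : ℂ) * T ∈ HP X := hsh ζ _ hζ
  have hev4 : ∀ᶠ z in 𝓝 (ζ + ((-m : ℤ) : ℂ) * T), Ψ z = 0 := by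
    have h1 : Tendsto (fun z : ℂ => z - ((-m : ℤ) : ℂ) * T) (𝓝 (ζ + ((-m : ℤ) : ℂ) * T)) (𝓝 ζ) := by
      have h2 : Continuous fun z : ℂ => z - ((-m : ℤ) : ℂ) * T := by fun_prop
      have h3 := h2.tendsto (ζ + ((-m : ℤ) : ℂ) * T)
      simp only [add_sub_cancel_right] at h3
      exact h3
    filter_upwards [h1.eventually hev3] with z hz
    rwa [sub_add_cancel] at hz
  have hfin : EqOn Ψ (fun _ => 0) (HP X) :=
    (hΨd.analyticOnNhd (HP_open X)).eqOn_of_preconnected_of_eventuallyEq (g := fun _ => 0)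
      (fun z _ => analyticAt_const) (HP_convex X).isPreconnected hζm hev4
  intro z hz
  have := hfin hz
  rw [hΨ] at this
  exact this

/-- **Algebraic independence of the branches.** -/
theorem alg (h : Core F X G) : ∀ (n : ℕ) (k : Fin n → ℤ), StrictAnti k → ∀ P : MvPolynomial (Fin n) ℂ,
    (∀ ζ ∈ HP X, MvPolynomial.eval (fun i => G (ζ + k i * (2 * Real.pi * I))) P = 0) → P = 0 := by
  obtain ⟨c, p, κ, hκ, -, hFc, hreg, hcl⟩ := sing h
  intro n
  induction n with
  | zero =>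
    intro k _ P hP
    have h1 : (((X + 1 : ℝ) : ℂ)) ∈ HP X := by
      change X < (((X + 1 : ℝ) : ℂ)).re
      rw [Complex.ofReal_re]
      linarith
    have h2 := hP _ h1
    rw [MvPolynomial.eq_C_of_isEmpty P, MvPolynomial.eval_C] at h2
    rw [MvPolynomial.eq_C_of_isEmpty P, h2, map_zero]
  | succ n ih =>
    intro k hk P hP
    have hk0 : ∀ i : Fin (n + 1), i ≠ 0 → k i < k 0 := fun i hi => hk (Fin.pos_of_ne_zero hi)
    have hiter : ∀ r : ℕ, ∀ ζ ∈ HP X, MvPolynomial.eval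
        (fun i => G (ζ + (Function.update k 0 (k 0 + (r * κ : ℕ)) i) * (2 * Real.pi * I))) P = 0 := by
      intro r
      induction r with
      | zero =>
        have e : Function.update k 0 (k 0 + ((0 * κ : ℕ) : ℤ)) = k := by
          rw [zero_mul, Nat.cast_zero, add_zero, Function.update_eq_self]
        rw [e]
        exact hP
      | succ r ihr =>
        have h1 := transport h hFc hreg hcl P (Function.update k 0 (k 0 + (r * κ : ℕ))) 0 (by
          intro i hi
          rw [Function.update_of_ne hi, Function.update_self]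
          have := hk0 i hi
          have h0 : (0 : ℤ) ≤ ((r * κ : ℕ) : ℤ) := Int.natCast_nonneg _
          linarith) ihr
        have e : Function.update (Function.update k 0 (k 0 + ((r * κ : ℕ) : ℤ))) 0
            (Function.update k 0 (k 0 + ((r * κ : ℕ) : ℤ)) 0 + κ) = Function.update k 0 (k 0 + (((r + 1) * κ : ℕ) : ℤ)) := by
          rw [Function.update_idem, Function.update_self]
          congr 1
          push_cast
          ring
        rw [e] at h1
        exact h1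
    obtain ⟨Q, hQ⟩ : ∃ Q, Q = MvPolynomial.finSuccEquiv ℂ n P := ⟨_, rfl⟩
    have hcoef : ∀ j : ℕ, Q.coeff j = 0 := by
      intro j
      refine ih (fun i => k i.succ) (fun a b hab => hk (Fin.succ_lt_succ_iff.2 hab)) _ fun ζ hζ => ?_
      obtain ⟨q, hq⟩ : ∃ q : Polynomial ℂ, q = Q.map (MvPolynomial.eval fun i : Fin n =>
        G (ζ + k i.succ * (2 * Real.pi * I))) := ⟨_, rfl⟩
      have hroot : ∀ r : ℕ, q.IsRoot (G (ζ + ((k 0 + (r * κ : ℕ) : ℤ) : ℂ) * (2 * Real.pi * I))) := by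
        intro r
        have h1 := hiter r ζ hζ
        have e : (fun i => G (ζ + (Function.update k 0 (k 0 + ((r * κ : ℕ) : ℤ)) i) * (2 * Real.pi * I))) =
            Fin.cons (G (ζ + ((k 0 + ((r * κ : ℕ) : ℤ) : ℤ) : ℂ) * (2 * Real.pi * I)))
              (fun i : Fin n => G (ζ + k i.succ * (2 * Real.pi * I))) := by
          funext i
          refine Fin.cases ?_ (fun i => ?_) i
          · rw [Function.update_self, Fin.cons_zero]
          · rw [Function.update_of_ne (Fin.succ_ne_zero i), Fin.cons_succ]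
        rw [e, MvPolynomial.eval_eq_eval_mv_eval'] at h1
        rw [hq, hQ]
        exact h1
      have hinj : Function.Injective fun r : ℕ => G (ζ + ((k 0 + (r * κ : ℕ) : ℤ) : ℂ) * (2 * Real.pi * I)) := by
        intro r s hrs
        have h1 := h.fib.inj (HP_shift hζ _) (HP_shift hζ _) hrs
        have h2 : ζ + ((k 0 + (s * κ : ℕ) : ℤ) : ℂ) * (2 * Real.pi * I) = (ζ + ((k 0 + (s * κ : ℕ) : ℤ) : ℂ) * (2 * Real.pi * I))
            + (((r : ℤ) * κ - s * κ : ℤ) : ℂ) * (2 * Real.pi * I) := by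
          push_cast at h1 ⊢
          linear_combination -h1
        have h3 := two_pi_I_cancel h2
        have h4 : ((r : ℤ) - s) * κ = 0 := by linarith
        have h5 : (r : ℤ) - s = 0 := (mul_eq_zero.1 h4).resolve_right (by exact_mod_cast hκ.ne')
        have h6 : (r : ℤ) = s := by linarith
        exact_mod_cast h6
      have hq0 : q = 0 := Polynomial.eq_zero_of_infinite_isRoot q
        (Set.infinite_of_injective_forall_mem hinj hroot)
      have h1 : q.coeff j = 0 := by rw [hq0, Polynomial.coeff_zero]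
      rw [hq, Polynomial.coeff_map] at h1
      exact h1
    have hQ0 : Q = 0 := Polynomial.ext fun j => by rw [hcoef j, Polynomial.coeff_zero]
    rw [hQ] at hQ0
    exact (MvPolynomial.finSuccEquiv ℂ n).injective (by rw [hQ0, map_zero])

/-- any order of the indices -/
theorem alg' (h : Core F X G) {n : ℕ} {k : Fin n → ℤ} (hk : Function.Injective k) {P : MvPolynomial (Fin n) ℂ}
    (hP : ∀ ζ ∈ HP X, MvPolynomial.eval (fun i => G (ζ + k i * (2 * Real.pi * I))) P = 0) : P = 0 := by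
  obtain ⟨σ, hσ⟩ : ∃ σ : Equiv.Perm (Fin n), σ = Fin.revPerm.trans (Tuple.sort k) := ⟨_, rfl⟩
  have hmono : StrictMono (k ∘ Tuple.sort k) :=
    (Tuple.monotone_sort k).strictMono_of_injective (hk.comp (Tuple.sort k).injective)
  have hanti : StrictAnti (k ∘ σ) := by
    intro a b hab
    rw [hσ]
    simp only [Function.comp_apply, Equiv.trans_apply, Fin.revPerm_apply]
    exact hmono (Fin.rev_lt_rev.2 hab)
  have h1 := alg h n (k ∘ σ) hanti (MvPolynomial.rename σ.symm P) (fun ζ hζ => by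
    rw [MvPolynomial.eval_rename, ← hP ζ hζ]
    congr 1
    congr 1
    funext i
    simp)
  exact MvPolynomial.rename_injective _ σ.symm.injective (by rw [h1, map_zero])

end Pool.Agent.Q288.AP
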