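import Mathlib

set_option autoImplicit false

/-!
# Branches of the inverse of an entire function over convex domains of the logarithm
-/

namespace Pool.Agent.Q288.AP

open Complex Filter Topology Metric Set

/-- half plane -/
def HP (X : ℝ) : Set ℂ := {ζ | X < ζ.re}

theorem HP_open (X : ℝ) : IsOpen (HP X) := isOpen_lt continuous_const Complex.continuous_re

theorem HP_convex (X : ℝ) : Convex ℝ (HP X) := convex_halfSpace_re_gt X

theorem HP_mono {X Y : ℝ} (h : X ≤ Y) : HP Y ⊆ HP X := fun _ hζ => lt_of_le_of_lt h hζ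

/-- local inverse -/
theorem loc_inj {F : ℂ → ℂ} {w : ℂ} (hF : AnalyticAt ℂ F w) (hw : deriv F w ≠ 0) :
    ∃ φ : ℂ → ℂ, AnalyticAt ℂ φ (F w) ∧ (∀ᶠ x in 𝓝 w, φ (F x) = x) ∧ (∀ᶠ y in 𝓝 (F w), F (φ y) = y) :=
  ⟨_, hF.analyticAt_localInverse hw, HasStrictDerivAt.eventually_left_inverse hF.hasStrictDerivAt hw,
    HasStrictDerivAt.eventually_right_inverse hF.hasStrictDerivAt hw⟩

theorem uniq {F : ℂ → ℂ} (hF : Differentiable ℂ F) {U : Set ℂ} (hUo : IsOpen U) (hU : IsPreconnected U)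
    {g₁ g₂ : ℂ → ℂ} (h1 : DifferentiableOn ℂ g₁ U) (h2 : DifferentiableOn ℂ g₂ U) {ζ0 : ℂ} (h0 : ζ0 ∈ U)
    (he : g₁ ζ0 = g₂ ζ0) (hd : deriv F (g₁ ζ0) ≠ 0) (hev : ∀ᶠ ζ in 𝓝 ζ0, F (g₁ ζ) = F (g₂ ζ)) :
    EqOn g₁ g₂ U := by
  obtain ⟨φ, -, hφ, -⟩ := loc_inj (hF.analyticAt _) hd
  have c1 : ContinuousAt g₁ ζ0 := (h1.differentiableAt (hUo.mem_nhds h0)).continuousAt
  have c2 : ContinuousAt g₂ ζ0 := (h2.differentiableAt (hUo.mem_nhds h0)).continuousAt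
  have hφ2 : ∀ᶠ x in 𝓝 (g₂ ζ0), φ (F x) = x := by rw [← he]; exact hφ
  have e : g₁ =ᶠ[𝓝 ζ0] g₂ := by
    filter_upwards [c1.eventually hφ, c2.eventually hφ2, hev] with ζ a b c
    rw [← a, c, b]
  exact (h1.analyticOnNhd hUo).eqOn_of_preconnected_of_eventuallyEq (h2.analyticOnNhd hUo) hU h0 e

/-- solutions of `F(g ζ) = exp ζ` -/
def Sol (F g : ℂ → ℂ) (U : Set ℂ) : Prop := DifferentiableOn ℂ g U ∧ ∀ ζ ∈ U, F (g ζ) = cexp ζ

theorem Sol.mono {F g : ℂ → ℂ} {U V : Set ℂ} (h : Sol F g U) (hV : V ⊆ U) : Sol F g V :=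
  ⟨h.1.mono hV, fun ζ hζ => h.2 ζ (hV hζ)⟩

theorem Sol.deriv_ne {F g : ℂ → ℂ} {U : Set ℂ} (hF : Differentiable ℂ F) (hU : IsOpen U) (h : Sol F g U) {ζ : ℂ}
    (hζ : ζ ∈ U) : deriv F (g ζ) ≠ 0 := by
  intro h0
  have h1 : HasDerivAt (fun z => F (g z)) (deriv F (g ζ) * deriv g ζ) ζ :=
    (hF (g ζ)).hasDerivAt.comp ζ (h.1.differentiableAt (hU.mem_nhds hζ)).hasDerivAt
  have h2 : HasDerivAt (fun z => F (g z)) (cexp ζ) ζ := by
    refine (Complex.hasDerivAt_exp ζ).congr_of_eventuallyEq ?_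
    filter_upwards [hU.mem_nhds hζ] with z hz using h.2 z hz
  have h3 := h1.unique h2
  rw [h0, zero_mul] at h3
  exact Complex.exp_ne_zero ζ h3.symm

theorem Sol.uniq {F g₁ g₂ : ℂ → ℂ} {U : Set ℂ} (hF : Differentiable ℂ F) (hUo : IsOpen U) (hU : IsPreconnected U)
    (h1 : Sol F g₁ U) (h2 : Sol F g₂ U) {ζ0 : ℂ} (h0 : ζ0 ∈ U) (he : g₁ ζ0 = g₂ ζ0) : EqOn g₁ g₂ U := by
  refine AP.uniq hF hUo hU h1.1 h2.1 h0 he (h1.deriv_ne hF hUo h0) ?_
  filter_upwards [hUo.mem_nhds h0] with z hz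
  rw [h1.2 z hz, h2.2 z hz]

/-- translates by `2 π i k` -/
theorem Sol.shift {F g : ℂ → ℂ} {U V : Set ℂ} (h : Sol F g U) (k : ℤ)
    (hV : ∀ ζ ∈ V, ζ + k * (2 * Real.pi * I) ∈ U) : Sol F (fun ζ => g (ζ + k * (2 * Real.pi * I))) V := by
  refine ⟨h.1.comp ((differentiable_id.add_const _).differentiableOn) hV, fun ζ hζ => ?_⟩
  rw [h.2 _ (hV ζ hζ)]
  exact Complex.exp_eq_exp_iff_exists_int.2 ⟨k, rfl⟩

/-- local solution -/
def LS (F : ℂ → ℂ) (δ : ℝ) (w0 ζ0 : ℂ) : Prop := ∃ g, Sol F g (ball ζ0 δ) ∧ g ζ0 = w0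

/-- gluing of an increasing sequence -/
theorem glue {D : ℕ → Set ℂ} (hD : ∀ n, IsOpen (D n)) {g : ℕ → ℂ → ℂ}
    (hg : ∀ n, DifferentiableOn ℂ (g n) (D n)) (hc : ∀ m n, m ≤ n → EqOn (g n) (g m) (D m)) :
    ∃ G : ℂ → ℂ, DifferentiableOn ℂ G (⋃ n, D n) ∧ ∀ n, EqOn G (g n) (D n) := by
  classical
  obtain ⟨G, hG⟩ : ∃ G : ℂ → ℂ, G = fun ζ => if h : ∃ n, ζ ∈ D n then g (Nat.find h) ζ else 0 := ⟨_, rfl⟩
  have e : ∀ n, EqOn G (g n) (D n) := by
    intro n ζ hζ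
    have h : ∃ n, ζ ∈ D n := ⟨n, hζ⟩
    rw [hG]
    simp only [h, dif_pos]
    exact (hc _ _ (Nat.find_min' h hζ) (Nat.find_spec h)).symm
  refine ⟨G, fun ζ hζ => ?_, e⟩
  obtain ⟨n, hn⟩ := mem_iUnion.1 hζ
  have h1 : DifferentiableAt ℂ (g n) ζ := (hg n).differentiableAt ((hD n).mem_nhds hn)
  refine (h1.congr_of_eventuallyEq ?_).differentiableWithinAt
  filter_upwards [(hD n).mem_nhds hn] with z hz using e n hz

/-- **Extension** to convex domains from a uniform radius of the local solutions. -/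
theorem extend {F : ℂ → ℂ} (hF : Differentiable ℂ F) {Ω : Set ℂ} (hΩ : IsOpen Ω) (hc : Convex ℝ Ω) {δ : ℝ}
    (hδ : 0 < δ) (hloc : ∀ w0 ζ0, ζ0 ∈ Ω → F w0 = cexp ζ0 → LS F δ w0 ζ0) {ζ1 w1 : ℂ} (h1 : ζ1 ∈ Ω)
    (hw : F w1 = cexp ζ1) : ∃ G, Sol F G Ω ∧ G ζ1 = w1 := by
  obtain ⟨D, hD⟩ : ∃ D : ℕ → Set ℂ, D = fun n : ℕ => Ω ∩ ball ζ1 (((n : ℝ) + 1) * (δ / 2)) := ⟨_, rfl⟩
  have hDo : ∀ n, IsOpen (D n) := fun n => by rw [hD]; exact hΩ.inter isOpen_ball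
  have hDc : ∀ n, Convex ℝ (D n) := fun n => by rw [hD]; exact hc.inter (convex_ball _ _)
  have hD1 : ∀ n, ζ1 ∈ D n := fun n => by rw [hD]; exact ⟨h1, mem_ball_self (by positivity)⟩
  have hDm : ∀ m n : ℕ, m ≤ n → D m ⊆ D n := by
    intro m n hmn
    rw [hD]
    refine inter_subset_inter_right _ (ball_subset_ball ?_)
    have : (m : ℝ) ≤ n := by exact_mod_cast hmn
    nlinarith
  have step : ∀ n : ℕ, ∃ G, Sol F G (D n) ∧ G ζ1 = w1 := by
    intro n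
    induction n with
    | zero =>
      obtain ⟨g, hg, hg1⟩ := hloc w1 ζ1 h1 hw
      refine ⟨g, hg.mono ?_, hg1⟩
      rw [hD]
      refine inter_subset_right.trans (ball_subset_ball ?_)
      simp only [Nat.cast_zero, zero_add, one_mul]
      linarith
    | succ n ih =>
      obtain ⟨G, hG, hG1⟩ := ih
      obtain ⟨r, hr⟩ : ∃ r : ℝ, r = ((n : ℝ) + 1) * (δ / 2) := ⟨_, rfl⟩
      have hr0 : 0 < r := by rw [hr]; positivity
      have hDn : D n = Ω ∩ ball ζ1 r := by rw [hD, hr]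
      have hDn1 : D (n + 1) = Ω ∩ ball ζ1 (r + δ / 2) := by
        rw [hD, hr]
        push_cast
        congr 2
        ring
      obtain ⟨θ, hθ⟩ : ∃ θ : ℝ, θ = r / (r + δ / 2) := ⟨_, rfl⟩
      have hrd : 0 < r + δ / 2 := by positivity
      have hθ0 : 0 < θ := by rw [hθ]; positivity
      have hθ1 : θ ≤ 1 := by rw [hθ, div_le_one hrd]; linarith
      have hθr : θ * (r + δ / 2) = r := by rw [hθ]; field_simp
      obtain ⟨c, hcdef⟩ : ∃ c : ℂ → ℂ, c = fun ζ => ζ1 + θ • (ζ - ζ1) := ⟨_, rfl⟩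
      have hcD : ∀ ζ ∈ D (n + 1), c ζ ∈ D n := by
        intro ζ hζ
        rw [hDn1] at hζ
        rw [hDn, hcdef]
        refine ⟨?_, ?_⟩
        · exact hc.add_smul_sub_mem h1 hζ.1 ⟨hθ0.le, hθ1⟩
        · have h2 := hζ.2
          rw [mem_ball_iff_norm] at h2 ⊢
          rw [add_sub_cancel_left, norm_smul, Real.norm_of_nonneg hθ0.le]
          calc θ * ‖ζ - ζ1‖ < θ * (r + δ / 2) := mul_lt_mul_of_pos_left h2 hθ0
            _ = r := hθr
      have hcb : ∀ ζ ∈ D (n + 1), ζ ∈ ball (c ζ) δ := by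
        intro ζ hζ
        rw [hDn1] at hζ
        have h2 := hζ.2
        rw [mem_ball_iff_norm] at h2 ⊢
        have e : ζ - c ζ = (1 - θ) • (ζ - ζ1) := by
          rw [hcdef]
          simp only [sub_smul, one_smul]
          ring
        rw [e, norm_smul, Real.norm_of_nonneg (by linarith)]
        have h3 : (1 - θ) * ‖ζ - ζ1‖ ≤ (1 - θ) * (r + δ / 2) := mul_le_mul_of_nonneg_left h2.le (by linarith)
        nlinarith
      choose! g hg hg1 using fun (a : ℂ) (ha : a ∈ D n) =>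
        hloc (G a) a (by rw [hDn] at ha; exact ha.1) (hG.2 a ha)
      have key : ∀ a ∈ D n, ∀ b ∈ D n, ∀ ζ ∈ Ω, ζ ∈ ball a δ → ζ ∈ ball b δ → g a ζ = g b ζ := by
        intro a ha b hb ζ hζ hza hzb
        obtain ⟨m, hm⟩ : ∃ m : ℂ, m = midpoint ℝ a b := ⟨_, rfl⟩
        have hmD : m ∈ D n := by rw [hm]; exact (hDc n).midpoint_mem ha hb
        have hab : dist a b < 2 * δ := by
          have := dist_triangle_left a b ζ
          rw [mem_ball] at hza hzb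
          linarith
        have hma : m ∈ ball a δ := by
          rw [mem_ball, hm, dist_midpoint_left, Real.norm_eq_abs, abs_of_pos (by norm_num)]
          linarith
        have hmb : m ∈ ball b δ := by
          rw [mem_ball, hm, dist_midpoint_right, Real.norm_eq_abs, abs_of_pos (by norm_num)]
          linarith
        have e1 : g a m = G m :=
          Sol.uniq hF (isOpen_ball.inter (hDo n)) ((convex_ball a δ).inter (hDc n)).isPreconnected
            ((hg a ha).mono inter_subset_left) (hG.mono inter_subset_right) (ζ0 := a)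
            ⟨mem_ball_self hδ, ha⟩ (hg1 a ha) ⟨hma, hmD⟩
        have e2 : g b m = G m :=
          Sol.uniq hF (isOpen_ball.inter (hDo n)) ((convex_ball b δ).inter (hDc n)).isPreconnected
            ((hg b hb).mono inter_subset_left) (hG.mono inter_subset_right) (ζ0 := b)
            ⟨mem_ball_self hδ, hb⟩ (hg1 b hb) ⟨hmb, hmD⟩
        exact Sol.uniq hF (isOpen_ball.inter isOpen_ball) ((convex_ball a δ).inter (convex_ball b δ)).isPreconnected
            ((hg a ha).mono inter_subset_left) ((hg b hb).mono inter_subset_right) (ζ0 := m)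
            ⟨hma, hmb⟩ (e1.trans e2.symm) ⟨hza, hzb⟩
      refine ⟨fun ζ => g (c ζ) ζ, ⟨fun ζ hζ => ?_, fun ζ hζ => (hg _ (hcD ζ hζ)).2 ζ (hcb ζ hζ)⟩, ?_⟩
      · have h3 : DifferentiableAt ℂ (g (c ζ)) ζ :=
          (hg _ (hcD ζ hζ)).1.differentiableAt (isOpen_ball.mem_nhds (hcb ζ hζ))
        refine (h3.congr_of_eventuallyEq ?_).differentiableWithinAt
        filter_upwards [(hDo (n + 1)).mem_nhds hζ, isOpen_ball.mem_nhds (hcb ζ hζ)] with z hz hz2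
        exact key _ (hcD z hz) _ (hcD ζ hζ) z (by rw [hDn1] at hz; exact hz.1) (hcb z hz) hz2
      · have e : c ζ1 = ζ1 := by rw [hcdef]; simp
        simp only [e]
        rw [hg1 ζ1 (hD1 n), hG1]
  choose g hg hg1 using step
  obtain ⟨G, hG, hGe⟩ := glue hDo (fun n => (hg n).1) (fun m n hmn =>
    Sol.uniq hF (hDo m) (hDc m).isPreconnected ((hg n).mono (hDm m n hmn)) (hg m) (hD1 m)
      ((hg1 n).trans (hg1 m).symm))
  have hun : (⋃ n, D n) = Ω := by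
    apply Subset.antisymm
    · exact iUnion_subset fun n => by rw [hD]; exact inter_subset_left
    · intro ζ hζ
      obtain ⟨n, hn⟩ := exists_nat_gt (dist ζ ζ1 / (δ / 2))
      rw [mem_iUnion]
      refine ⟨n, ?_⟩
      rw [hD]
      refine ⟨hζ, ?_⟩
      rw [mem_ball]
      rw [div_lt_iff₀ (by positivity)] at hn
      nlinarith
  rw [hun] at hG
  refine ⟨G, ⟨hG, fun ζ hζ => ?_⟩, ?_⟩
  · rw [← hun] at hζ
    obtain ⟨n, hn⟩ := mem_iUnion.1 hζ
    rw [hGe n hn, (hg n).2 ζ hn]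
  · rw [hGe 0 (hD1 0), hg1]

end Pool.Agent.Q288.AP
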