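import Pool.Agent.Q288.AP.Ext

set_option autoImplicit false

/-!
# The fibres of an entire function over the values of large modulus
-/

namespace Pool.Agent.Q288.AP

open Complex Filter Topology Metric Set

/-- `G` describes all points with `|F| > exp X` -/
structure Fib (F : ℂ → ℂ) (X : ℝ) (G : ℂ → ℂ) : Prop where
  sol : Sol F G (HP X)
  inj : InjOn G (HP X)
  surj : ∀ w, Real.exp X < ‖F w‖ → ∃ ζ ∈ HP X, G ζ = w

/-- uniform local solutions far away -/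
def ExtP (F : ℂ → ℂ) : Prop := ∀ ε : ℝ, 0 < ε → ∃ δ : ℝ, 0 < δ ∧ ∀ M : ℝ, ∃ M' : ℝ, ∀ w0 ζ0 : ℂ, M' ≤ ‖w0‖ →
  ε ≤ ‖F w0‖ → F w0 = cexp ζ0 → ∃ g, Sol F g (ball ζ0 δ) ∧ g ζ0 = w0 ∧ ∀ ζ ∈ ball ζ0 δ, M ≤ ‖g ζ‖

/-- `G` is large for large imaginary parts -/
def FarP (G : ℂ → ℂ) (X : ℝ) : Prop := ∀ M B : ℝ, ∃ Y : ℝ, ∀ ζ ∈ HP X, ζ.re ≤ B → Y ≤ |ζ.im| → M ≤ ‖G ζ‖

structure Dat (F : ℂ → ℂ) : Prop where
  diff : Differentiable ℂ F
  ext : ExtP F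
  base : ∃ (X : ℝ) (G : ℂ → ℂ), Fib F X G ∧ FarP G X
  crit : ∃ c, deriv F c = 0 ∧ F c ≠ 0

variable {F : ℂ → ℂ}

theorem LS.mono {δ δ' : ℝ} {w0 ζ0 : ℂ} (h : LS F δ w0 ζ0) (hδ : δ' ≤ δ) : LS F δ' w0 ζ0 := by
  obtain ⟨g, hg, hg1⟩ := h
  exact ⟨g, hg.mono (ball_subset_ball hδ), hg1⟩

theorem nearLS (hF : Differentiable ℂ F) {w : ℂ} (hw : deriv F w ≠ 0) :
    ∃ δ : ℝ, 0 < δ ∧ ∀ᶠ w' in 𝓝 w, ∀ ζ0, F w' = cexp ζ0 → LS F δ w' ζ0 := by
  obtain ⟨φ, h1, h2, h3⟩ := loc_inj (hF.analyticAt w) hw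
  obtain ⟨ρ, hρ, h4⟩ := Metric.eventually_nhds_iff_ball.1 (h1.eventually_analyticAt.and h3)
  have hB : 0 < ‖F w‖ + ρ := by positivity
  obtain ⟨δ, hδ⟩ : ∃ δ : ℝ, δ = min 1 (ρ / (4 * (‖F w‖ + ρ))) := ⟨_, rfl⟩
  have hδ0 : 0 < δ := by rw [hδ]; positivity
  have hδ1 : δ ≤ 1 := by rw [hδ]; exact min_le_left _ _
  have hδ2 : (‖F w‖ + ρ) * (2 * δ) ≤ ρ / 2 := by
    have h5 : δ ≤ ρ / (4 * (‖F w‖ + ρ)) := by rw [hδ]; exact min_le_right _ _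
    calc (‖F w‖ + ρ) * (2 * δ) ≤ (‖F w‖ + ρ) * (2 * (ρ / (4 * (‖F w‖ + ρ)))) := by gcongr
      _ = ρ / 2 := by field_simp; ring
  refine ⟨δ, hδ0, ?_⟩
  have hcont : ∀ᶠ w' in 𝓝 w, F w' ∈ ball (F w) (ρ / 2) :=
    hF.continuous.continuousAt.eventually (isOpen_ball.mem_nhds (mem_ball_self (by positivity)))
  filter_upwards [h2, hcont] with w' h6 h7 ζ0 h8
  have hb : ∀ ζ ∈ ball ζ0 δ, cexp ζ ∈ ball (F w) ρ := by
    intro ζ hζ
    rw [mem_ball_iff_norm] at hζ h7 ⊢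
    have e : cexp ζ - F w = cexp ζ0 * (cexp (ζ - ζ0) - 1) + (F w' - F w) := by
      rw [h8, mul_sub, ← Complex.exp_add, mul_one]
      ring_nf
    have h9 : ‖cexp (ζ - ζ0) - 1‖ ≤ 2 * ‖ζ - ζ0‖ := Complex.norm_exp_sub_one_le (by linarith)
    have h10 : ‖cexp ζ0‖ ≤ ‖F w‖ + ρ := by
      rw [← h8]
      have := norm_sub_norm_le (F w') (F w)
      linarith
    rw [e]
    calc ‖cexp ζ0 * (cexp (ζ - ζ0) - 1) + (F w' - F w)‖ ≤ ‖cexp ζ0 * (cexp (ζ - ζ0) - 1)‖ + ‖F w' - F w‖ :=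
          norm_add_le _ _
      _ = ‖cexp ζ0‖ * ‖cexp (ζ - ζ0) - 1‖ + ‖F w' - F w‖ := by rw [norm_mul]
      _ ≤ (‖F w‖ + ρ) * (2 * δ) + ‖F w' - F w‖ := by
          gcongr
          linarith
      _ < ρ := by linarith
  refine ⟨fun ζ => φ (cexp ζ), ⟨?_, fun ζ hζ => (h4 _ (hb ζ hζ)).2⟩, ?_⟩
  · intro ζ hζ
    have h11 : DifferentiableAt ℂ φ (cexp ζ) := (h4 _ (hb ζ hζ)).1.differentiableAt
    exact (h11.comp ζ (Complex.differentiable_exp ζ)).differentiableWithinAt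
  · simp only
    rw [← h8, h6]

/-- uniform local solutions over a closed set of values without critical values -/
theorem uloc (hF : Differentiable ℂ F) (hext : ExtP F) {A : Set ℂ} (hA : IsClosed A) {ε : ℝ} (hε : 0 < ε)
    (hAε : ∀ a ∈ A, ε ≤ ‖a‖) (hcr : ∀ c, deriv F c = 0 → F c ∉ A) :
    ∃ δ : ℝ, 0 < δ ∧ ∀ w0 ζ0, F w0 ∈ A → F w0 = cexp ζ0 → LS F δ w0 ζ0 := by
  obtain ⟨δ1, hδ1, h1⟩ := hext ε hε
  obtain ⟨M', h2⟩ := h1 0
  have hK : IsCompact (closedBall (0 : ℂ) M' ∩ F ⁻¹' A) :=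
    (isCompact_closedBall 0 M').inter_right (hA.preimage hF.continuous)
  have h3 : ∃ δ : ℝ, 0 < δ ∧ ∀ w ∈ closedBall (0 : ℂ) M' ∩ F ⁻¹' A, ∀ ζ0, F w = cexp ζ0 → LS F δ w ζ0 := by
    refine hK.induction_on (p := fun S => ∃ δ : ℝ, 0 < δ ∧ ∀ w ∈ S, ∀ ζ0, F w = cexp ζ0 → LS F δ w ζ0)
      ⟨1, one_pos, fun w hw => absurd hw (Set.notMem_empty w)⟩ ?_ ?_ ?_
    · rintro s t hst ⟨δ, hδ, h⟩
      exact ⟨δ, hδ, fun w hw => h w (hst hw)⟩
    · rintro s t ⟨δ, hδ, h⟩ ⟨δ', hδ', h'⟩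
      refine ⟨min δ δ', lt_min hδ hδ', fun w hw ζ0 he => ?_⟩
      rcases hw with hw | hw
      · exact (h w hw ζ0 he).mono (min_le_left _ _)
      · exact (h' w hw ζ0 he).mono (min_le_right _ _)
    · intro w hw
      obtain ⟨δ, hδ, h⟩ := nearLS hF (fun h0 => hcr w h0 hw.2)
      exact ⟨_, mem_nhdsWithin_of_mem_nhds h, δ, hδ, fun w' hw' => hw'⟩
  obtain ⟨δ2, hδ2, h4⟩ := h3
  refine ⟨min δ1 δ2, lt_min hδ1 hδ2, fun w0 ζ0 hw0 he => ?_⟩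
  rcases le_or_gt M' ‖w0‖ with h5 | h5
  · obtain ⟨g, hg, hg1, -⟩ := h2 w0 ζ0 h5 (hAε _ hw0) he
    exact LS.mono ⟨g, hg, hg1⟩ (min_le_left _ _)
  · exact (h4 w0 ⟨by rw [mem_closedBall_zero_iff]; exact h5.le, hw0⟩ ζ0 he).mono (min_le_right _ _)

theorem exists_log {a : ℂ} (ha : a ≠ 0) : a = cexp (Complex.log a) := (Complex.exp_log ha).symm

/-- a critical point with the largest modulus of the value -/
theorem max_crit (hF : Differentiable ℂ F) (hext : ExtP F) (h : ∃ c, deriv F c = 0 ∧ F c ≠ 0) :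
    ∃ c, deriv F c = 0 ∧ F c ≠ 0 ∧ ∀ c', deriv F c' = 0 → ‖F c'‖ ≤ ‖F c‖ := by
  obtain ⟨c0, h1, h2⟩ := h
  have h3 : 0 < ‖F c0‖ := norm_pos_iff.2 h2
  obtain ⟨δ1, hδ1, h4⟩ := hext _ h3
  obtain ⟨M', h5⟩ := h4 0
  have hdF : Continuous (deriv F) := hF.contDiff (n := 1) |>.continuous_deriv le_rfl
  have hK : IsCompact (closedBall (0 : ℂ) M' ∩ {c | deriv F c = 0 ∧ ‖F c0‖ ≤ ‖F c‖}) := by
    refine (isCompact_closedBall 0 M').inter_right ?_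
    exact (isClosed_eq hdF continuous_const).inter (isClosed_le continuous_const hF.continuous.norm)
  have h6 : ∀ c, deriv F c = 0 → ‖F c0‖ ≤ ‖F c‖ → c ∈ closedBall (0 : ℂ) M' := by
    intro c hc hc2
    rw [mem_closedBall_zero_iff]
    by_contra hcon
    push Not at hcon
    have h7 : F c ≠ 0 := norm_pos_iff.1 (h3.trans_le hc2)
    obtain ⟨g, hg, hg1, -⟩ := h5 c _ hcon.le hc2 (exists_log h7)
    exact hg.deriv_ne hF isOpen_ball (mem_ball_self hδ1) (by rw [hg1]; exact hc)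
  obtain ⟨c, hc, hmax⟩ := hK.exists_isMaxOn ⟨c0, h6 c0 h1 le_rfl, h1, le_rfl⟩ hF.continuous.norm.continuousOn
  refine ⟨c, hc.2.1, norm_pos_iff.1 (h3.trans_le hc.2.2), fun c' hc' => ?_⟩
  rcases le_or_gt ‖F c0‖ ‖F c'‖ with h8 | h8
  · exact hmax ⟨h6 c' hc' h8, hc', h8⟩
  · exact h8.le.trans hc.2.2

/-- the same exponential -/
theorem exp_int {ζ ζ' : ℂ} (h : cexp ζ = cexp ζ') : ∃ n : ℤ, ζ = ζ' + n * (2 * Real.pi * I) :=
  Complex.exp_eq_exp_iff_exists_int.1 h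

theorem re_shift (ζ : ℂ) (n : ℤ) : (ζ + n * (2 * Real.pi * I)).re = ζ.re := by simp

theorem HP_shift {X : ℝ} {ζ : ℂ} (h : ζ ∈ HP X) (n : ℤ) : ζ + n * (2 * Real.pi * I) ∈ HP X := by
  change X < _
  rw [re_shift]
  exact h

theorem two_pi_I_cancel {ζ : ℂ} {n : ℤ} (h : ζ = ζ + n * (2 * Real.pi * I)) : n = 0 := by
  have h1 : (n : ℂ) * (2 * Real.pi * I) = 0 := by linear_combination -h
  have h2 : (2 * Real.pi * I : ℂ) ≠ 0 := by
    simp [Real.pi_ne_zero]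
  exact_mod_cast (mul_eq_zero.1 h1).resolve_right h2

theorem re_of_exp {w ζ : ℂ} (h : F w = cexp ζ) : ‖F w‖ = Real.exp ζ.re := by
  rw [h, Complex.norm_exp]

/-- extension to the left of the half plane -/
theorem fib_ext (hF : Differentiable ℂ F) (hext : ExtP F) {X1 X' : ℝ} {G1 : ℂ → ℂ} (hG1 : Fib F X1 G1)
    (hX : X' ≤ X1) (hcr : ∀ c, deriv F c = 0 → ‖F c‖ < Real.exp X') :
    ∃ G, Fib F X' G ∧ EqOn G G1 (HP X1) := by
  obtain ⟨δ, hδ, hloc⟩ := uloc hF hext (A := {a | Real.exp X' ≤ ‖a‖}) (isClosed_le continuous_const continuous_norm)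
    (Real.exp_pos X') (fun a ha => ha) (fun c hc h => absurd h (not_le.2 (hcr c hc)))
  have hloc' : ∀ w0 ζ0, ζ0 ∈ HP X' → F w0 = cexp ζ0 → LS F δ w0 ζ0 := by
    intro w0 ζ0 h0 he
    refine hloc w0 ζ0 ?_ he
    change Real.exp X' ≤ ‖F w0‖
    rw [re_of_exp he]
    exact Real.exp_le_exp.2 (le_of_lt h0)
  obtain ⟨ζ1, hζ1⟩ : ∃ ζ1 : ℂ, ζ1 = ((X1 + 1 : ℝ) : ℂ) := ⟨_, rfl⟩
  have hζ1re : ζ1.re = X1 + 1 := by rw [hζ1, Complex.ofReal_re]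
  have hmem1 : ζ1 ∈ HP X1 := by change X1 < ζ1.re; linarith
  have hmem' : ζ1 ∈ HP X' := HP_mono hX hmem1
  obtain ⟨G, hG, hGe⟩ := extend hF (HP_open X') (HP_convex X') hδ hloc' hmem' (w1 := G1 ζ1) (hG1.sol.2 ζ1 hmem1)
  have hagree : EqOn G G1 (HP X1) :=
    Sol.uniq hF (HP_open X1) (HP_convex X1).isPreconnected (hG.mono (HP_mono hX)) hG1.sol hmem1 hGe
  refine ⟨G, ⟨hG, ?_, ?_⟩, hagree⟩
  · intro a ha b hb hab
    have h1 : cexp a = cexp b := by rw [← hG.2 a ha, ← hG.2 b hb, hab]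
    obtain ⟨n, hn⟩ := exp_int h1
    have h2 : EqOn (fun ζ => G (ζ + n * (2 * Real.pi * I))) G (HP X') :=
      Sol.uniq hF (HP_open X') (HP_convex X').isPreconnected (hG.shift n fun ζ hζ => HP_shift hζ n) hG hb
        (by rw [← hn, hab])
    have h3 := h2 hmem'
    simp only at h3
    rw [hagree hmem1, hagree (HP_shift hmem1 n)] at h3
    have h4 := hG1.inj (HP_shift hmem1 n) hmem1 h3
    have h5 := two_pi_I_cancel h4.symm
    rw [hn, h5]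
    simp
  · intro w hw
    have hw0 : F w ≠ 0 := norm_pos_iff.1 ((Real.exp_pos _).trans hw)
    obtain ⟨ζw, hζw⟩ : ∃ ζw, ζw = Complex.log (F w) := ⟨_, rfl⟩
    have he : F w = cexp ζw := by rw [hζw]; exact exists_log hw0
    have hre : ζw ∈ HP X' := by
      rw [re_of_exp he, Real.exp_lt_exp] at hw
      exact hw
    obtain ⟨G2, hG2, hG2e⟩ := extend hF (HP_open X') (HP_convex X') hδ hloc' hre he
    obtain ⟨ζ2, hζ2, h6⟩ := hG1.surj (G2 ζ1) (by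
      rw [re_of_exp (hG2.2 ζ1 hmem'), Real.exp_lt_exp]
      exact hmem1)
    have h7 : cexp ζ2 = cexp ζ1 := by rw [← hG1.sol.2 ζ2 hζ2, ← hG2.2 ζ1 hmem', h6]
    obtain ⟨n, hn⟩ := exp_int h7
    have h8 : EqOn (fun ζ => G (ζ + n * (2 * Real.pi * I))) G2 (HP X') :=
      Sol.uniq hF (HP_open X') (HP_convex X').isPreconnected (hG.shift n fun ζ hζ => HP_shift hζ n) hG2 hmem'
        (by rw [← hn, hagree hζ2, h6])
    refine ⟨ζw + n * (2 * Real.pi * I), HP_shift hre n, ?_⟩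
    have h9 := h8 hre
    simp only at h9
    rw [h9, hG2e]

/-- the data up to the first critical value -/
structure Core (F : ℂ → ℂ) (X : ℝ) (G : ℂ → ℂ) : Prop where
  diff : Differentiable ℂ F
  ext : ExtP F
  fib : Fib F X G
  far : FarP G X
  crit : ∃ c, deriv F c = 0 ∧ ‖F c‖ = Real.exp X
  max : ∀ c, deriv F c = 0 → ‖F c‖ ≤ Real.exp X

theorem core (h : Dat F) : ∃ X G, Core F X G := by
  have hF := h.diff
  obtain ⟨X0, G1, hG0, hfar0⟩ := h.base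
  obtain ⟨c, hc1, hc2, hc3⟩ := max_crit hF h.ext h.crit
  obtain ⟨X, hX⟩ : ∃ X : ℝ, X = Real.log ‖F c‖ := ⟨_, rfl⟩
  have hXc : ‖F c‖ = Real.exp X := by rw [hX, Real.exp_log (norm_pos_iff.2 hc2)]
  -- enlarge the base
  obtain ⟨X1, hX1⟩ : ∃ X1 : ℝ, X1 = max X0 (X + 1) := ⟨_, rfl⟩
  have h01 : X0 ≤ X1 := by rw [hX1]; exact le_max_left _ _
  have hXX1 : X < X1 := by
    have : X + 1 ≤ X1 := by rw [hX1]; exact le_max_right _ _
    linarith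
  have hG1 : Fib F X1 G1 := by
    refine ⟨hG0.sol.mono (HP_mono h01), hG0.inj.mono (HP_mono h01), fun w hw => ?_⟩
    obtain ⟨ζ, hζ, he⟩ := hG0.surj w (lt_of_le_of_lt (Real.exp_le_exp.2 h01) hw)
    refine ⟨ζ, ?_, he⟩
    rw [← he, re_of_exp (hG0.sol.2 ζ hζ), Real.exp_lt_exp] at hw
    exact hw
  -- the sequence
  obtain ⟨Xn, hXn⟩ : ∃ Xn : ℕ → ℝ, Xn = fun n : ℕ => X + (X1 - X) / ((n : ℝ) + 1) := ⟨_, rfl⟩
  have hXn1 : ∀ n, X < Xn n := fun n => by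
    rw [hXn]
    have : 0 < (X1 - X) / ((n : ℝ) + 1) := div_pos (by linarith) (by positivity)
    simp only
    linarith
  have hXn2 : ∀ n, Xn n ≤ X1 := fun n => by
    rw [hXn]
    have : (X1 - X) / ((n : ℝ) + 1) ≤ X1 - X := div_le_self (by linarith) (by
      have : (0 : ℝ) ≤ n := Nat.cast_nonneg n
      linarith)
    simp only
    linarith
  have hXn3 : ∀ m n, m ≤ n → Xn n ≤ Xn m := fun m n hmn => by
    rw [hXn]
    have h1 : (m : ℝ) ≤ n := by exact_mod_cast hmn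
    have : (X1 - X) / ((n : ℝ) + 1) ≤ (X1 - X) / ((m : ℝ) + 1) := by
      apply div_le_div_of_nonneg_left (by linarith) (by positivity) (by linarith)
    simp only
    linarith
  have hXn4 : ∀ y, X < y → ∃ n, Xn n < y := by
    intro y hy
    obtain ⟨n, hn⟩ := exists_nat_gt ((X1 - X) / (y - X))
    refine ⟨n, ?_⟩
    rw [hXn]
    simp only
    rw [div_lt_iff₀ (by linarith)] at hn
    have h1 : (X1 - X) / ((n : ℝ) + 1) < y - X := by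
      rw [div_lt_iff₀ (by positivity)]
      nlinarith
    linarith
  have hstep : ∀ n, ∃ G, Fib F (Xn n) G ∧ EqOn G G1 (HP X1) := fun n =>
    fib_ext hF h.ext hG1 (hXn2 n) fun c' hc' => lt_of_le_of_lt ((hc3 c' hc').trans hXc.le)
      (Real.exp_lt_exp.2 (hXn1 n))
  choose g hg hg1 using hstep
  obtain ⟨ζ1, hζ1⟩ : ∃ ζ1 : ℂ, ζ1 = ((X1 + 1 : ℝ) : ℂ) := ⟨_, rfl⟩
  have hζ1re : ζ1.re = X1 + 1 := by rw [hζ1, Complex.ofReal_re]
  have hmem1 : ζ1 ∈ HP X1 := by change X1 < ζ1.re; linarith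
  obtain ⟨G, hGd, hGe⟩ := glue (D := fun n => HP (Xn n)) (fun n => HP_open _) (fun n => (hg n).sol.1)
    (fun m n hmn => Sol.uniq hF (HP_open _) (HP_convex _).isPreconnected
      ((hg n).sol.mono (HP_mono (hXn3 m n hmn))) (hg m).sol (HP_mono (hXn2 m) hmem1)
      ((hg1 n hmem1).trans (hg1 m hmem1).symm))
  have hun : (⋃ n, HP (Xn n)) = HP X := by
    apply Subset.antisymm
    · exact iUnion_subset fun n => HP_mono (hXn1 n).le
    · intro ζ hζ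
      obtain ⟨n, hn⟩ := hXn4 ζ.re hζ
      exact mem_iUnion.2 ⟨n, hn⟩
  rw [hun] at hGd
  have hsol : Sol F G (HP X) := by
    refine ⟨hGd, fun ζ hζ => ?_⟩
    obtain ⟨n, hn⟩ := hXn4 ζ.re hζ
    rw [hGe n hn, (hg n).sol.2 ζ hn]
  have hGG1 : EqOn G G1 (HP X1) := fun ζ hζ => by
    rw [hGe 0 (HP_mono (hXn2 0) hζ), hg1 0 hζ]
  refine ⟨X, G, hF, h.ext, ⟨hsol, ?_, ?_⟩, ?_, ⟨c, hc1, hXc⟩, fun c' hc' => (hc3 c' hc').trans hXc.le⟩
  · intro a ha b hb hab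
    obtain ⟨n, hn⟩ := hXn4 a.re ha
    obtain ⟨m, hm⟩ := hXn4 b.re hb
    have h1 : a ∈ HP (Xn (n + m)) := lt_of_le_of_lt (hXn3 _ _ (Nat.le_add_right n m)) hn
    have h2 : b ∈ HP (Xn (n + m)) := lt_of_le_of_lt (hXn3 _ _ (Nat.le_add_left m n)) hm
    rw [hGe _ h1, hGe _ h2] at hab
    exact (hg _).inj h1 h2 hab
  · intro w hw
    have hw0 : 0 < ‖F w‖ := (Real.exp_pos _).trans hw
    obtain ⟨n, hn⟩ := hXn4 (Real.log ‖F w‖) (by rwa [Real.lt_log_iff_exp_lt hw0])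
    rw [Real.lt_log_iff_exp_lt hw0] at hn
    obtain ⟨ζ, hζ, he⟩ := (hg n).surj w hn
    exact ⟨ζ, HP_mono (hXn1 n).le hζ, by rw [hGe n hζ, he]⟩
  -- far
  · obtain ⟨δ0, hδ0, hE⟩ := h.ext (Real.exp X) (Real.exp_pos X)
    obtain ⟨δ, hδ⟩ : ∃ δ : ℝ, δ = min δ0 1 / 2 := ⟨_, rfl⟩
    have hδp : 0 < δ := by rw [hδ]; positivity
    have hδl : δ < δ0 := by
      have : min δ0 1 ≤ δ0 := min_le_left _ _
      have : 0 < min δ0 1 := by positivity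
      rw [hδ]; linarith
    have hδ1 : δ ≤ 1 := by
      have : min δ0 1 ≤ 1 := min_le_right _ _
      rw [hδ]; linarith
    have claim : ∀ N : ℕ, ∀ M B : ℝ, ∃ Y : ℝ, ∀ ζ ∈ HP X, X1 - N * δ < ζ.re → ζ.re ≤ B → Y ≤ |ζ.im| → M ≤ ‖G ζ‖ := by
      intro N
      induction N with
      | zero =>
        intro M B
        obtain ⟨Y, hY⟩ := hfar0 M B
        refine ⟨Y, fun ζ _ h1 h2 h3 => ?_⟩
        have h4 : ζ ∈ HP X1 := by
          simp only [Nat.cast_zero, zero_mul, sub_zero] at h1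
          exact h1
        rw [hGG1 h4]
        exact hY ζ (HP_mono h01 h4) h2 h3
      | succ N ih =>
        intro M B
        obtain ⟨M', hM'⟩ := hE M
        obtain ⟨Y, hY⟩ := ih M' (B + 1)
        refine ⟨Y, fun ζ hζ h1 h2 h3 => ?_⟩
        obtain ⟨ζ0, hζ0⟩ : ∃ ζ0 : ℂ, ζ0 = ζ + (δ : ℂ) := ⟨_, rfl⟩
        have h4 : ζ0.re = ζ.re + δ := by rw [hζ0]; simp
        have h5 : ζ0.im = ζ.im := by rw [hζ0]; simp
        have h6 : ζ0 ∈ HP X := by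
          change X < ζ0.re
          have : X < ζ.re := hζ
          linarith
        have h7 : M' ≤ ‖G ζ0‖ := by
          refine hY ζ0 h6 ?_ ?_ ?_
          · push_cast at h1
            rw [h4]
            linarith
          · rw [h4]; linarith
          · rw [h5]; exact h3
        obtain ⟨g', hg', hg1', hg2'⟩ := hM' (G ζ0) ζ0 h7 (by
          rw [re_of_exp (hsol.2 ζ0 h6)]
          exact (Real.exp_lt_exp.2 h6).le) (hsol.2 ζ0 h6)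
        have h8 : ζ ∈ ball ζ0 δ0 := by
          rw [mem_ball_iff_norm, hζ0]
          have : ζ - (ζ + (δ : ℂ)) = -(δ : ℂ) := by ring
          rw [this, norm_neg, Complex.norm_real, Real.norm_of_nonneg hδp.le]
          exact hδl
        have h9 : G ζ = g' ζ :=
          Sol.uniq hF (isOpen_ball.inter (HP_open X)) ((convex_ball ζ0 δ0).inter (HP_convex X)).isPreconnected
            (hsol.mono inter_subset_right) (hg'.mono inter_subset_left) (ζ0 := ζ0)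
            ⟨mem_ball_self hδ0, h6⟩ hg1'.symm ⟨h8, hζ⟩
        rw [h9]
        exact hg2' ζ h8
    intro M B
    obtain ⟨N, hN⟩ := exists_nat_gt ((X1 - X) / δ)
    obtain ⟨Y, hY⟩ := claim N M B
    refine ⟨Y, fun ζ hζ h1 h2 => hY ζ hζ ?_ h1 h2⟩
    rw [div_lt_iff₀ hδp] at hN
    have : X < ζ.re := hζ
    linarith

end Pool.Agent.Q288.AP
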