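import Pool.Agent.Q288.AP.Alg

set_option autoImplicit false

/-!
# The points where an entire function takes a generic value
-/

namespace Pool.Agent.Q288.AP

open Complex Filter Topology Metric Set

theorem countable_zeros {f : ℂ → ℂ} (hf : Differentiable ℂ f) (hne : ∃ z, f z ≠ 0) : (f ⁻¹' {0}).Countable := by
  obtain ⟨x, hx⟩ := hne
  have han : AnalyticOnNhd ℂ f Set.univ := hf.differentiableOn.analyticOnNhd isOpen_univ
  have h1 := han.preimage_zero_mem_codiscrete hx
  have h4 := (mem_codiscrete'.1 h1).2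
  rw [Set.preimage_compl, compl_compl] at h4
  exact (HereditarilyLindelofSpace.isLindelof (f ⁻¹' {0})).countable_of_isDiscrete h4

/-- critical values and zero -/
def CV (F : ℂ → ℂ) : Set ℂ := insert 0 (F '' {c | deriv F c = 0})

variable {F G : ℂ → ℂ} {X : ℝ}

theorem cv_countable (h : Core F X G) : (CV F).Countable := by
  refine Set.Countable.insert 0 (Set.Countable.image ?_ F)
  have hd : Differentiable ℂ (deriv F) := h.diff.deriv
  refine (countable_zeros hd ?_).mono fun c hc => hc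
  by_contra hcon
  push Not at hcon
  obtain ⟨c, hc, -⟩ := h.crit
  apply nonconst h c
  have h1 : ∀ z, F z = F c := fun z => is_const_of_deriv_eq_zero h.diff hcon z c
  exact Filter.Eventually.of_forall h1

theorem exp_preimage_countable {V : Set ℂ} (hV : V.Countable) : (cexp ⁻¹' V).Countable := by
  have h1 : cexp ⁻¹' V ⊆ ⋃ v ∈ V, ⋃ n : ℤ, {Complex.log v + n * (2 * Real.pi * I)} := by
    intro z hz
    have h2 : cexp z = cexp (Complex.log (cexp z)) := (Complex.exp_log (Complex.exp_ne_zero z)).symm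
    obtain ⟨n, hn⟩ := exp_int h2
    rw [mem_iUnion₂]
    refine ⟨cexp z, hz, ?_⟩
    rw [mem_iUnion]
    exact ⟨n, hn⟩
  refine Set.Countable.mono h1 (hV.biUnion fun v _ => countable_iUnion fun n => countable_singleton _)

/-- a direction without critical values -/
theorem good_dir (h : Core F X G) (ζa : ℂ) {η : ℝ} (hη : 0 < η) :
    ∃ θ : ℝ, |θ| < η ∧ ∀ x : ℝ, cexp (ζa + θ * I + x) ∉ CV F := by
  have h1 : ((fun z : ℂ => z.im - ζa.im) '' (cexp ⁻¹' (CV F))).Countable :=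
    (exp_preimage_countable (cv_countable h)).image _
  have h2 : ¬ (Ioo (-η) η : Set ℝ) ⊆ (fun z : ℂ => z.im - ζa.im) '' (cexp ⁻¹' (CV F)) := by
    intro hsub
    have h3 : (Ioo (-η) η : Set ℝ).Countable := h1.mono hsub
    have h4 : ¬ (Ioo (-η) η : Set ℝ).Countable := by
      rw [← Cardinal.le_aleph0_iff_set_countable, Cardinal.mk_Ioo_real (by linarith : -η < η), not_le]
      exact Cardinal.aleph0_lt_continuum
    exact h4 h3
  rw [Set.not_subset] at h2
  obtain ⟨θ, hθ, hn⟩ := h2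
  refine ⟨θ, abs_lt.2 hθ, fun x hx => hn ⟨ζa + θ * I + x, hx, ?_⟩⟩
  simp

/-- **A relation which holds near a noncritical value is trivial.** -/
theorem local_rel (h : Core F X G) {n : ℕ} {P : MvPolynomial (Fin n) ℂ} {a : ℂ} (ha : a ≠ 0) {W : Fin n → ℂ → ℂ}
    (hW : ∀ i, AnalyticAt ℂ (W i) a) (hFW : ∀ i, ∀ᶠ b in 𝓝 a, F (W i b) = b)
    (hinj : Function.Injective fun i => W i a)
    (hrel : ∀ᶠ b in 𝓝 a, MvPolynomial.eval (fun i => W i b) P = 0) : P = 0 := by
  have hF := h.diff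
  -- a good ball in the plane of the values
  have hev : ∀ᶠ b in 𝓝 a, (∀ i, AnalyticAt ℂ (W i) b ∧ F (W i b) = b) ∧ (∀ i j, i ≠ j → W i b ≠ W j b) ∧
      MvPolynomial.eval (fun i => W i b) P = 0 := by
    have h1 : ∀ᶠ b in 𝓝 a, ∀ i, AnalyticAt ℂ (W i) b ∧ F (W i b) = b :=
      eventually_all.2 fun i => (hW i).eventually_analyticAt.and (hFW i)
    have h2 : ∀ᶠ b in 𝓝 a, ∀ i j, i ≠ j → W i b ≠ W j b := by
      refine eventually_all.2 fun i => eventually_all.2 fun j => ?_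
      by_cases hij : i = j
      · exact Filter.Eventually.of_forall fun b hne => absurd hij hne
      · have h3 : W i a ≠ W j a := fun he => hij (hinj he)
        have h4 : ContinuousAt (fun b => W i b - W j b) a := (hW i).continuousAt.sub (hW j).continuousAt
        have h5 := h4.eventually_ne (sub_ne_zero.2 h3)
        filter_upwards [h5] with b hb _
        exact sub_ne_zero.1 hb
    exact h1.and (h2.and hrel)
  obtain ⟨ζa, hζa⟩ : ∃ ζa, ζa = Complex.log a := ⟨_, rfl⟩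
  have hea : cexp ζa = a := by rw [hζa, Complex.exp_log ha]
  have hev2 : ∀ᶠ ζ in 𝓝 ζa, (∀ i, AnalyticAt ℂ (W i) (cexp ζ) ∧ F (W i (cexp ζ)) = cexp ζ) ∧
      (∀ i j, i ≠ j → W i (cexp ζ) ≠ W j (cexp ζ)) ∧ MvPolynomial.eval (fun i => W i (cexp ζ)) P = 0 := by
    have h1 : Tendsto cexp (𝓝 ζa) (𝓝 a) := by
      have := Complex.continuous_exp.tendsto ζa
      rwa [hea] at this
    exact h1.eventually hev
  obtain ⟨η0, hη0, hball⟩ := Metric.eventually_nhds_iff_ball.1 hev2
  obtain ⟨θ, hθ, hcrit⟩ := good_dir h ζa hη0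
  obtain ⟨ζ1, hζ1⟩ : ∃ ζ1 : ℂ, ζ1 = ζa + θ * I := ⟨_, rfl⟩
  rw [← hζ1] at hcrit
  have hζ1b : ζ1 ∈ ball ζa η0 := by
    rw [mem_ball_iff_norm, hζ1, add_sub_cancel_left, norm_mul, Complex.norm_I, mul_one, Complex.norm_real]
    exact hθ
  -- the segment
  obtain ⟨x1, hx1⟩ : ∃ x1 : ℝ, x1 = |X - ζ1.re| + 1 := ⟨_, rfl⟩
  have hx1p : 0 < x1 := by rw [hx1]; positivity
  obtain ⟨ζ2, hζ2⟩ : ∃ ζ2 : ℂ, ζ2 = ζ1 + (x1 : ℂ) := ⟨_, rfl⟩
  have hζ2X : ζ2 ∈ HP X := by
    change X < ζ2.re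
    rw [hζ2, Complex.add_re, Complex.ofReal_re, hx1]
    have := le_abs_self (X - ζ1.re)
    linarith
  obtain ⟨J, hJ⟩ : ∃ J : Set ℂ, J = segment ℝ ζ1 ζ2 := ⟨_, rfl⟩
  have hJc : IsCompact J := by
    rw [hJ, segment_eq_image]
    exact isCompact_Icc.image (by fun_prop)
  have hJv : Convex ℝ J := by rw [hJ]; exact convex_segment _ _
  have hJ1 : ζ1 ∈ J := by rw [hJ]; exact left_mem_segment _ _ _
  have hJ2 : ζ2 ∈ J := by rw [hJ]; exact right_mem_segment _ _ _
  have hJx : ∀ z ∈ J, ∃ x : ℝ, 0 ≤ x ∧ z = ζ1 + (x : ℂ) := by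
    intro z hz
    rw [hJ, segment_eq_image'] at hz
    obtain ⟨s, hs, rfl⟩ := hz
    refine ⟨s * x1, mul_nonneg hs.1 hx1p.le, ?_⟩
    simp only
    rw [hζ2, add_sub_cancel_left, Complex.real_smul]
    push_cast
    ring
  -- critical values of modulus at least ε
  obtain ⟨ε, hε⟩ : ∃ ε : ℝ, ε = Real.exp (ζ1.re - 1) := ⟨_, rfl⟩
  have hεp : 0 < ε := by rw [hε]; exact Real.exp_pos _
  obtain ⟨δ1, hδ1, hE⟩ := h.ext ε hεp
  obtain ⟨M', hM'⟩ := hE 0
  have hdF : Continuous (deriv F) := hF.contDiff (n := 1) |>.continuous_deriv le_rfl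
  have hK : IsCompact (closedBall (0 : ℂ) M' ∩ {c | deriv F c = 0 ∧ ε ≤ ‖F c‖}) := by
    refine (isCompact_closedBall 0 M').inter_right ?_
    exact (isClosed_eq hdF continuous_const).inter (isClosed_le continuous_const hF.continuous.norm)
  have hKmem : ∀ c, deriv F c = 0 → ε ≤ ‖F c‖ → c ∈ closedBall (0 : ℂ) M' := by
    intro c hc hc2
    rw [mem_closedBall_zero_iff]
    by_contra hcon
    push Not at hcon
    have h7 : F c ≠ 0 := norm_pos_iff.1 (hεp.trans_le hc2)
    obtain ⟨g, hg, hg1, -⟩ := hM' c _ hcon.le hc2 (exists_log h7)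
    exact hg.deriv_ne hF isOpen_ball (mem_ball_self hδ1) (by rw [hg1]; exact hc)
  obtain ⟨V, hV⟩ : ∃ V : Set ℂ, V = F '' (closedBall (0 : ℂ) M' ∩ {c | deriv F c = 0 ∧ ε ≤ ‖F c‖}) := ⟨_, rfl⟩
  have hVc : IsClosed V := by rw [hV]; exact (hK.image hF.continuous).isClosed
  have hO : IsOpen (cexp ⁻¹' Vᶜ) := hVc.isOpen_compl.preimage Complex.continuous_exp
  have hJO : J ⊆ cexp ⁻¹' Vᶜ := by
    intro z hz hzV
    obtain ⟨x, -, rfl⟩ := hJx z hz
    apply hcrit x
    rw [hV] at hzV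
    obtain ⟨c, hc, he⟩ := hzV
    exact Or.inr ⟨c, hc.2.1, he⟩
  obtain ⟨η1, hη1, hη1O⟩ := hJc.exists_cthickening_subset_open hO hJO
  obtain ⟨η, hη⟩ : ∃ η : ℝ, η = min η1 1 := ⟨_, rfl⟩
  have hηp : 0 < η := by rw [hη]; positivity
  have hη_le1 : η ≤ 1 := by rw [hη]; exact min_le_right _ _
  obtain ⟨Ω, hΩ⟩ : ∃ Ω : Set ℂ, Ω = Metric.thickening η J := ⟨_, rfl⟩
  have hΩo : IsOpen Ω := by rw [hΩ]; exact Metric.isOpen_thickening
  have hΩc : Convex ℝ Ω := by rw [hΩ]; exact hJv.thickening η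
  have hJΩ : J ⊆ Ω := by rw [hΩ]; exact Metric.self_subset_thickening hηp J
  have hre : ∀ z ∈ Metric.cthickening η J, ζ1.re - 1 ≤ z.re := by
    intro z hz
    rw [hJc.cthickening_eq_biUnion_closedBall hηp.le] at hz
    obtain ⟨z', hz', hd⟩ := mem_iUnion₂.1 hz
    have h1 : dist z z' ≤ η := hd
    obtain ⟨x, hx, rfl⟩ := hJx z' hz'
    have h2 := (Complex.abs_re_le_norm (z - (ζ1 + x))).trans ((dist_eq_norm _ _).symm.le.trans h1)
    have h3 := (abs_le.1 h2).1
    simp only [Complex.sub_re, Complex.add_re, Complex.ofReal_re] at h3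
    linarith
  obtain ⟨A, hA⟩ : ∃ A : Set ℂ, A = cexp '' Metric.cthickening η J := ⟨_, rfl⟩
  have hAc : IsClosed A := by rw [hA]; exact (hJc.cthickening.image Complex.continuous_exp).isClosed
  obtain ⟨δ, hδ, hloc⟩ := uloc hF h.ext hAc hεp (by
    rintro b hb
    rw [hA] at hb
    obtain ⟨z, hz, rfl⟩ := hb
    rw [Complex.norm_exp, hε]
    exact Real.exp_le_exp.2 (hre z hz)) (by
    intro c hc hcA
    rw [hA] at hcA
    obtain ⟨z, hz, he⟩ := hcA
    have h1 : ε ≤ ‖F c‖ := by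
      rw [← he, Complex.norm_exp, hε]
      exact Real.exp_le_exp.2 (hre z hz)
    have h2 := hη1O (Metric.cthickening_mono (by rw [hη]; exact min_le_left _ _) J hz)
    apply h2
    rw [he, hV]
    exact ⟨c, ⟨hKmem c hc h1, hc, h1⟩, rfl⟩)
  have hloc' : ∀ w0 ζ0, ζ0 ∈ Ω → F w0 = cexp ζ0 → LS F δ w0 ζ0 := by
    intro w0 ζ0 h0 he
    refine hloc w0 ζ0 ?_ he
    rw [he, hA]
    refine ⟨ζ0, ?_, rfl⟩
    rw [hΩ] at h0
    exact Metric.thickening_subset_cthickening _ _ h0
  -- the continuations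
  have hb1 := hball ζ1 hζ1b
  have hcont : ∀ i, ∃ g, Sol F g Ω ∧ g ζ1 = W i (cexp ζ1) := fun i =>
    extend hF hΩo hΩc hδ hloc' (hJΩ hJ1) (hb1.1 i).2
  choose g hg hg1 using hcont
  have hidx : ∀ i, ∃ k : ℤ, G (ζ2 + k * (2 * Real.pi * I)) = g i ζ2 := by
    intro i
    have h1 := (hg i).2 ζ2 (hJΩ hJ2)
    obtain ⟨ζ', hζ', he⟩ := h.fib.surj (g i ζ2) (by rw [re_of_exp h1, Real.exp_lt_exp]; exact hζ2X)
    have h2 : cexp ζ' = cexp ζ2 := by rw [← h.fib.sol.2 ζ' hζ', he, h1]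
    obtain ⟨k, hk⟩ := exp_int h2
    exact ⟨k, by rw [← hk, he]⟩
  choose k hk using hidx
  have hkinj : Function.Injective k := by
    intro i j hij
    by_contra hne
    have h1 : g i ζ2 = g j ζ2 := by rw [← hk i, ← hk j, hij]
    have h2 := Sol.uniq hF hΩo hΩc.isPreconnected (hg i) (hg j) (hJΩ hJ2) h1 (hJΩ hJ1)
    rw [hg1 i, hg1 j] at h2
    exact hb1.2.1 i j hne h2
  refine alg' h hkinj ?_
  -- the relation on Ω
  have hrelΩ : EqOn (fun ζ => MvPolynomial.eval (fun i => g i ζ) P) (fun _ => 0) Ω := by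
    have h1 : DifferentiableOn ℂ (fun ζ => MvPolynomial.eval (fun i => g i ζ) P) Ω :=
      dpoly P fun i => (hg i).1
    refine (h1.analyticOnNhd hΩo).eqOn_of_preconnected_of_eventuallyEq (g := fun _ => 0)
      (fun z _ => analyticAt_const) hΩc.isPreconnected (hJΩ hJ1) ?_
    have h2 : ∀ i, EqOn (g i) (fun ζ => W i (cexp ζ)) (Ω ∩ ball ζa η0) := by
      intro i
      refine Sol.uniq hF (hΩo.inter isOpen_ball) (hΩc.inter (convex_ball _ _)).isPreconnected
        ((hg i).mono inter_subset_left) ⟨?_, ?_⟩ ⟨hJΩ hJ1, hζ1b⟩ (hg1 i)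
      · intro z hz
        have h3 := ((hball z hz.2).1 i).1.differentiableAt
        exact (h3.comp z (Complex.differentiable_exp z)).differentiableWithinAt
      · intro z hz
        exact ((hball z hz.2).1 i).2
    filter_upwards [(hΩo.inter isOpen_ball).mem_nhds ⟨hJΩ hJ1, hζ1b⟩] with z hz
    have h4 : (fun i => g i z) = fun i => W i (cexp z) := funext fun i => h2 i hz
    simp only [h4]
    exact (hball z hz.2).2.2
  -- the relation on the half plane
  have hfin : EqOn (fun ζ => MvPolynomial.eval (fun i => G (ζ + k i * (2 * Real.pi * I))) P) (fun _ => 0) (HP X) := by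
    have h1 : DifferentiableOn ℂ (fun ζ => MvPolynomial.eval (fun i => G (ζ + k i * (2 * Real.pi * I))) P) (HP X) :=
      dpoly P (y := fun i ζ => G (ζ + k i * (2 * Real.pi * I))) fun i => shift_diff h (k i)
    refine (h1.analyticOnNhd (HP_open X)).eqOn_of_preconnected_of_eventuallyEq (g := fun _ => 0)
      (fun z _ => analyticAt_const) (HP_convex X).isPreconnected hζ2X ?_
    have h2 : ∀ i, EqOn (fun ζ => G (ζ + k i * (2 * Real.pi * I))) (g i) (Ω ∩ HP X) := by
      intro i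
      exact Sol.uniq hF (hΩo.inter (HP_open X)) (hΩc.inter (HP_convex X)).isPreconnected
        ((h.fib.sol.shift (k i) fun ζ hζ => HP_shift hζ (k i)).mono inter_subset_right)
        ((hg i).mono inter_subset_left) ⟨hJΩ hJ2, hζ2X⟩ (hk i)
    filter_upwards [(hΩo.inter (HP_open X)).mem_nhds ⟨hJΩ hJ2, hζ2X⟩] with z hz
    have h4 : (fun i => G (z + k i * (2 * Real.pi * I))) = fun i => g i z := funext fun i => h2 i hz
    simp only [h4]
    exact hrelΩ hz.1
  exact fun ζ hζ => hfin hζ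

/-- the tuples with a given relation are countable -/
theorem tuples_countable (h : Core F X G) {n : ℕ} {P : MvPolynomial (Fin n) ℂ} (hP : P ≠ 0) :
    {w : Fin n → ℂ | Function.Injective w ∧ (∃ a ∉ CV F, ∀ i, F (w i) = a) ∧ MvPolynomial.eval w P = 0}.Countable := by
  obtain ⟨T, hT⟩ : ∃ T, T = {w : Fin n → ℂ | Function.Injective w ∧ (∃ a ∉ CV F, ∀ i, F (w i) = a) ∧
    MvPolynomial.eval w P = 0} := ⟨_, rfl⟩
  rw [← hT]
  have hiso : ∀ w ∈ T, ∃ U ∈ 𝓝 w, U ∩ T ⊆ {w} := by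
    intro w hw
    rw [hT] at hw
    obtain ⟨hinj, ⟨a, ha, hFa⟩, hPw⟩ := hw
    have ha0 : a ≠ 0 := fun h0 => ha (Or.inl h0)
    rcases Nat.eq_zero_or_pos n with hn | hn
    · subst hn
      exact ⟨univ, univ_mem, fun w' _ => Subsingleton.elim _ _⟩
    have hdi : ∀ i, deriv F (w i) ≠ 0 := fun i h0 => ha (Or.inr ⟨w i, h0, hFa i⟩)
    have hex : ∀ i, ∃ φ : ℂ → ℂ, AnalyticAt ℂ φ a ∧ (∀ᶠ x in 𝓝 (w i), φ (F x) = x) ∧ (∀ᶠ y in 𝓝 a, F (φ y) = y) := by
      intro i
      have := loc_inj (h.diff.analyticAt (w i)) (hdi i)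
      rwa [hFa i] at this
    choose W hW1 hW2 hW3 using hex
    have hWa : ∀ i, W i a = w i := fun i => by
      have := (hW2 i).self_of_nhds
      rwa [hFa i] at this
    have han : AnalyticAt ℂ (fun b => MvPolynomial.eval (fun i => W i b) P) a := by
      have hev : ∀ᶠ b in 𝓝 a, ∀ i, AnalyticAt ℂ (W i) b := eventually_all.2 fun i => (hW1 i).eventually_analyticAt
      obtain ⟨r, hr, hr1⟩ := Metric.eventually_nhds_iff_ball.1 hev
      have h1 : DifferentiableOn ℂ (fun b => MvPolynomial.eval (fun i => W i b) P) (ball a r) :=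
        dpoly P fun i b hb => (hr1 b hb i).differentiableAt.differentiableWithinAt
      exact h1.analyticAt (isOpen_ball.mem_nhds (mem_ball_self hr))
    rcases han.eventually_eq_zero_or_eventually_ne_zero with h1 | h1
    · exact absurd (local_rel h ha0 hW1 hW3 (by
        have : (fun i => W i a) = w := funext hWa
        rw [this]
        exact hinj) h1) hP
    · rw [eventually_nhdsWithin_iff] at h1
      have h2 : ∀ᶠ w' in 𝓝 w, ∀ i, W i (F (w' i)) = w' i :=
        eventually_all.2 fun i => (continuous_apply i).continuousAt.eventually (hW2 i)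
      obtain ⟨i0⟩ : Nonempty (Fin n) := ⟨⟨0, hn⟩⟩
      have h3 : Tendsto (fun w' : Fin n → ℂ => F (w' i0)) (𝓝 w) (𝓝 a) := by
        have : Continuous fun w' : Fin n → ℂ => F (w' i0) := h.diff.continuous.comp (continuous_apply i0)
        have h4 := this.tendsto w
        rwa [hFa i0] at h4
      refine ⟨_, h2.and (h3.eventually h1), ?_⟩
      rintro w' ⟨⟨g1, g2⟩, hw'⟩
      rw [hT] at hw'
      obtain ⟨-, ⟨b, -, hFb⟩, hPb⟩ := hw'
      have h5 : (fun i => W i b) = w' := funext fun i => by rw [← hFb i, g1 i]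
      have h6 : b = a := by
        by_contra hne
        have h7 := g2 (by rw [hFb i0]; exact hne)
        rw [hFb i0] at h7
        rw [h5] at h7
        exact h7 hPb
      rw [mem_singleton_iff, ← h5, h6]
      exact funext hWa
  choose! U hU hUT using hiso
  obtain ⟨t, htT, htc, hcov⟩ := TopologicalSpace.countable_cover_nhdsWithin (f := U) (s := T)
    fun x hx => mem_nhdsWithin_of_mem_nhds (hU x hx)
  refine htc.mono fun w hw => ?_
  obtain ⟨x, hx, hwx⟩ := mem_iUnion₂.1 (hcov hw)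
  have := hUT x (htT hx) ⟨hwx, hw⟩
  rw [mem_singleton_iff] at this
  rw [this]
  exact hx

/-- **Generic values.** For all `a` outside a countable set the points with `F = a` are algebraically independent. -/
theorem gen (hD : Dat F) (K : Subfield ℂ) [Countable K] :
    {a : ℂ | ¬ ∀ (n : ℕ) (w : Fin n → ℂ), Function.Injective w → (∀ i, F (w i) = a) →
      AlgebraicIndependent K w}.Countable := by
  obtain ⟨X, G, h⟩ := core hD
  have hcP : ∀ n : ℕ, Countable (MvPolynomial (Fin n) K) := by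
    intro n
    rw [← Cardinal.mk_le_aleph0_iff]
    refine MvPolynomial.cardinalMk_le_max.trans ?_
    simp
  have hcount : (CV F ∪ ⋃ n : ℕ, ⋃ P : {P : MvPolynomial (Fin n) K // P ≠ 0},
      (fun w : Fin n → ℂ => if hn : 0 < n then F (w ⟨0, hn⟩) else 0) ''
        {w : Fin n → ℂ | Function.Injective w ∧ (∃ a ∉ CV F, ∀ i, F (w i) = a) ∧
          MvPolynomial.eval w (MvPolynomial.map (algebraMap K ℂ) P.1) = 0}).Countable := by
    refine (cv_countable h).union (countable_iUnion fun n => ?_)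
    have := hcP n
    refine countable_iUnion fun P => Set.Countable.image (tuples_countable h ?_) _
    intro h0
    exact P.2 (MvPolynomial.map_injective _ (algebraMap K ℂ).injective (by rw [h0, map_zero]))
  refine hcount.mono ?_
  intro a ha
  by_cases haV : a ∈ CV F
  · exact Or.inl haV
  refine Or.inr ?_
  rw [Set.mem_ofPred_eq] at ha
  push Not at ha
  obtain ⟨n, w, hinj, hFw, hna⟩ := ha
  rw [algebraicIndependent_iff] at hna
  push Not at hna
  obtain ⟨P, hP, hP0⟩ := hna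
  have hev : MvPolynomial.eval w (MvPolynomial.map (algebraMap K ℂ) P) = 0 := by
    rw [MvPolynomial.eval_map, ← MvPolynomial.aeval_def, hP]
  have hn : 0 < n := by
    rcases Nat.eq_zero_or_pos n with hn | hn
    · exfalso
      subst hn
      rw [MvPolynomial.eq_C_of_isEmpty P, MvPolynomial.map_C, MvPolynomial.eval_C] at hev
      apply hP0
      rw [MvPolynomial.eq_C_of_isEmpty P]
      have h1 : MvPolynomial.coeff 0 P = 0 := (algebraMap K ℂ).injective (by rw [hev, map_zero])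
      rw [h1, map_zero]
    · exact hn
  rw [mem_iUnion]
  refine ⟨n, ?_⟩
  rw [mem_iUnion]
  refine ⟨⟨P, hP0⟩, w, ⟨hinj, ⟨a, haV, hFw⟩, hev⟩, ?_⟩
  simp only [hn, dif_pos]
  exact hFw _

end Pool.Agent.Q288.AP
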