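import Pool.Agent.Q288.AP.Gen

set_option autoImplicit false

/-!
# Every noncritical value is taken infinitely often
-/

namespace Pool.Agent.Q288.AP

open Complex Filter Topology Metric Set

variable {F G : ℂ → ℂ} {X : ℝ}

theorem CV_closed (h : Core F X G) : IsClosed (CV F) := by
  have hF := h.diff
  rw [← isOpen_compl_iff, isOpen_iff_mem_nhds]
  intro v hv
  have hv0 : v ≠ 0 := fun h0 => hv (Or.inl h0)
  obtain ⟨ε, hε⟩ : ∃ ε : ℝ, ε = ‖v‖ / 2 := ⟨_, rfl⟩
  have hvn : 0 < ‖v‖ := norm_pos_iff.2 hv0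
  have hεp : 0 < ε := by rw [hε]; linarith
  obtain ⟨δ1, hδ1, hE⟩ := h.ext ε hεp
  obtain ⟨M', hM'⟩ := hE 0
  have hdF : Continuous (deriv F) := hF.contDiff (n := 1) |>.continuous_deriv le_rfl
  have hK : IsCompact (closedBall (0 : ℂ) M' ∩ {c | deriv F c = 0 ∧ ε ≤ ‖F c‖}) := by
    refine (isCompact_closedBall 0 M').inter_right ?_
    exact (isClosed_eq hdF continuous_const).inter (isClosed_le continuous_const hF.continuous.norm)
  have hKmem : ∀ c, deriv F c = 0 → ε ≤ ‖F c‖ → c ∈ closedBall (0 : ℂ) M' := by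
    intro c hc hc2
    rw [mem_closedBall_zero_iff]
    by_contra hcon
    push Not at hcon
    have h7 : F c ≠ 0 := norm_pos_iff.1 (hεp.trans_le hc2)
    obtain ⟨g, hg, hg1, -⟩ := hM' c _ hcon.le hc2 (exists_log h7)
    exact hg.deriv_ne hF isOpen_ball (mem_ball_self hδ1) (by rw [hg1]; exact hc)
  have hVc : IsClosed (F '' (closedBall (0 : ℂ) M' ∩ {c | deriv F c = 0 ∧ ε ≤ ‖F c‖})) :=
    (hK.image hF.continuous).isClosed
  have h1 : ∀ᶠ b in 𝓝 v, b ∉ F '' (closedBall (0 : ℂ) M' ∩ {c | deriv F c = 0 ∧ ε ≤ ‖F c‖}) := by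
    refine hVc.isOpen_compl.mem_nhds ?_
    rintro ⟨c, hc, he⟩
    exact hv (Or.inr ⟨c, hc.2.1, he⟩)
  have h2 : ∀ᶠ b in 𝓝 v, ε < ‖b‖ :=
    (continuous_norm.tendsto v).eventually (lt_mem_nhds (by rw [hε]; linarith))
  filter_upwards [h1, h2] with b hb1 hb2
  rintro (h3 | ⟨c, hc, rfl⟩)
  · rw [h3, norm_zero] at hb2
    linarith
  · exact hb1 ⟨c, ⟨hKmem c hc hb2.le, hc, hb2.le⟩, rfl⟩

/-- a neighbourhood of a compact convex set of logarithms of noncritical values -/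
theorem tube (h : Core F X G) {J : Set ℂ} (hJc : IsCompact J) (hJv : Convex ℝ J) (hJ : ∀ z ∈ J, cexp z ∉ CV F) :
    ∃ Ω : Set ℂ, IsOpen Ω ∧ Convex ℝ Ω ∧ J ⊆ Ω ∧
      ∃ δ : ℝ, 0 < δ ∧ ∀ w0 ζ0, ζ0 ∈ Ω → F w0 = cexp ζ0 → LS F δ w0 ζ0 := by
  have hF := h.diff
  have hO : IsOpen (cexp ⁻¹' (CV F)ᶜ) := (CV_closed h).isOpen_compl.preimage Complex.continuous_exp
  obtain ⟨η, hη, hηO⟩ := hJc.exists_cthickening_subset_open hO (fun z hz => hJ z hz)
  have hcomp : IsCompact (Metric.cthickening η J) := hJc.cthickening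
  have hAcomp : IsCompact (cexp '' Metric.cthickening η J) := hcomp.image Complex.continuous_exp
  obtain ⟨B, hB⟩ := hcomp.exists_bound_of_continuousOn (f := fun z => z) continuousOn_id
  obtain ⟨δ, hδ, hloc⟩ := uloc hF h.ext hAcomp.isClosed (Real.exp_pos (-B)) (by
    rintro b ⟨z, hz, rfl⟩
    rw [Complex.norm_exp]
    have h1 := (Complex.abs_re_le_norm z).trans (hB z hz)
    exact Real.exp_le_exp.2 (abs_le.1 h1).1) (by
    rintro c hc ⟨z, hz, he⟩
    exact hηO hz (Or.inr ⟨c, hc, he.symm⟩))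
  refine ⟨Metric.thickening η J, Metric.isOpen_thickening, hJv.thickening η, Metric.self_subset_thickening hη J,
    δ, hδ, fun w0 ζ0 h0 he => hloc w0 ζ0 ?_ he⟩
  rw [he]
  exact ⟨ζ0, Metric.thickening_subset_cthickening _ _ h0, rfl⟩

/-- a segment from a point to the half plane which avoids a countable set -/
theorem good_seg {Z : Set ℂ} (hZ : Z.Countable) {a : ℂ} (ha : a ∉ Z) (X : ℝ) :
    ∃ b ∈ HP X, ∀ z ∈ segment ℝ a b, z ∉ Z := by
  obtain ⟨R, hR⟩ : ∃ R : ℝ, R = |X| + |a.re| + 1 := ⟨_, rfl⟩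
  have hRa : 0 < R - a.re := by
    rw [hR]
    linarith [le_abs_self a.re, abs_nonneg X]
  have hRX : X < R := by
    rw [hR]
    linarith [le_abs_self X, abs_nonneg a.re]
  have h1 : ((fun z : ℂ => a.im + (z.im - a.im) * (R - a.re) / (z.re - a.re)) '' Z).Countable := hZ.image _
  have h2 : ¬ (univ : Set ℝ) ⊆ (fun z : ℂ => a.im + (z.im - a.im) * (R - a.re) / (z.re - a.re)) '' Z := by
    intro h3
    exact Cardinal.not_countable_real (h1.mono h3)
  rw [Set.not_subset] at h2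
  obtain ⟨y, -, hy⟩ := h2
  refine ⟨(R : ℂ) + y * I, ?_, ?_⟩
  · change X < _
    simpa using hRX
  · intro z hz hzZ
    rw [segment_eq_image'] at hz
    obtain ⟨t, ht, rfl⟩ := hz
    have hre : (a + t • ((R : ℂ) + y * I - a)).re - a.re = t * (R - a.re) := by
      simp
    have him : (a + t • ((R : ℂ) + y * I - a)).im - a.im = t * (y - a.im) := by
      simp
    rcases eq_or_lt_of_le ht.1 with h3 | h3
    · rw [← h3] at hzZ
      apply ha
      simpa using hzZ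
    · apply hy
      refine ⟨_, hzZ, ?_⟩
      simp only
      rw [hre, him]
      field_simp
      ring

theorem inf (h : Core F X G) {a : ℂ} (ha : a ∉ CV F) : {w | F w = a}.Infinite := by
  have hF := h.diff
  have ha0 : a ≠ 0 := fun h0 => ha (Or.inl h0)
  obtain ⟨ζa, hζa⟩ : ∃ ζa, ζa = Complex.log a := ⟨_, rfl⟩
  have hea : cexp ζa = a := by rw [hζa, Complex.exp_log ha0]
  obtain ⟨ζb, hζb, hseg⟩ := good_seg (exp_preimage_countable (cv_countable h)) (a := ζa)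
    (fun h1 => ha (by rw [← hea]; exact h1)) X
  obtain ⟨J, hJ⟩ : ∃ J : Set ℂ, J = segment ℝ ζa ζb := ⟨_, rfl⟩
  have hJc : IsCompact J := by
    rw [hJ, segment_eq_image]
    exact isCompact_Icc.image (by fun_prop)
  have hJv : Convex ℝ J := by rw [hJ]; exact convex_segment _ _
  have hJ1 : ζa ∈ J := by rw [hJ]; exact left_mem_segment _ _ _
  have hJ2 : ζb ∈ J := by rw [hJ]; exact right_mem_segment _ _ _
  obtain ⟨Ω, hΩo, hΩc, hJΩ, δ, hδ, hloc⟩ := tube h hJc hJv (fun z hz => by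
    rw [hJ] at hz
    exact hseg z hz)
  have hsol : ∀ k : ℤ, F (G (ζb + k * (2 * Real.pi * I))) = cexp ζb := by
    intro k
    rw [h.fib.sol.2 _ (HP_shift hζb k)]
    exact Complex.exp_eq_exp_iff_exists_int.2 ⟨k, rfl⟩
  have hcont : ∀ k : ℤ, ∃ g, Sol F g Ω ∧ g ζb = G (ζb + k * (2 * Real.pi * I)) := fun k =>
    extend hF hΩo hΩc hδ hloc (hJΩ hJ2) (hsol k)
  choose g hg hgb using hcont
  refine Set.infinite_of_injective_forall_mem (f := fun k : ℤ => g k ζa) ?_ ?_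
  · intro k l hkl
    have h1 := Sol.uniq hF hΩo hΩc.isPreconnected (hg k) (hg l) (hJΩ hJ1) hkl (hJΩ hJ2)
    rw [hgb, hgb] at h1
    have h2 := h.fib.inj (HP_shift hζb k) (HP_shift hζb l) h1
    have h3 : (k : ℂ) * (2 * Real.pi * I) = l * (2 * Real.pi * I) := add_left_cancel h2
    have h4 : (2 * Real.pi * I : ℂ) ≠ 0 := by simp [Real.pi_ne_zero]
    exact_mod_cast mul_right_cancel₀ h4 h3
  · intro k
    change F (g k ζa) = a
    rw [(hg k).2 ζa (hJΩ hJ1), hea]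

end Pool.Agent.Q288.AP
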