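import Mathlib
import Pool.Agent.Q278.ZA.A

set_option autoImplicit false

/-!
# Decay of `XX` in vertical strips
-/

namespace Pool.Agent.Q288.AP

open Complex Filter Topology Metric Set MeasureTheory
open Pool.Agent.H24R2.JP (XX HH)

theorem norm_Gamma_le {z : ℂ} (hz : 0 < z.re) : ‖Complex.Gamma z‖ ≤ Real.Gamma z.re := by
  rw [Complex.Gamma_eq_integral hz, Real.Gamma_eq_integral hz]
  unfold Complex.GammaIntegral
  refine (norm_integral_le_integral_norm _).trans (le_of_eq ?_)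
  refine setIntegral_congr_fun measurableSet_Ioi (fun t ht => ?_)
  have ht' : (0 : ℝ) < t := ht
  simp only [norm_mul]
  rw [Complex.norm_cpow_eq_rpow_re_of_pos ht', Complex.norm_real, Real.norm_eq_abs,
    abs_of_pos (Real.exp_pos _)]
  simp

theorem Gamma_shift (s : ℂ) (hs : 0 < s.re) (k : ℕ) : ‖Complex.Gamma s‖ * |s.im| ^ k ≤ ‖Complex.Gamma (s + k)‖ := by
  induction k with
  | zero => simp
  | succ k ih =>
    have h1 : s + k ≠ 0 := by
      intro h0
      have := congrArg Complex.re h0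
      simp at this
      have h2 : (0 : ℝ) ≤ k := Nat.cast_nonneg k
      linarith
    have e : s + ((k + 1 : ℕ) : ℂ) = s + k + 1 := by push_cast; ring
    rw [e, Complex.Gamma_add_one _ h1, norm_mul, pow_succ, ← mul_assoc, mul_comm ‖s + k‖]
    have h2 : |s.im| ≤ ‖s + k‖ := by
      have := Complex.abs_im_le_norm (s + k)
      simpa using this
    exact mul_le_mul ih h2 (abs_nonneg _) (norm_nonneg _)

theorem gamma_dec (a b : ℝ) (ha : 0 < a) (k : ℕ) : ∃ M : ℝ, 0 ≤ M ∧ ∀ s : ℂ, a ≤ s.re → s.re ≤ b →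
    ‖Complex.Gamma s‖ * |s.im| ^ k ≤ M := by
  obtain ⟨M, hM⟩ := (isCompact_Icc (a := a + k) (b := b + k)).exists_bound_of_continuousOn
    (f := Real.Gamma) (fun x hx => by
      have hx0 : 0 < x := by
        have : (0 : ℝ) ≤ k := Nat.cast_nonneg k
        linarith [hx.1]
      refine (Real.differentiableAt_Gamma fun m hm => ?_).continuousAt.continuousWithinAt
      have : (0 : ℝ) ≤ m := Nat.cast_nonneg m
      linarith)
  refine ⟨max M 0, le_max_right _ _, fun s h1 h2 => ?_⟩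
  refine (Gamma_shift s (by linarith) k).trans ?_
  have h3 : (s + k).re = s.re + k := by simp
  have h4 : (0 : ℝ) ≤ k := Nat.cast_nonneg k
  refine (norm_Gamma_le (by rw [h3]; linarith)).trans ?_
  rw [h3]
  exact ((le_abs_self _).trans (hM _ ⟨by linarith, by linarith⟩)).trans (le_max_left _ _)

theorem XX_dec1 : ∃ C : ℝ, 0 ≤ C ∧ ∀ z : ℂ, 0 ≤ z.re → z.re ≤ 2 → 1 ≤ z.im → ‖XX z‖ * z.im ≤ C := by
  obtain ⟨h1, K, hK, h2⟩ := Pool.Agent.H24R2.JP.zetaS
  obtain ⟨M, hM0, hM⟩ := gamma_dec (1 / 4) (5 / 4) (by norm_num) 4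
  refine ⟨37 * 16 * M * (5 * K), by positivity, fun z hz0 hz2 hz1 => ?_⟩
  obtain ⟨y, hy⟩ : ∃ y : ℝ, y = z.im := ⟨_, rfl⟩
  obtain ⟨s, hs⟩ : ∃ s : ℂ, s = 1 / 2 + z := ⟨_, rfl⟩
  have hsre : s.re = 1 / 2 + z.re := by rw [hs]; simp
  have hsim : s.im = y := by rw [hs, hy]; simp
  rw [h1 z (by linarith), norm_mul, ← hy]
  rw [← hy] at hz1
  have hzn : ‖z‖ ≤ 2 + y := by
    refine (Complex.norm_le_abs_re_add_abs_im z).trans ?_
    rw [abs_of_nonneg hz0, ← hy, abs_of_nonneg (by linarith)]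
    linarith
  have g1 : ‖riemannZeta (1 / 2 + z)‖ ≤ 5 * K * y := by
    rw [← hs]
    have h3 := h2 s 1 (by rw [hsre]; linarith) (by rw [hsim]; exact hz1) le_rfl
    have e : ∑ m ∈ Finset.Icc (1 : ℕ) 1, (m : ℂ) ^ (-s) = 1 := by simp
    rw [e, Nat.cast_one, Real.one_rpow, mul_one] at h3
    have h4 : ‖riemannZeta s‖ ≤ ‖riemannZeta s - 1‖ + 1 := by
      have := norm_add_le (riemannZeta s - 1) 1
      rwa [sub_add_cancel, norm_one] at this
    have h5 : ‖s‖ ≤ 4 * y := by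
      rw [hs]
      have := norm_add_le (1 / 2 : ℂ) z
      have h6 : ‖(1 / 2 : ℂ)‖ = 1 / 2 := by norm_num
      rw [h6] at this
      linarith
    have h7 : K * ‖s‖ ≤ K * (4 * y) := mul_le_mul_of_nonneg_left h5 (by linarith)
    have h8 : 1 ≤ K * y := by nlinarith
    linarith
  have g2 : ‖HH z‖ * y ^ 2 ≤ 37 * 16 * M := by
    unfold Pool.Agent.H24R2.JP.HH
    rw [norm_mul, ← hs, Complex.Gammaℝ_def, norm_mul]
    have e1 : ‖(Real.pi : ℂ) ^ (-s / 2)‖ ≤ 1 := by
      rw [Complex.norm_cpow_eq_rpow_re_of_pos Real.pi_pos]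
      have e2 : (-s / 2).re = -(s.re / 2) := by
        have : (-s / 2 : ℂ) = ((-1 / 2 : ℝ) : ℂ) * s := by push_cast; ring
        rw [this, Complex.re_ofReal_mul]
        ring
      rw [e2]
      refine Real.rpow_le_one_of_one_le_of_nonpos (by linarith [Real.pi_gt_three]) ?_
      rw [hsre]
      linarith
    have e3 : ‖4 * z ^ 2 - 1‖ ≤ 37 * y ^ 2 := by
      have h3 := norm_sub_le (4 * z ^ 2) 1
      rw [norm_mul, norm_pow, norm_one, Complex.norm_ofNat] at h3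
      have h4 : ‖z‖ ^ 2 ≤ (2 + y) ^ 2 := pow_le_pow_left₀ (norm_nonneg _) hzn 2
      nlinarith
    have hs2re : (s / 2).re = s.re / 2 := by
      have : (s / 2 : ℂ) = ((1 / 2 : ℝ) : ℂ) * s := by push_cast; ring
      rw [this, Complex.re_ofReal_mul]
      ring
    have hs2im : (s / 2).im = y / 2 := by
      have : (s / 2 : ℂ) = ((1 / 2 : ℝ) : ℂ) * s := by push_cast; ring
      rw [this, Complex.im_ofReal_mul, hsim]
      ring
    have e4 := hM (s / 2) (by rw [hs2re, hsre]; linarith) (by rw [hs2re, hsre]; linarith)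
    rw [hs2im, abs_of_nonneg (by linarith)] at e4
    have e5 : ‖Complex.Gamma (s / 2)‖ * y ^ 4 ≤ 16 * M := by
      have : (y / 2) ^ 4 = y ^ 4 / 16 := by ring
      rw [this] at e4
      linarith
    have e6 : 0 ≤ ‖Complex.Gamma (s / 2)‖ := norm_nonneg _
    calc ‖4 * z ^ 2 - 1‖ * (‖(Real.pi : ℂ) ^ (-s / 2)‖ * ‖Complex.Gamma (s / 2)‖) * y ^ 2
        ≤ 37 * y ^ 2 * (1 * ‖Complex.Gamma (s / 2)‖) * y ^ 2 := by
          gcongr
      _ = 37 * (‖Complex.Gamma (s / 2)‖ * y ^ 4) := by ring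
      _ ≤ 37 * (16 * M) := by linarith
      _ = 37 * 16 * M := by ring
  have g3 : 0 ≤ ‖HH z‖ := norm_nonneg _
  calc ‖HH z‖ * ‖riemannZeta (1 / 2 + z)‖ * y ≤ ‖HH z‖ * (5 * K * y) * y := by
        gcongr
    _ = (‖HH z‖ * y ^ 2) * (5 * K) := by ring
    _ ≤ 37 * 16 * M * (5 * K) := mul_le_mul_of_nonneg_right g2 (by linarith)

theorem XX_dec (ε : ℝ) (hε : 0 < ε) : ∃ T : ℝ, ∀ z : ℂ, |z.re| ≤ 2 → T ≤ |z.im| → ‖XX z‖ < ε := by
  obtain ⟨C, hC, h⟩ := XX_dec1
  refine ⟨max 1 ((C + 1) / ε), ?_⟩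
  have main : ∀ z : ℂ, 0 ≤ z.re → z.re ≤ 2 → max 1 ((C + 1) / ε) ≤ z.im → ‖XX z‖ < ε := by
    intro z h1 h2 h3
    have h4 : 1 ≤ z.im := (le_max_left _ _).trans h3
    have h5 : (C + 1) / ε ≤ z.im := (le_max_right _ _).trans h3
    have h6 := h z h1 h2 h4
    rw [div_le_iff₀ hε] at h5
    by_contra hcon
    push Not at hcon
    nlinarith
  have hneg : ∀ z, XX (-z) = XX z := fun z => by
    have h := Pool.Agent.H24R2.JP.b1
    rw [← h.2.1, ← h.2.1, neg_sq]
  have hsym : ∀ z, ‖XX (-((starRingEnd ℂ) z))‖ = ‖XX z‖ := fun z => by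
    rw [Pool.Agent.Q278.ZA.XX_symm, Complex.norm_conj]
  intro z hz hT
  rcases le_total 0 z.re with h1 | h1 <;> rcases le_total 0 z.im with h2 | h2
  · rw [abs_of_nonneg h1] at hz
    rw [abs_of_nonneg h2] at hT
    exact main z h1 hz hT
  · rw [abs_of_nonneg h1] at hz
    rw [abs_of_nonpos h2] at hT
    have h3 := main (-(-((starRingEnd ℂ) z))) (by simpa using h1) (by simpa using hz) (by simpa using hT)
    rwa [hneg, hsym] at h3
  · rw [abs_of_nonpos h1] at hz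
    rw [abs_of_nonneg h2] at hT
    have h3 := main (-((starRingEnd ℂ) z)) (by simpa using h1) (by simpa using hz) (by simpa using hT)
    rwa [hsym] at h3
  · rw [abs_of_nonpos h1] at hz
    rw [abs_of_nonpos h2] at hT
    have h3 := main (-z) (by simpa using h1) (by simpa using hz) (by simpa using hT)
    rwa [hneg] at h3

end Pool.Agent.Q288.AP
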