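import Pool.Agent.Q288.AP.XLow
import Pool.Agent.Q288.AP.XiDec
import Pool.Agent.Q288.AP.Gen
import Pool.Agent.Q288.GI.Zeta

set_option autoImplicit false

/-!
# Riemann's function satisfies `XD`
-/

namespace Pool.Agent.Q288.AP

open Complex Filter Topology Metric Set
open Pool.Agent.H24R2.JP (XX FF)
open Pool.Agent.Q288.GI (XX_even XX_strip sy_zeta growth)
open Pool.Agent.Q278.ZA (XX_diff XX_symm cf_zeta)
open scoped ComplexConjugate

theorem XX_pos (z : ℂ) (hz : 1 / 2 < z.re) : XX z ≠ 0 ∧ 0 < (logDeriv XX z).re := by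
  have h := sy_zeta.re_pos (t := z.im) (u := z.re) (by linarith) fun b hb => by
    have h1 := XX_strip b hb
    have h2 : b.re ^ 2 ≤ (1 / 2) ^ 2 := by
      rw [← sq_abs]
      exact pow_le_pow_left₀ (abs_nonneg _) h1 2
    nlinarith [sq_nonneg (z.im - b.im)]
  rwa [Complex.re_add_im] at h

theorem XX_logd_conj (t : ℝ) : (logDeriv XX (1 + ((-t : ℝ) : ℂ) * I)).re = (logDeriv XX (1 + t * I)).re := by
  have hodd : ∀ z, deriv XX (-z) = -(deriv XX z) := by
    intro z
    have h1 : (fun w => XX (-w)) = XX := by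
      funext w
      exact XX_even w
    have h2 := congrArg (fun f => deriv f z) h1
    simp only [deriv_comp_neg] at h2
    rw [← h2, neg_neg]
  have h1 : ∀ z, deriv XX (conj z) = conj (deriv XX z) := by
    intro z
    have h2 := Pool.Agent.Q288.GI.deriv_symm sy_zeta z
    rw [hodd, neg_inj] at h2
    exact h2
  have h2 : ∀ z, XX (conj z) = conj (XX z) := by
    intro z
    rw [← XX_symm, XX_even]
  have e : (1 + ((-t : ℝ) : ℂ) * I) = conj (1 + t * I : ℂ) := by
    simp
  rw [e, logDeriv_apply, logDeriv_apply, h1, h2, ← map_div₀, Complex.conj_re]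

theorem XX_gr (M : ℝ) : ∃ T : ℝ, ∀ t : ℝ, T ≤ |t| → M ≤ (logDeriv XX (1 + t * I)).re := by
  obtain ⟨T, hT⟩ := growth sy_zeta cf_zeta (β := 1 / 2) (u := 1) (by norm_num) XX_strip (by norm_num) M
  refine ⟨T, fun t ht => ?_⟩
  rcases le_total 0 t with h | h
  · rw [abs_of_nonneg h] at ht
    have := hT t ht
    rwa [Complex.ofReal_one] at this
  · rw [abs_of_nonpos h] at ht
    have := hT (-t) ht
    rw [Complex.ofReal_one, XX_logd_conj] at this
    exact this

theorem FF_neg_sq (y : ℝ) : FF ((-(y ^ 2) : ℝ) : ℂ) = XX (I * y) := by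
  rw [← Pool.Agent.H24R2.JP.b1.2.1 (I * y)]
  congr 1
  push_cast
  rw [mul_pow, Complex.I_sq]
  ring

theorem XX_crit : ∃ c, deriv FF c = 0 ∧ FF c ≠ 0 := by
  have hreal : ∀ y : ℝ, (XX (I * y)).im = 0 := by
    intro y
    have h := XX_symm (I * y)
    have e : -(conj (I * y : ℂ)) = I * y := by simp
    rw [e] at h
    exact Complex.conj_eq_iff_im.1 h.symm
  have hsq : ∀ x : ℝ, 0 ≤ x → FF ((-x : ℝ) : ℂ) = XX (I * (Real.sqrt x : ℝ)) := by
    intro x hx
    rw [← FF_neg_sq, Real.sq_sqrt hx]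
  obtain ⟨T0, hT0, hmany⟩ := Pool.Agent.W803.SD.many
  obtain ⟨A, hA, hcard⟩ := hmany T0 le_rfl
  have hlog : 0 < Real.log T0 := Real.log_pos (by linarith)
  have hne : A.Nonempty := by
    rw [Finset.nonempty_iff_ne_empty]
    intro h0
    rw [h0, Finset.card_empty] at hcard
    have : 0 < 0.012 * T0 * Real.log T0 := by
      have : 0 < T0 := by linarith
      positivity
    simp at hcard
    linarith
  obtain ⟨y, hy⟩ := hne
  obtain ⟨h1, h2, -⟩ := hA y hy
  have h3 : XX (I * y) = 0 := by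
    have := Pool.Agent.W803.SD.hh_zero h1
    rwa [iteratedDeriv_zero] at this
  refine crit_of Pool.Agent.H24R2.JP.b1.1 (fun x hx => by rw [hsq x hx]; exact hreal _)
    (x0 := y ^ 2) (by positivity) (by rw [FF_neg_sq]; exact h3) ⟨1, ?_⟩ ?_
  · have := Pool.Agent.H24R2.JP.b1.2.1 1
    rw [one_pow] at this
    rw [this]
    intro h0
    have := XX_strip 1 h0
    norm_num at this
  · intro ε hε
    obtain ⟨T, hT⟩ := XX_dec ε hε
    refine ⟨T ^ 2, fun x hx => ?_⟩
    have hx0 : 0 ≤ x := (sq_nonneg T).trans hx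
    rw [hsq x hx0]
    refine hT _ (by simp) ?_
    have e : (I * (Real.sqrt x : ℝ) : ℂ).im = Real.sqrt x := by simp
    rw [e, abs_of_nonneg (Real.sqrt_nonneg _)]
    exact Real.le_sqrt_of_sq_le hx

theorem xd : XD XX FF where
  dF := Pool.Agent.H24R2.JP.b1.1
  sq := Pool.Agent.H24R2.JP.b1.2.1
  ne := fun z hz => (XX_pos z hz).1
  low := low_of XX_diff XX_pos XX_gr
  dec := XX_dec
  crit := XX_crit

theorem genXi (K : Subfield ℂ) [Countable K] :
    {a : ℂ | ¬ ∀ (n : ℕ) (w : Fin n → ℂ), Function.Injective w → (∀ i, FF (w i) = a) →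
      AlgebraicIndependent K w}.Countable := gen xd.dat K

end Pool.Agent.Q288.AP
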