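import Pool.Agent.Q288.AP.Inf
import Pool.Agent.Q288.AP.Xi

set_option autoImplicit false

/-!
# Algebra, and solutions with bounded ordinates
-/

namespace Pool.Agent.Q288.AP

open Complex Filter Topology Metric Set

/-- A family is algebraically independent if the algebra it generates contains an algebraically independent family
with the same finite index set. -/
theorem ai_of {K : Type} [Field K] [Algebra K ℂ] {ι : Type} [Finite ι] {u w : ι → ℂ}
    (hw : AlgebraicIndependent K w) (hmem : ∀ i, w i ∈ Algebra.adjoin K (range u)) : AlgebraicIndependent K u := by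
  obtain ⟨B, hB⟩ : ∃ B : Subalgebra K ℂ, B = Algebra.adjoin K (range u) := ⟨_, rfl⟩
  have hu : ∀ i, u i ∈ B := fun i => by
    rw [hB]
    exact Algebra.subset_adjoin (mem_range_self i)
  have hw2 : ∀ i, w i ∈ B := fun i => by rw [hB]; exact hmem i
  obtain ⟨u', hu'⟩ : ∃ u' : ι → B, u' = fun i => ⟨u i, hu i⟩ := ⟨_, rfl⟩
  obtain ⟨w', hw'⟩ : ∃ w' : ι → B, w' = fun i => ⟨w i, hw2 i⟩ := ⟨_, rfl⟩
  have h1 : AlgebraicIndependent K w' := by
    refine AlgebraicIndependent.of_comp B.val ?_
    have e : (B.val ∘ w') = w := by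
      funext i
      rw [hw']
      rfl
    rw [e]
    exact hw
  have htop : Algebra.adjoin K (range u') = ⊤ := by
    have h2 : (Algebra.adjoin K (range u')).map B.val = B := by
      rw [AlgHom.map_adjoin, ← range_comp]
      have e : (B.val ∘ u') = u := by
        funext i
        rw [hu']
        rfl
      rw [e, ← hB]
    rw [eq_top_iff]
    intro x _
    have h3 : (x : ℂ) ∈ (Algebra.adjoin K (range u')).map B.val := by
      rw [h2]
      exact x.2
    obtain ⟨y, hy, hyx⟩ := Subalgebra.mem_map.1 h3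
    have h4 : y = x := Subtype.ext hyx
    rwa [← h4]
  haveI : Algebra.IsAlgebraic (Algebra.adjoin K (range u')) B := by
    refine ⟨fun x => ?_⟩
    have hx : x ∈ Algebra.adjoin K (range u') := by rw [htop]; exact Algebra.mem_top
    exact isAlgebraic_algebraMap (⟨x, hx⟩ : Algebra.adjoin K (range u'))
  have h5 : IsTranscendenceBasis K u' :=
    Algebra.IsAlgebraic.isTranscendenceBasis_of_le_trdeg_of_finite K u' h1.cardinalMk_le_trdeg
  have h6 : AlgebraicIndependent K u' := h5.1
  have h7 := h6.map' (f := B.val) Subtype.val_injective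
  have e : (B.val ∘ u') = u := by
    funext i
    rw [hu']
    rfl
  rwa [e] at h7

/-- adjoining `I` to a countable field -/
theorem adjoin_I (K : Subfield ℂ) [Countable K] : ∃ K' : Subfield ℂ, Countable K' ∧ K ≤ K' ∧ I ∈ K' := by
  refine ⟨Subfield.closure ((K : Set ℂ) ∪ {I}), ?_, fun x hx => Subfield.subset_closure (Or.inl hx),
    Subfield.subset_closure (Or.inr rfl)⟩
  have h1 := Subfield.cardinalMk_closure_le_max ((K : Set ℂ) ∪ {I})
  have h2 : ((K : Set ℂ) ∪ {I}).Countable := (Set.to_countable _).union (Set.countable_singleton _)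
  have h3 : Cardinal.mk ((K : Set ℂ) ∪ {I} : Set ℂ) ≤ Cardinal.aleph0 := (Cardinal.le_aleph0_iff_set_countable).2 h2
  rw [max_eq_right h3] at h1
  exact Cardinal.mk_le_aleph0_iff.1 h1

theorem ai_mono {K K' : Subfield ℂ} (h : K ≤ K') {ι : Type} {u : ι → ℂ} (hu : AlgebraicIndependent K' u) :
    AlgebraicIndependent K u := by
  letI : Algebra K K' := (Subfield.inclusion h).toAlgebra
  haveI : IsScalarTower K K' ℂ := IsScalarTower.of_algebraMap_eq fun x => rfl
  exact hu.restrictScalars (Subfield.inclusion h).injective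

theorem finite_zeros {f : ℂ → ℂ} (hf : Differentiable ℂ f) (hne : ∃ z, f z ≠ 0) {S : Set ℂ} (hS : IsCompact S) :
    (S ∩ {z | f z = 0}).Finite := by
  obtain ⟨x, hx⟩ := hne
  have han : AnalyticOnNhd ℂ f Set.univ := hf.differentiableOn.analyticOnNhd isOpen_univ
  have h1 := han.preimage_zero_mem_codiscrete hx
  have h4 := (mem_codiscrete'.1 h1).2
  have h5 : IsDiscrete (S ∩ {z | f z = 0}) := by
    refine h4.mono ?_
    rintro z ⟨-, hz⟩ h5
    exact h5 hz
  have h6 : IsCompact (S ∩ {z | f z = 0}) :=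
    hS.inter_right (isClosed_eq hf.continuous continuous_const)
  exact h6.finite h5

theorem XD.fin_im {X F : ℂ → ℂ} (h : XD X F) (a : ℂ) (M : ℝ) : {z : ℂ | X z = a ∧ |z.im| ≤ M}.Finite := by
  obtain ⟨L, c, hc, h1, h2, h3, h4⟩ := h.log
  have hX := h.dX
  have heven : ∀ z, X (-z) = X z := fun z => by rw [← h.sq, ← h.sq, neg_sq]
  -- bound on the segment
  obtain ⟨B, hB⟩ := (isCompact_Icc (a := -|M|) (b := |M|)).exists_bound_of_continuousOn
    (f := fun t : ℝ => L (1 + t * I)) (fun t _ => by
      refine ContinuousAt.continuousWithinAt ?_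
      refine ContinuousAt.comp (f := fun t : ℝ => (1 + t * I : ℂ)) (g := L) ?_ (by fun_prop)
      exact (h1 _ (by simp)).continuousAt)
  have hbig : ∀ z : ℂ, 1 < z.re → |z.im| ≤ M → Real.exp (c * (z.re - 1) - B) ≤ ‖X z‖ := by
    intro z hz hz1
    have e0 : z = (1 + z.im * I) + ((z.re - 1 : ℝ) : ℂ) := by
      apply Complex.ext <;> simp
    have hne : z ≠ 1 + z.im * I := by
      intro h0
      have := congrArg Complex.re h0
      simp at this
      linarith
    have h5 := h4 z (1 + z.im * I) hz.le (by simp) hne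
    have e1 : z - (1 + z.im * I) = ((z.re - 1 : ℝ) : ℂ) := by linear_combination e0
    have e2 : (L z - L (1 + z.im * I)) / ((z.re - 1 : ℝ) : ℂ) = (((z.re - 1)⁻¹ : ℝ) : ℂ) * (L z - L (1 + z.im * I)) := by
      rw [Complex.ofReal_inv]
      ring
    have h6 : 0 < z.re - 1 := by linarith
    rw [e1, e2, Complex.re_ofReal_mul, Complex.sub_re, inv_mul_eq_div, le_div_iff₀ h6] at h5
    have h7 := hB z.im (abs_le.1 (hz1.trans (le_abs_self M)))
    have h8 := (abs_le.1 ((Complex.abs_re_le_norm _).trans h7)).1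
    rw [h3 z hz.le, Complex.norm_exp]
    exact Real.exp_le_exp.2 (by linarith)
  obtain ⟨R, hR⟩ : ∃ R : ℝ, R = (‖a‖ + |B|) / c + 1 := ⟨_, rfl⟩
  have hR1 : 1 ≤ R := by
    rw [hR]
    have : 0 ≤ (‖a‖ + |B|) / c := by positivity
    linarith
  have hcR : c * (R - 1) = ‖a‖ + |B| := by
    rw [hR]
    field_simp
    ring
  have hbd : ∀ z : ℂ, 0 ≤ z.re → X z = a → |z.im| ≤ M → z.re ≤ R := by
    intro z hz0 hz hz1
    by_contra hcon
    push Not at hcon
    have h5 := hbig z (by linarith) hz1
    rw [hz] at h5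
    have h6 : ‖a‖ < c * (z.re - 1) - B := by
      have : c * (R - 1) < c * (z.re - 1) := mul_lt_mul_of_pos_left (by linarith) hc
      have := le_abs_self B
      linarith
    have h7 := Real.add_one_le_exp (c * (z.re - 1) - B)
    linarith
  have hbd2 : ∀ z : ℂ, X z = a → |z.im| ≤ M → |z.re| ≤ R := by
    intro z hz hz1
    rcases le_total 0 z.re with h5 | h5
    · rw [abs_of_nonneg h5]
      exact hbd z h5 hz hz1
    · rw [abs_of_nonpos h5]
      have := hbd (-z) (by simpa using h5) (by rw [heven]; exact hz) (by simpa using hz1)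
      simpa using this
  have hne : ∃ z, X z - a ≠ 0 := by
    by_contra hcon
    push Not at hcon
    have h5 := hbd2 ((R + 1 : ℝ) : ℂ)
    have h6 := hbig (((R + 1 : ℝ) : ℂ)) (by simp; linarith)
    rcases le_or_gt 0 M with h7 | h7
    · have h8 := h5 (sub_eq_zero.1 (hcon _)) (by simpa using h7)
      rw [Complex.ofReal_re, abs_of_nonneg (by linarith)] at h8
      linarith
    · -- then use a bound with `M = 0`
      have h9 : ∀ z : ℂ, X z = a := fun z => sub_eq_zero.1 (hcon z)
      have h10 : HasDerivAt X 0 2 := by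
        have : X = fun _ => a := funext h9
        rw [this]
        exact hasDerivAt_const _ _
      have h11 := h2 2 (by norm_num)
      apply h11
      rw [logDeriv_apply, h10.deriv, zero_div]
  refine (finite_zeros (hX.sub_const a) hne (isCompact_closedBall (0 : ℂ) (R + |M|))).subset ?_
  rintro z ⟨hz, hz1⟩
  refine ⟨?_, ?_⟩
  · rw [mem_closedBall_zero_iff]
    refine (Complex.norm_le_abs_re_add_abs_im z).trans ?_
    have := hbd2 z hz hz1
    have := le_abs_self M
    linarith
  · change X z - a = 0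
    rw [hz, sub_self]

end Pool.Agent.Q288.AP
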