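import Pool.Agent.Q288.AP.Fib

set_option autoImplicit false

/-!
# The first critical value and the two branches which meet there
-/

namespace Pool.Agent.Q288.AP

open Complex Filter Topology Metric Set

/-- near a critical point each value is taken twice -/
theorem two_sheets {f : ℂ → ℂ} {c : ℂ} (hf : AnalyticAt ℂ f c) (h0 : deriv f c = 0)
    (hnc : ¬ ∀ᶠ z in 𝓝 c, f z = f c) {ε : ℝ} (hε : 0 < ε) :
    ∀ᶠ w in 𝓝[≠] c, ∃ w' ∈ ball c ε, w' ≠ w ∧ f w' = f w := by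
  have hf1 : AnalyticAt ℂ (fun z => f z - f c) c := hf.sub analyticAt_const
  have h1 : ¬ ∀ᶠ z in 𝓝 c, (fun z => f z - f c) z = 0 := by
    intro h
    apply hnc
    filter_upwards [h] with z hz
    exact sub_eq_zero.1 hz
  obtain ⟨n, g, hg, hg0, hev⟩ := hf1.exists_eventuallyEq_pow_smul_nonzero_iff.2 h1
  have hn0 : n ≠ 0 := by
    rintro rfl
    have := hev.self_of_nhds
    simp at this
    exact hg0 this.symm
  have hn1 : n ≠ 1 := by
    rintro rfl
    have h2 : HasDerivAt (fun z => (z - c) ^ 1 • g z) (g c) c := by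
      have h3 : HasDerivAt (fun z => (z - c) * g z) (1 * g c + (c - c) * deriv g c) c :=
        ((hasDerivAt_id c).sub_const c).mul hg.differentiableAt.hasDerivAt
      simpa using h3
    have h4 : HasDerivAt (fun z => f z - f c) (g c) c := h2.congr_of_eventuallyEq hev
    have h5 : HasDerivAt (fun z => f z - f c) (deriv f c) c := hf.differentiableAt.hasDerivAt.sub_const _
    exact hg0 (by rw [← h4.unique h5] at h0; exact h0)
  have hn2 : 1 < n := by omega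
  obtain ⟨a, ha⟩ : ∃ a : ℂ, a = (g c) ^ ((n : ℂ)⁻¹) := ⟨_, rfl⟩
  have han : a ^ n = g c := by rw [ha]; exact Complex.cpow_nat_inv_pow _ hn0
  have ha0 : a ≠ 0 := by
    intro h
    rw [h, zero_pow hn0] at han
    exact hg0 han.symm
  obtain ⟨ρ, hρ⟩ : ∃ ρ : ℂ → ℂ, ρ = fun z => (g z / g c) ^ ((n : ℂ)⁻¹) := ⟨_, rfl⟩
  have hρa : AnalyticAt ℂ ρ c := by
    rw [hρ]
    refine (hg.div analyticAt_const hg0).cpow analyticAt_const ?_
    change g c / g c ∈ slitPlane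
    rw [div_self hg0]
    exact Complex.one_mem_slitPlane
  have hρ1 : ρ c = 1 := by rw [hρ]; simp only; rw [div_self hg0, Complex.one_cpow]
  obtain ⟨ψ, hψ⟩ : ∃ ψ : ℂ → ℂ, ψ = fun z => (z - c) * (a * ρ z) := ⟨_, rfl⟩
  have hψa : AnalyticAt ℂ ψ c := by
    rw [hψ]
    exact (analyticAt_id.sub analyticAt_const).mul (analyticAt_const.mul hρa)
  have hψ0 : ψ c = 0 := by rw [hψ]; simp
  have hψd : deriv ψ c ≠ 0 := by
    have h3 : HasDerivAt ψ (1 * (a * ρ c) + (c - c) * deriv (fun z => a * ρ z) c) c := by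
      rw [hψ]
      exact ((hasDerivAt_id c).sub_const c).mul (analyticAt_const.mul hρa).differentiableAt.hasDerivAt
    rw [h3.deriv, hρ1]
    simpa using ha0
  have hψn : ∀ᶠ z in 𝓝 c, f z - f c = ψ z ^ n := by
    filter_upwards [hev] with z hz
    rw [hz, hψ, hρ]
    simp only
    rw [mul_pow, mul_pow, han, Complex.cpow_nat_inv_pow _ hn0, smul_eq_mul]
    field_simp
  obtain ⟨φ, hφ1, hφ2, hφ3⟩ := loc_inj hψa hψd
  rw [hψ0] at hφ1 hφ3
  have hφ0 : φ 0 = c := by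
    have := hφ2.self_of_nhds
    rwa [hψ0] at this
  have hprim := Complex.isPrimitiveRoot_exp n hn0
  obtain ⟨ω, hω⟩ : ∃ ω : ℂ, ω = cexp (2 * Real.pi * I / n) := ⟨_, rfl⟩
  rw [← hω] at hprim
  have hω1 : ω ≠ 1 := hprim.ne_one hn2
  have hωn : ω ^ n = 1 := hprim.pow_eq_one
  -- the second point
  have hc1 : ContinuousAt (fun w => ω * ψ w) c := continuousAt_const.mul hψa.continuousAt
  have hc1' : Tendsto (fun w => ω * ψ w) (𝓝 c) (𝓝 0) := by
    have := hc1.tendsto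
    rwa [hψ0, mul_zero] at this
  have hc2 : Tendsto (fun w => φ (ω * ψ w)) (𝓝 c) (𝓝 c) := by
    have h4 : Tendsto φ (𝓝 0) (𝓝 c) := by
      have := hφ1.continuousAt.tendsto
      rwa [hφ0] at this
    exact h4.comp hc1'
  have e1 : ∀ᶠ w in 𝓝 c, φ (ω * ψ w) ∈ ball c ε := hc2.eventually (isOpen_ball.mem_nhds (mem_ball_self hε))
  have e2 : ∀ᶠ w in 𝓝 c, ψ (φ (ω * ψ w)) = ω * ψ w := hc1'.eventually hφ3
  have e3 : ∀ᶠ w in 𝓝 c, f (φ (ω * ψ w)) - f c = ψ (φ (ω * ψ w)) ^ n := hc2.eventually hψn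
  rw [eventually_nhdsWithin_iff]
  filter_upwards [e1, e2, e3, hψn, hφ2] with w g1 g2 g3 g4 g5 hwc
  refine ⟨φ (ω * ψ w), g1, ?_, ?_⟩
  · intro h
    rw [h] at g2
    have h6 : (ω - 1) * ψ w = 0 := by linear_combination -g2
    have h7 : ψ w = 0 := (mul_eq_zero.1 h6).resolve_left (sub_ne_zero.2 hω1)
    rw [h7, hφ0] at g5
    exact hwc g5.symm
  · rw [g2, mul_pow, hωn, one_mul, ← g4] at g3
    linear_combination g3

theorem exp_inj_near {a b : ℂ} (h : cexp a = cexp b) (hn : ‖a - b‖ < 2 * Real.pi) : a = b := by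
  obtain ⟨n, hn'⟩ := exp_int h
  have h1 : a - b = n * (2 * Real.pi * I) := by rw [hn']; ring
  have hpi := Real.pi_pos
  rw [h1, norm_mul, norm_mul, norm_mul, Complex.norm_I, Complex.norm_ofNat, Complex.norm_real,
    Real.norm_of_nonneg hpi.le, Complex.norm_intCast] at hn
  have h2 : |(n : ℝ)| < 1 := by
    by_contra hcon
    push Not at hcon
    nlinarith
  have h3 : n = 0 := by
    have h4 : |n| < 1 := by exact_mod_cast h2
    exact Int.abs_lt_one_iff.1 h4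
  rw [hn', h3]
  simp

/-- a local logarithm -/
theorem loglem {F : ℂ → ℂ} (hF : Differentiable ℂ F) {c p : ℂ} (hp : F c = cexp p) :
    ∃ L : ℂ → ℂ, AnalyticAt ℂ L c ∧ L c = p ∧ (∀ᶠ t in 𝓝 c, cexp (L t) = F t) ∧
      (deriv F c = 0 → deriv L c = 0) := by
  have h0 : F c ≠ 0 := by rw [hp]; exact Complex.exp_ne_zero _
  have h1 : F c / F c ∈ slitPlane := by rw [div_self h0]; exact Complex.one_mem_slitPlane
  have hFa := hF.analyticAt c
  have h2 : AnalyticAt ℂ (fun t => F t / F c) c := hFa.div analyticAt_const h0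
  refine ⟨fun t => p + Complex.log (F t / F c), analyticAt_const.add (h2.clog h1), ?_, ?_, ?_⟩
  · simp [div_self h0]
  · have h3 : ∀ᶠ t in 𝓝 c, F t ≠ 0 := hF.continuous.continuousAt.eventually_ne h0
    filter_upwards [h3] with t ht
    rw [Complex.exp_add, Complex.exp_log (div_ne_zero ht h0), ← hp]
    field_simp
  · intro hd
    have h4 : HasDerivAt (fun t => F t / F c) (0 / F c) c := by
      rw [← hd]
      exact (hF c).hasDerivAt.div_const _
    have h5 := (h4.clog h1).const_add p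
    rw [h5.deriv]
    simp

/-- regular points -/
def Reg (G : ℂ → ℂ) (X : ℝ) (p : ℂ) : Prop :=
  ∃ ρ : ℝ, 0 < ρ ∧ ∃ g : ℂ → ℂ, DifferentiableOn ℂ g (ball p ρ) ∧ ∀ ζ ∈ ball p ρ, ζ ∈ HP X → g ζ = G ζ

variable {F G : ℂ → ℂ} {X : ℝ}

theorem not_reg (h : Core F X G) {p c : ℂ} (hp : p.re = X) (hc : deriv F c = 0)
    (hcl : ∀ ε : ℝ, 0 < ε → ∃ ζ ∈ HP X, ‖ζ - p‖ < ε ∧ ‖G ζ - c‖ < ε) : ¬ Reg G X p := by
  rintro ⟨ρ, hρ, g, hg, hgG⟩
  have hpb : p ∈ ball p ρ := mem_ball_self hρ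
  have hgc : ContinuousAt g p := (hg.differentiableAt (isOpen_ball.mem_nhds hpb)).continuousAt
  have hgp : g p = c := by
    rw [← sub_eq_zero, ← norm_le_zero_iff]
    refine le_of_forall_pos_lt_add fun ε hε => ?_
    rw [zero_add]
    obtain ⟨η, hη, hη2⟩ := Metric.continuousAt_iff.1 hgc (ε / 2) (by positivity)
    obtain ⟨ζ, hζ, h1, h2⟩ := hcl (min (min η ρ) (ε / 2)) (by positivity)
    have h3 : dist ζ p < η := by
      rw [dist_eq_norm]
      exact h1.trans_le ((min_le_left _ _).trans (min_le_left _ _))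
    have h4 := hη2 h3
    have h5 : ζ ∈ ball p ρ := by
      rw [mem_ball_iff_norm]
      exact h1.trans_le ((min_le_left _ _).trans (min_le_right _ _))
    rw [hgG ζ h5 hζ, dist_eq_norm] at h4
    have h6 : ‖G ζ - c‖ < ε / 2 := h2.trans_le (min_le_right _ _)
    calc ‖g p - c‖ = ‖(G ζ - c) - (G ζ - g p)‖ := by ring_nf
      _ ≤ ‖G ζ - c‖ + ‖G ζ - g p‖ := norm_sub_le _ _
      _ < ε := by linarith
  have hsol : Sol F g (ball p ρ) := by
    refine ⟨hg, ?_⟩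
    have hq : p + ((ρ / 2 : ℝ) : ℂ) ∈ ball p ρ ∩ HP X := by
      refine ⟨?_, ?_⟩
      · rw [mem_ball_iff_norm, add_sub_cancel_left, Complex.norm_real, Real.norm_of_nonneg (by positivity)]
        linarith
      · change X < (p + ((ρ / 2 : ℝ) : ℂ)).re
        rw [Complex.add_re, Complex.ofReal_re, hp]
        linarith
    have h7 : AnalyticOnNhd ℂ (fun ζ => F (g ζ)) (ball p ρ) :=
      (h.diff.comp_differentiableOn hg).analyticOnNhd isOpen_ball
    have h8 : AnalyticOnNhd ℂ cexp (ball p ρ) := fun z _ => analyticAt_cexp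
    refine h7.eqOn_of_preconnected_of_eventuallyEq h8 (convex_ball p ρ).isPreconnected hq.1 ?_
    filter_upwards [(isOpen_ball.inter (HP_open X)).mem_nhds hq] with z hz
    rw [hgG z hz.1 hz.2, h.fib.sol.2 z hz.2]
  exact hsol.deriv_ne h.diff isOpen_ball hpb (by rw [hgp]; exact hc)

theorem reg_of_ls (h : Core F X G) {p ζ' : ℂ} {δ : ℝ} (hδ : 0 < δ) (hζ' : ζ' ∈ HP X) (hd : ‖ζ' - p‖ < δ / 2)
    (hls : LS F δ (G ζ') ζ') : Reg G X p := by
  obtain ⟨g, hg, hg1⟩ := hls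
  have hsub : ball p (δ / 2) ⊆ ball ζ' δ := by
    intro z hz
    rw [mem_ball_iff_norm] at hz ⊢
    calc ‖z - ζ'‖ = ‖(z - p) - (ζ' - p)‖ := by ring_nf
      _ ≤ ‖z - p‖ + ‖ζ' - p‖ := norm_sub_le _ _
      _ < δ := by linarith
  refine ⟨δ / 2, by positivity, g, hg.1.mono hsub, fun ζ hζ hζX => ?_⟩
  exact Sol.uniq h.diff (isOpen_ball.inter (HP_open X)) ((convex_ball ζ' δ).inter (HP_convex X)).isPreconnected
    (hg.mono inter_subset_left) (h.fib.sol.mono inter_subset_right) (ζ0 := ζ') ⟨mem_ball_self hδ, hζ'⟩ hg1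
    ⟨hsub hζ, hζX⟩

theorem far_reg (h : Core F X G) : ∃ Y : ℝ, ∀ p : ℂ, p.re = X → Y ≤ |p.im| → Reg G X p := by
  obtain ⟨δ, hδ, hE⟩ := h.ext (Real.exp X) (Real.exp_pos X)
  obtain ⟨M', hM'⟩ := hE 0
  obtain ⟨Y, hY⟩ := h.far M' (X + 1)
  refine ⟨Y, fun p hp hpY => ?_⟩
  obtain ⟨η, hη⟩ : ∃ η : ℝ, η = min (δ / 2) 1 / 2 := ⟨_, rfl⟩
  have hη0 : 0 < η := by rw [hη]; positivity
  have hm : 0 < min (δ / 2) 1 := by positivity
  have hη1 : η < δ / 2 := by
    have : min (δ / 2) 1 ≤ δ / 2 := min_le_left _ _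
    rw [hη]; linarith
  have hη2 : η ≤ 1 := by
    have : min (δ / 2) 1 ≤ 1 := min_le_right _ _
    rw [hη]; linarith
  obtain ⟨ζ', hζ'⟩ : ∃ ζ' : ℂ, ζ' = p + (η : ℂ) := ⟨_, rfl⟩
  have h1 : ζ'.re = X + η := by rw [hζ']; simp [hp]
  have h2 : ζ'.im = p.im := by rw [hζ']; simp
  have h3 : ζ' ∈ HP X := by change X < ζ'.re; linarith
  have h4 : M' ≤ ‖G ζ'‖ := hY ζ' h3 (by linarith) (by rw [h2]; exact hpY)
  have h5 := h.fib.sol.2 ζ' h3
  obtain ⟨g, hg, hg1, -⟩ := hM' (G ζ') ζ' h4 (by rw [re_of_exp h5]; exact (Real.exp_lt_exp.2 h3).le) h5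
  refine reg_of_ls h hδ h3 ?_ ⟨g, hg, hg1⟩
  rw [hζ', add_sub_cancel_left, Complex.norm_real, Real.norm_of_nonneg hη0.le]
  exact hη1

theorem min_pos {S : Finset ℤ} {e : ℤ → ℝ} (he : ∀ k ∈ S, 0 < e k) : ∃ ε : ℝ, 0 < ε ∧ ∀ k ∈ S, ε ≤ e k := by
  classical
  induction S using Finset.induction_on with
  | empty => exact ⟨1, one_pos, fun k hk => absurd hk (Finset.notMem_empty k)⟩
  | insert a S ha ih =>
    obtain ⟨ε, hε, h1⟩ := ih fun k hk => he k (Finset.mem_insert_of_mem hk)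
    refine ⟨min ε (e a), lt_min hε (he a (Finset.mem_insert_self a S)), fun k hk => ?_⟩
    rcases Finset.mem_insert.1 hk with rfl | hk
    · exact min_le_right _ _
    · exact (min_le_left _ _).trans (h1 k hk)

theorem pigeon {Q : ℝ → ℤ → Prop} (hm : ∀ ε ε' k, ε ≤ ε' → Q ε k → Q ε' k) {S : Finset ℤ}
    (h : ∀ ε : ℝ, 0 < ε → ∃ k ∈ S, Q ε k) : ∃ k ∈ S, ∀ ε : ℝ, 0 < ε → Q ε k := by
  by_contra hcon
  push Not at hcon
  choose! e he1 he2 using hcon
  obtain ⟨ε, hε, h1⟩ := min_pos he1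
  obtain ⟨k, hk, hq⟩ := h ε hε
  exact he2 k hk (hm ε (e k) k (h1 k hk) hq)

theorem nonconst (h : Core F X G) (c : ℂ) : ¬ ∀ᶠ z in 𝓝 c, F z = F c := by
  intro hev
  have h1 : EqOn F (fun _ => F c) univ :=
    (h.diff.differentiableOn.analyticOnNhd isOpen_univ).eqOn_of_preconnected_of_eventuallyEq
      (g := fun _ => F c) (fun z _ => analyticAt_const) isPreconnected_univ (mem_univ c) hev
  have h2 : ∀ t : ℝ, X < t → Real.exp t = ‖F c‖ := by
    intro t ht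
    have h3 : (t : ℂ) ∈ HP X := by change X < (t : ℂ).re; simpa using ht
    have h4 := re_of_exp (h.fib.sol.2 _ h3)
    rw [Complex.ofReal_re] at h4
    rw [← h4, h1 (mem_univ _)]
  have h5 := (h2 (X + 1) (by linarith)).trans (h2 (X + 2) (by linarith)).symm
  have h6 := Real.exp_injective h5
  linarith

theorem open_near (h : Core F X G) (c : ℂ) {p : ℂ} (hp : F c = cexp p) {ε : ℝ} (hε : 0 < ε) :
    ∃ t : ℝ, 0 < t ∧ t < ε ∧ ∃ w ∈ ball c ε, F w = cexp (p + t) := by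
  have h1 := ((h.diff.analyticAt c).eventually_constant_or_nhds_le_map_nhds).resolve_left (nonconst h c)
  have h2 : F '' ball c ε ∈ 𝓝 (F c) := h1 (image_mem_map (isOpen_ball.mem_nhds (mem_ball_self hε)))
  have h3 : Tendsto (fun t : ℝ => cexp (p + t)) (𝓝[>] 0) (𝓝 (F c)) := by
    have h4 : Continuous fun t : ℝ => cexp (p + t) := by fun_prop
    have h5 := (h4.tendsto 0).mono_left (nhdsWithin_le_nhds (s := Ioi (0 : ℝ)))
    rw [Complex.ofReal_zero, add_zero, ← hp] at h5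
    exact h5
  have h6 : ∀ᶠ t : ℝ in 𝓝[>] 0, t < ε := by
    filter_upwards [Ioo_mem_nhdsGT hε] with t ht using ht.2
  have h7 : ∀ᶠ t : ℝ in 𝓝[>] 0, 0 < t := self_mem_nhdsWithin
  obtain ⟨t, ht1, ht2, ht3⟩ := ((h3.eventually h2).and (h6.and h7)).exists
  obtain ⟨w, hw, he⟩ := ht1
  exact ⟨t, ht3, ht2, w, hw, he⟩

/-- boundedness of the index -/
theorem idx_bdd (h : Core F X G) (c p : ℂ) : ∃ N : ℤ, ∀ (k : ℤ) (ζ : ℂ), ζ ∈ HP X → ‖ζ - p‖ < 1 → p.re = X →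
    ‖G (ζ + k * (2 * Real.pi * I)) - c‖ < 1 → k ∈ Finset.Icc (-N) N := by
  obtain ⟨Y, hY⟩ := h.far (‖c‖ + 1) (X + 1)
  obtain ⟨N, hN⟩ := exists_nat_gt (|Y| + |p.im| + 1)
  refine ⟨N, fun k ζ hζ h1 hp h2 => ?_⟩
  have h3 := HP_shift hζ k
  have h4 : (ζ + k * (2 * Real.pi * I)).re ≤ X + 1 := by
    rw [re_shift]
    have := (Complex.abs_re_le_norm _).trans_lt h1
    rw [Complex.sub_re, hp] at this
    have := (abs_lt.1 this).2
    linarith
  have h5 : ‖G (ζ + k * (2 * Real.pi * I))‖ < ‖c‖ + 1 := by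
    have := norm_sub_norm_le (G (ζ + k * (2 * Real.pi * I))) c
    linarith
  have h6 : |(ζ + k * (2 * Real.pi * I)).im| < Y := by
    by_contra hcon
    push Not at hcon
    exact absurd (hY _ h3 h4 hcon) (not_le.2 h5)
  have h7 : (ζ + k * (2 * Real.pi * I)).im = ζ.im + k * (2 * Real.pi) := by simp
  rw [h7] at h6
  have h8 : |ζ.im - p.im| < 1 := by
    have := (Complex.abs_im_le_norm _).trans_lt h1
    rwa [Complex.sub_im] at this
  have hpi := Real.pi_gt_three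
  have h9 : |(k : ℝ)| * (2 * Real.pi) < |Y| + |p.im| + 1 := by
    have g1 : |(k : ℝ) * (2 * Real.pi)| ≤ |ζ.im + k * (2 * Real.pi)| + |ζ.im - p.im| + |p.im| := by
      calc |(k : ℝ) * (2 * Real.pi)| = |(ζ.im + k * (2 * Real.pi)) - (ζ.im - p.im) - p.im| := by ring_nf
        _ ≤ |(ζ.im + k * (2 * Real.pi)) - (ζ.im - p.im)| + |p.im| := abs_sub _ _
        _ ≤ |ζ.im + k * (2 * Real.pi)| + |ζ.im - p.im| + |p.im| := by
          gcongr
          exact abs_sub _ _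
    rw [abs_mul, abs_of_pos (show (0 : ℝ) < 2 * Real.pi by positivity)] at g1
    have g2 := le_abs_self Y
    linarith
  have h10 : |(k : ℝ)| < N := by nlinarith [abs_nonneg (k : ℝ)]
  rw [Finset.mem_Icc]
  have h11 : |k| < (N : ℤ) := by exact_mod_cast h10
  have h12 := abs_lt.1 h11
  constructor <;> linarith [h12.1, h12.2]

/-- **The leftmost singular point.** -/
theorem sing (h : Core F X G) : ∃ (c p : ℂ) (κ : ℕ), 0 < κ ∧ p.re = X ∧ F c = cexp p ∧
    (∀ l : ℕ, 0 < l → Reg G X (p + (-(l : ℤ) : ℤ) * (2 * Real.pi * I))) ∧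
    ∀ ε : ℝ, 0 < ε → ∃ ζ ∈ HP X, ‖ζ - p‖ < ε ∧ ‖G ζ - c‖ < ε ∧ ‖G (ζ + (κ : ℤ) * (2 * Real.pi * I)) - c‖ < ε := by
  classical
  obtain ⟨c0, hc0, hc0X⟩ := h.crit
  have hFc0 : F c0 ≠ 0 := norm_pos_iff.1 (by rw [hc0X]; exact Real.exp_pos X)
  obtain ⟨p0, hp0⟩ : ∃ p0, p0 = Complex.log (F c0) := ⟨_, rfl⟩
  have he0 : F c0 = cexp p0 := by rw [hp0]; exact exists_log hFc0
  have hre0 : p0.re = X := by
    have := re_of_exp he0
    rw [hc0X] at this
    exact (Real.exp_injective this).symm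
  -- a singular index
  obtain ⟨N0, hN0⟩ := idx_bdd h c0 p0
  have hs1 : ∃ k ∈ Finset.Icc (-N0) N0, ∀ ε : ℝ, 0 < ε → ∃ ζ ∈ HP X, ‖ζ - p0‖ < ε ∧
      ‖G (ζ + k * (2 * Real.pi * I)) - c0‖ < ε := by
    refine pigeon (Q := fun ε k => ∃ ζ ∈ HP X, ‖ζ - p0‖ < ε ∧ ‖G (ζ + k * (2 * Real.pi * I)) - c0‖ < ε) ?_ ?_
    · rintro ε ε' k hεε ⟨ζ, h1, h2, h3⟩
      exact ⟨ζ, h1, h2.trans_le hεε, h3.trans_le hεε⟩
    · intro ε hε
      obtain ⟨t, ht0, ht1, w, hw, hFw⟩ := open_near h c0 he0 (ε := min ε 1) (by positivity)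
      obtain ⟨ζ', hζ', hGζ'⟩ := h.fib.surj w (by
        rw [re_of_exp hFw, Complex.add_re, hre0, Complex.ofReal_re, Real.exp_lt_exp]
        linarith)
      have h1 : cexp ζ' = cexp (p0 + t) := by rw [← h.fib.sol.2 ζ' hζ', hGζ', hFw]
      obtain ⟨k, hk⟩ := exp_int h1
      have h2 : p0 + (t : ℂ) ∈ HP X := by
        change X < (p0 + (t : ℂ)).re
        rw [Complex.add_re, hre0, Complex.ofReal_re]
        linarith
      have h3 : ‖p0 + (t : ℂ) - p0‖ < min ε 1 := by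
        rw [add_sub_cancel_left, Complex.norm_real, Real.norm_of_nonneg ht0.le]
        exact ht1
      have h4 : ‖G (p0 + t + k * (2 * Real.pi * I)) - c0‖ < min ε 1 := by
        rw [← hk, hGζ', ← mem_ball_iff_norm]
        exact hw
      refine ⟨k, hN0 k (p0 + t) h2 (h3.trans_le (min_le_right _ _)) hre0 (h4.trans_le (min_le_right _ _)),
        p0 + t, h2, h3.trans_le (min_le_left _ _), h4.trans_le (min_le_left _ _)⟩
  obtain ⟨k0, -, hk0⟩ := hs1
  have hnr : ¬ Reg G X (p0 + k0 * (2 * Real.pi * I)) := by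
    refine not_reg h (by rw [re_shift, hre0]) hc0 fun ε hε => ?_
    obtain ⟨ζ, h1, h2, h3⟩ := hk0 ε hε
    refine ⟨ζ + k0 * (2 * Real.pi * I), HP_shift h1 k0, ?_, h3⟩
    rw [add_sub_add_right_eq_sub]
    exact h2
  -- the least one
  obtain ⟨Y, hY⟩ := far_reg h
  have hbd : ∃ b : ℤ, ∀ z : ℤ, ¬ Reg G X (p0 + z * (2 * Real.pi * I)) → b ≤ z := by
    obtain ⟨N, hN⟩ := exists_nat_gt (|Y| + |p0.im|)
    refine ⟨-N, fun z hz => ?_⟩
    by_contra hcon
    push Not at hcon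
    apply hz
    apply hY _ (by rw [re_shift, hre0])
    have h7 : (p0 + z * (2 * Real.pi * I)).im = p0.im + z * (2 * Real.pi) := by simp
    rw [h7]
    have hpi := Real.pi_gt_three
    have h8 : (z : ℝ) < -N := by exact_mod_cast hcon
    have h9 : p0.im + z * (2 * Real.pi) ≤ -|Y| := by
      have g1 := le_abs_self p0.im
      have g2 : (0 : ℝ) ≤ N := Nat.cast_nonneg N
      nlinarith [abs_nonneg Y, abs_nonneg p0.im]
    have h10 := le_abs_self Y
    rw [abs_of_nonpos (by linarith [abs_nonneg Y])]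
    linarith
  obtain ⟨k1, hk1, hk1min⟩ := Int.exists_least_of_bdd hbd ⟨k0, hnr⟩
  obtain ⟨p, hp⟩ : ∃ p : ℂ, p = p0 + k1 * (2 * Real.pi * I) := ⟨_, rfl⟩
  rw [← hp] at hk1
  have hpre : p.re = X := by rw [hp, re_shift, hre0]
  -- the critical point there
  obtain ⟨δ, hδ, hE⟩ := h.ext (Real.exp X) (Real.exp_pos X)
  obtain ⟨M', hM'⟩ := hE 0
  have hbound : ∀ ζ ∈ HP X, ‖ζ - p‖ < δ / 2 → ‖G ζ‖ < M' := by
    intro ζ hζ hd
    by_contra hcon
    push Not at hcon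
    have h5 := h.fib.sol.2 ζ hζ
    obtain ⟨g, hg, hg1, -⟩ := hM' (G ζ) ζ hcon (by rw [re_of_exp h5]; exact (Real.exp_lt_exp.2 hζ).le) h5
    exact hk1 (reg_of_ls h hδ hζ hd ⟨g, hg, hg1⟩)
  obtain ⟨s, hs⟩ : ∃ s : ℕ → ℂ, s = fun n : ℕ => p + ((δ / 4 / ((n : ℝ) + 1) : ℝ) : ℂ) := ⟨_, rfl⟩
  have hsX : ∀ n, s n ∈ HP X := by
    intro n
    rw [hs]
    change X < (p + ((δ / 4 / ((n : ℝ) + 1) : ℝ) : ℂ)).re
    rw [Complex.add_re, Complex.ofReal_re, hpre]
    have : 0 < δ / 4 / ((n : ℝ) + 1) := by positivity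
    linarith
  have hslim : Tendsto s atTop (𝓝 p) := by
    rw [hs]
    have h1 : Tendsto (fun n : ℕ => δ / 4 / ((n : ℝ) + 1)) atTop (𝓝 0) :=
      tendsto_const_nhds.div_atTop (tendsto_atTop_add_const_right _ _ tendsto_natCast_atTop_atTop)
    have h2 : Tendsto (fun n : ℕ => ((δ / 4 / ((n : ℝ) + 1) : ℝ) : ℂ)) atTop (𝓝 ((0 : ℝ) : ℂ)) :=
      (Complex.continuous_ofReal.tendsto 0).comp h1
    have h3 := h2.const_add p
    rwa [Complex.ofReal_zero, add_zero] at h3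
  have hsb : ∀ n, G (s n) ∈ closedBall (0 : ℂ) M' := by
    intro n
    rw [mem_closedBall_zero_iff]
    refine (hbound (s n) (hsX n) ?_).le
    rw [hs]
    simp only
    rw [add_sub_cancel_left, Complex.norm_real, Real.norm_of_nonneg (by positivity)]
    have h1 : δ / 4 / ((n : ℝ) + 1) ≤ δ / 4 := div_le_self (by positivity) (by
      have : (0 : ℝ) ≤ n := Nat.cast_nonneg n
      linarith)
    linarith
  obtain ⟨c, -, φ, hφ, hlim⟩ := (isCompact_closedBall (0 : ℂ) M').tendsto_subseq hsb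
  have hFc : F c = cexp p := by
    have h1 : Tendsto (fun n => F (G (s (φ n)))) atTop (𝓝 (F c)) := (h.diff.continuous.tendsto c).comp hlim
    have h2 : Tendsto (fun n => cexp (s (φ n))) atTop (𝓝 (cexp p)) :=
      (Complex.continuous_exp.tendsto p).comp (hslim.comp hφ.tendsto_atTop)
    have h3 : (fun n => F (G (s (φ n)))) = fun n => cexp (s (φ n)) := funext fun n => h.fib.sol.2 _ (hsX _)
    rw [h3] at h1
    exact tendsto_nhds_unique h1 h2
  have hcl : ∀ ε : ℝ, 0 < ε → ∃ ζ ∈ HP X, ‖ζ - p‖ < ε ∧ ‖G ζ - c‖ < ε := by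
    intro ε hε
    have h1 := (hslim.comp hφ.tendsto_atTop).eventually (isOpen_ball.mem_nhds (mem_ball_self (x := p) hε))
    have h2 := hlim.eventually (isOpen_ball.mem_nhds (mem_ball_self (x := c) hε))
    obtain ⟨n, hn1, hn2⟩ := (h1.and h2).exists
    exact ⟨s (φ n), hsX _, by rw [← mem_ball_iff_norm]; exact hn1, by rw [← mem_ball_iff_norm]; exact hn2⟩
  have hdc : deriv F c = 0 := by
    by_contra hne
    obtain ⟨δ2, hδ2, hev⟩ := nearLS h.diff hne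
    have h1 := (hslim.comp hφ.tendsto_atTop).eventually
      (isOpen_ball.mem_nhds (mem_ball_self (x := p) (half_pos hδ2)))
    obtain ⟨n, hn1, hn2⟩ := (h1.and (hlim.eventually hev)).exists
    exact hk1 (reg_of_ls h hδ2 (hsX (φ n)) (by rw [← mem_ball_iff_norm]; exact hn1)
      (hn2 _ (h.fib.sol.2 _ (hsX _))))
  -- the second branch
  obtain ⟨L, hL1, hL2, hL3, hL4⟩ := loglem h.diff hFc
  have hLnc : ¬ ∀ᶠ z in 𝓝 c, L z = L c := by
    intro hev
    apply nonconst h c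
    filter_upwards [hev, hL3] with z h1 h2
    rw [← h2, h1, hL2, hFc]
  obtain ⟨N1, hN1⟩ := idx_bdd h c p
  have hs2 : ∃ k ∈ (Finset.Icc (-N1) N1).erase 0, ∀ ε : ℝ, 0 < ε → ∃ ζ ∈ HP X, ‖ζ - p‖ < ε ∧ ‖G ζ - c‖ < ε ∧
      ‖G (ζ + k * (2 * Real.pi * I)) - c‖ < ε := by
    refine pigeon (Q := fun ε k => ∃ ζ ∈ HP X, ‖ζ - p‖ < ε ∧ ‖G ζ - c‖ < ε ∧
      ‖G (ζ + k * (2 * Real.pi * I)) - c‖ < ε) ?_ ?_
    · rintro ε ε' k hεε ⟨ζ, h1, h2, h3, h4⟩
      exact ⟨ζ, h1, h2.trans_le hεε, h3.trans_le hεε, h4.trans_le hεε⟩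
    · intro ε hε
      obtain ⟨r, hr, hr1⟩ := Metric.eventually_nhds_iff_ball.1
        (hL3.and (hL1.continuousAt.eventually (isOpen_ball.mem_nhds (mem_ball_self (x := L c) one_pos))))
      obtain ⟨ε1, hε1⟩ : ∃ ε1 : ℝ, ε1 = min (min ε r) 1 := ⟨_, rfl⟩
      have hε1p : 0 < ε1 := by rw [hε1]; positivity
      have i1 : ε1 ≤ ε := by rw [hε1]; exact (min_le_left _ _).trans (min_le_left _ _)
      have i2 : ε1 ≤ r := by rw [hε1]; exact (min_le_left _ _).trans (min_le_right _ _)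
      have i3 : ε1 ≤ 1 := by rw [hε1]; exact min_le_right _ _
      have h1 := two_sheets hL1 (hL4 hdc) hLnc hε1p
      rw [eventually_nhdsWithin_iff] at h1
      obtain ⟨r2, hr2, hr3⟩ := Metric.eventually_nhds_iff_ball.1 h1
      obtain ⟨ζ, hζ, h2, h3⟩ := hcl (min ε1 r2) (by positivity)
      have h2' := h2.trans_le (min_le_left _ _)
      have h3' := h3.trans_le (min_le_left _ _)
      have hGc : G ζ ≠ c := fun h0 => h.fib.sol.deriv_ne h.diff (HP_open X) hζ (by rw [h0]; exact hdc)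
      obtain ⟨w', hw', hne, hLw⟩ := hr3 (G ζ) (by rw [mem_ball_iff_norm]; exact h3.trans_le (min_le_right _ _)) hGc
      have hb1 : G ζ ∈ ball c r := by rw [mem_ball_iff_norm]; exact h3'.trans_le i2
      have hb2 : w' ∈ ball c r := ball_subset_ball i2 hw'
      have hLζ : L (G ζ) = ζ := by
        apply exp_inj_near
        · rw [(hr1 _ hb1).1, h.fib.sol.2 ζ hζ]
        · have g1 := (hr1 _ hb1).2
          rw [dist_eq_norm, hL2] at g1
          calc ‖L (G ζ) - ζ‖ = ‖(L (G ζ) - p) - (ζ - p)‖ := by ring_nf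
            _ ≤ ‖L (G ζ) - p‖ + ‖ζ - p‖ := norm_sub_le _ _
            _ < 1 + 1 := add_lt_add g1 (h2'.trans_le i3)
            _ < 2 * Real.pi := by linarith [Real.pi_gt_three]
      have hFw' : F w' = cexp ζ := by rw [← (hr1 _ hb2).1, hLw, hLζ]
      obtain ⟨ζ', hζ', hGζ'⟩ := h.fib.surj w' (by rw [re_of_exp hFw', Real.exp_lt_exp]; exact hζ)
      have h4 : cexp ζ' = cexp ζ := by rw [← h.fib.sol.2 ζ' hζ', hGζ', hFw']
      obtain ⟨k, hk⟩ := exp_int h4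
      have h5 : ‖G (ζ + k * (2 * Real.pi * I)) - c‖ < ε1 := by
        rw [← hk, hGζ', ← mem_ball_iff_norm]
        exact hw'
      refine ⟨k, ?_, ζ, hζ, h2'.trans_le i1, h3'.trans_le i1, h5.trans_le i1⟩
      rw [Finset.mem_erase]
      refine ⟨?_, hN1 k ζ hζ (h2'.trans_le i3) hpre (h5.trans_le i3)⟩
      rintro rfl
      apply hne
      rw [← hGζ', hk]
      simp
  obtain ⟨κ, hκ, hκ2⟩ := hs2
  rw [Finset.mem_erase] at hκ
  have hκnr : ¬ Reg G X (p + κ * (2 * Real.pi * I)) := by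
    refine not_reg h (by rw [re_shift, hpre]) hdc fun ε hε => ?_
    obtain ⟨ζ, h1, h2, -, h3⟩ := hκ2 ε hε
    refine ⟨ζ + κ * (2 * Real.pi * I), HP_shift h1 κ, ?_, h3⟩
    rw [add_sub_add_right_eq_sub]
    exact h2
  have hκ0 : 0 < κ := by
    have h1 := hk1min (k1 + κ) (by
      have e : p0 + ((k1 + κ : ℤ) : ℂ) * (2 * Real.pi * I) = p + κ * (2 * Real.pi * I) := by
        rw [hp]; push_cast; ring
      rw [e]
      exact hκnr)
    have := hκ.1
    omega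
  obtain ⟨κ', rfl⟩ := Int.eq_ofNat_of_zero_le hκ0.le
  refine ⟨c, p, κ', by omega, hpre, hFc, fun l hl => ?_, hκ2⟩
  by_contra hcon
  have h1 := hk1min (k1 - l) (by
    have e : p0 + ((k1 - l : ℤ) : ℂ) * (2 * Real.pi * I) = p + ((-(l : ℤ) : ℤ) : ℂ) * (2 * Real.pi * I) := by
      rw [hp]; push_cast; ring
    rw [e]
    exact hcon)
  omega

end Pool.Agent.Q288.AP
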