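import Pool.Agent.Q288.AP.Fib

set_option autoImplicit false

/-!
# From even functions with a good logarithmic derivative on the right to `Dat`
-/

namespace Pool.Agent.Q288.AP

open Complex Filter Topology Metric Set

/-- `F (z ^ 2) = X z` where `X` has no zeros and `Re X'/X ≥ c > 0` on the right, and tends to `0` in the strip. -/
structure XD (X F : ℂ → ℂ) : Prop where
  dF : Differentiable ℂ F
  sq : ∀ z, F (z ^ 2) = X z
  ne : ∀ z : ℂ, 1 / 2 < z.re → X z ≠ 0
  low : ∃ c : ℝ, 0 < c ∧ ∀ z : ℂ, 1 ≤ z.re → c ≤ (logDeriv X z).re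
  dec : ∀ ε : ℝ, 0 < ε → ∃ T : ℝ, ∀ z : ℂ, |z.re| ≤ 2 → T ≤ |z.im| → ‖X z‖ < ε
  crit : ∃ c, deriv F c = 0 ∧ F c ≠ 0

variable {X F : ℂ → ℂ}

theorem XD.dX (h : XD X F) : Differentiable ℂ X := by
  have e : X = fun z => F (z ^ 2) := by funext z; rw [h.sq]
  rw [e]
  exact h.dF.comp (differentiable_pow 2)

/-- a holomorphic function on a half plane has a primitive -/
theorem prim {f : ℂ → ℂ} {a : ℝ} (hf : DifferentiableOn ℂ f (HP a)) (y : ℂ) :
    ∃ L : ℂ → ℂ, L ((a + 1 : ℝ) : ℂ) = y ∧ ∀ z ∈ HP a, HasDerivAt L (f z) z := by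
  obtain ⟨c, hc⟩ : ∃ c : ℕ → ℂ, c = fun n : ℕ => ((a + n + 2 : ℝ) : ℂ) := ⟨_, rfl⟩
  obtain ⟨D, hD⟩ : ∃ D : ℕ → Set ℂ, D = fun n : ℕ => ball (c n) ((n : ℝ) + 2) := ⟨_, rfl⟩
  have hDo : ∀ n, IsOpen (D n) := fun n => by rw [hD]; exact isOpen_ball
  have hcre : ∀ n, (c n).re = a + n + 2 := fun n => by rw [hc]; exact Complex.ofReal_re _
  have hDs : ∀ n, D n ⊆ HP a := by
    intro n z hz
    rw [hD] at hz
    have h1 : ‖z - c n‖ < (n : ℝ) + 2 := mem_ball_iff_norm.1 hz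
    have h2 := (Complex.abs_re_le_norm _).trans_lt h1
    rw [Complex.sub_re, hcre] at h2
    have h3 := (abs_lt.1 h2).1
    change a < z.re
    linarith
  have hD0 : ∀ n, ((a + 1 : ℝ) : ℂ) ∈ D n := by
    intro n
    rw [hD]
    refine mem_ball_iff_norm.2 ?_
    have e : ((a + 1 : ℝ) : ℂ) - c n = ((-(n + 1 : ℝ) : ℝ) : ℂ) := by rw [hc]; push_cast; ring
    rw [e, Complex.norm_real, Real.norm_eq_abs, abs_neg, abs_of_nonneg (by positivity)]
    linarith
  have h1 : ∀ n, ∃ L : ℂ → ℂ, L ((a + 1 : ℝ) : ℂ) = y ∧ ∀ z ∈ D n, HasDerivAt L (f z) z := by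
    intro n
    have h2 : Complex.IsExactOn f (D n) := by
      rw [hD]
      refine DifferentiableOn.isExactOn_ball (hf.mono ?_)
      have := hDs n
      rw [hD] at this
      exact this
    exact h2.with_val_at _ _
  choose g hg0 hg using h1
  have hcmp : ∀ m n, m ≤ n → EqOn (g n) (g m) (D m) := by
    intro m n hmn
    have hsub : D m ⊆ D n := by
      rw [hD]
      intro z hz
      have h1 : ‖z - c m‖ < (m : ℝ) + 2 := mem_ball_iff_norm.1 hz
      refine mem_ball_iff_norm.2 ?_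
      have e : z - c n = (z - c m) + ((-((n : ℝ) - m) : ℝ) : ℂ) := by rw [hc]; push_cast; ring
      have hmn' : (m : ℝ) ≤ n := by exact_mod_cast hmn
      have h2 : ‖((-((n : ℝ) - m) : ℝ) : ℂ)‖ = n - m := by
        rw [Complex.norm_real, Real.norm_eq_abs, abs_neg, abs_of_nonneg (by linarith)]
      rw [e]
      refine (norm_add_le _ _).trans_lt ?_
      rw [h2]
      linarith
    have hpre : IsPreconnected (D m) := by
      rw [hD]
      exact (convex_ball _ _).isPreconnected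
    refine (hDo m).eqOn_of_deriv_eq hpre (fun z hz => ((hg n z (hsub hz)).differentiableAt).differentiableWithinAt)
      (fun z hz => ((hg m z hz).differentiableAt).differentiableWithinAt) (fun z hz => ?_) (hD0 m) ?_
    · rw [(hg n z (hsub hz)).deriv, (hg m z hz).deriv]
    · rw [hg0, hg0]
  obtain ⟨G, -, hG⟩ := glue hDo (fun n z hz => ((hg n z hz).differentiableAt).differentiableWithinAt) hcmp
  refine ⟨G, by rw [hG 0 (hD0 0), hg0], fun z hz => ?_⟩
  -- `z` lies in some ball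
  have hz' : a < z.re := hz
  obtain ⟨n, hn⟩ := exists_nat_gt ((‖z - ((a : ℝ) : ℂ)‖ ^ 2) / (z.re - a))
  have hzn : z ∈ D n := by
    rw [hD]
    refine mem_ball_iff_norm.2 ?_
    have e : z - c n = (z - ((a : ℝ) : ℂ)) - (((n : ℝ) + 2 : ℝ) : ℂ) := by rw [hc]; push_cast; ring
    rw [div_lt_iff₀ (by linarith)] at hn
    have h3 : ‖z - c n‖ ^ 2 < ((n : ℝ) + 2) ^ 2 := by
      have h4 : ‖z - ((a : ℝ) : ℂ)‖ ^ 2 = (z.re - a) ^ 2 + z.im ^ 2 := by
        rw [← normSq_eq_norm_sq, normSq_apply]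
        simp
        ring
      have h5 : ‖z - c n‖ ^ 2 = (z.re - a - (n + 2)) ^ 2 + z.im ^ 2 := by
        rw [e, ← normSq_eq_norm_sq, normSq_apply]
        simp
        ring
      rw [h4] at hn
      rw [h5]
      have h6 : 0 < z.re - a := by linarith
      have h7 : (0 : ℝ) ≤ n := Nat.cast_nonneg n
      nlinarith
    exact lt_of_pow_lt_pow_left₀ 2 (by positivity) h3
  refine (hg n z hzn).congr_of_eventuallyEq ?_
  filter_upwards [(hDo n).mem_nhds hzn] with w hw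
  exact hG n hw

/-- an inverse on a region -/
theorem inv_on {L : ℂ → ℂ} {f : ℂ → ℂ} {c : ℝ} (hc : 0 < c) (hL : ∀ z : ℂ, 1 ≤ z.re → HasDerivAt L (f z) z)
    (hf : ∀ z : ℂ, 1 ≤ z.re → f z ≠ 0) (hlo : ∀ z z' : ℂ, 1 ≤ z.re → 1 ≤ z'.re → c * ‖z - z'‖ ≤ ‖L z - L z'‖)
    {U V : Set ℂ} (hV : IsPreconnected V) (hVo : IsOpen V) (hU : IsOpen U) (hU1 : ∀ z ∈ closure U, 1 ≤ z.re)
    (hbd : ∀ z ∈ closure U, L z ∈ V → z ∈ U) (hne : ∃ z ∈ U, L z ∈ V) :
    ∃ g : ℂ → ℂ, DifferentiableOn ℂ g V ∧ ∀ ζ ∈ V, g ζ ∈ U ∧ L (g ζ) = ζ := by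
  have hU1' : ∀ z ∈ U, 1 ≤ z.re := fun z hz => hU1 z (subset_closure hz)
  -- the image
  have hopen : ∀ z ∈ U, ∀ W ∈ 𝓝 z, L '' W ∈ 𝓝 (L z) := by
    intro z hz W hW
    have han : AnalyticAt ℂ L z := by
      have hd : ∀ᶠ w in 𝓝 z, DifferentiableAt ℂ L w := by
        filter_upwards [hU.mem_nhds hz] with w hw
        exact (hL w (hU1' w hw)).differentiableAt
      exact Complex.analyticAt_iff_eventually_differentiableAt.2 hd
    have hs : HasStrictDerivAt L (f z) z := by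
      have := han.hasStrictDerivAt
      rwa [(hL z (hU1' z hz)).deriv] at this
    have := hs.map_nhds_eq (hf z (hU1' z hz))
    rw [← this]
    exact image_mem_map hW
  have hsub : V ⊆ L '' U := by
    have hS : V ⊆ V ∩ L '' U := by
      refine hV.subset_of_closure_inter_subset ?_ ?_ ?_
      · rw [isOpen_iff_mem_nhds]
        rintro ζ ⟨hζ, z, hz, rfl⟩
        exact inter_mem (hVo.mem_nhds hζ) (hopen z hz U (hU.mem_nhds hz))
      · obtain ⟨z, hz, hz1⟩ := hne
        exact ⟨L z, hz1, hz1, mem_image_of_mem _ hz⟩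
      · rintro ζ ⟨hζ, hζV⟩
        refine ⟨hζV, ?_⟩
        obtain ⟨u, hu, hlim⟩ := mem_closure_iff_seq_limit.1 hζ
        choose z hz hzu using fun n => (hu n).2
        have hcau : CauchySeq z := by
          have h1 : CauchySeq u := hlim.cauchySeq
          rw [Metric.cauchySeq_iff] at h1 ⊢
          intro ε hε
          obtain ⟨N, hN⟩ := h1 (c * ε) (by positivity)
          refine ⟨N, fun m hm n hn => ?_⟩
          have h2 := hN m hm n hn
          rw [dist_eq_norm] at h2 ⊢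
          have h3 := hlo (z m) (z n) (hU1' _ (hz m)) (hU1' _ (hz n))
          rw [hzu, hzu] at h3
          exact lt_of_mul_lt_mul_left (h3.trans_lt h2) hc.le
        obtain ⟨w, hw⟩ := cauchySeq_tendsto_of_complete hcau
        have hwc : w ∈ closure U := mem_closure_of_tendsto hw (Eventually.of_forall hz)
        have h4 : Tendsto (fun n => L (z n)) atTop (𝓝 (L w)) :=
          ((hL w (hU1 w hwc)).continuousAt).tendsto.comp hw
        have h5 : L w = ζ := by
          refine tendsto_nhds_unique h4 ?_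
          refine hlim.congr fun n => (hzu n).symm
        exact ⟨w, hbd w hwc (by rw [h5]; exact hζV), h5⟩
    exact fun ζ hζ => (hS hζ).2
  have hinj : ∀ z z' : ℂ, 1 ≤ z.re → 1 ≤ z'.re → L z = L z' → z = z' := by
    intro z z' h1 h2 h3
    have := hlo z z' h1 h2
    rw [h3, sub_self, norm_zero] at this
    have h4 : ‖z - z'‖ ≤ 0 := by
      by_contra hcon
      push Not at hcon
      nlinarith
    exact sub_eq_zero.1 (norm_le_zero_iff.1 h4)
  choose! g hg1 hg2 using fun ζ (hζ : ζ ∈ V) => hsub hζ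
  refine ⟨g, fun ζ hζ => ?_, fun ζ hζ => ⟨hg1 ζ hζ, hg2 ζ hζ⟩⟩
  have hcont : ContinuousAt g ζ := by
    rw [Metric.continuousAt_iff]
    intro ε hε
    obtain ⟨ρ, hρ, hρV⟩ := Metric.isOpen_iff.1 hVo ζ hζ
    refine ⟨min ρ (c * ε), by positivity, fun {x} hx => ?_⟩
    have hxV : x ∈ V := hρV (mem_ball.2 (hx.trans_le (min_le_left _ _)))
    have h3 := hlo (g x) (g ζ) (hU1' _ (hg1 x hxV)) (hU1' _ (hg1 ζ hζ))
    rw [hg2 x hxV, hg2 ζ hζ, ← dist_eq_norm, ← dist_eq_norm] at h3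
    exact lt_of_mul_lt_mul_left (h3.trans_lt (hx.trans_le (min_le_right _ _))) hc.le
  have hd : HasDerivAt g (f (g ζ))⁻¹ ζ := by
    refine HasDerivAt.of_local_left_inverse hcont (hL _ (hU1' _ (hg1 ζ hζ))) (hf _ (hU1' _ (hg1 ζ hζ))) ?_
    filter_upwards [hVo.mem_nhds hζ] with x hx
    exact hg2 x hx
  exact hd.differentiableAt.differentiableWithinAt

end Pool.Agent.Q288.AP
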