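import Pool.Agent.Q288.AP.XD

set_option autoImplicit false

/-!
# `XD X F → Dat F`
-/

namespace Pool.Agent.Q288.AP

open Complex Filter Topology Metric Set

variable {X F : ℂ → ℂ}

theorem sqrt_re (w : ℂ) : ∃ z : ℂ, z ^ 2 = w ∧ 0 ≤ z.re := by
  obtain ⟨z, hz⟩ := IsAlgClosed.exists_pow_nat_eq w (n := 2) two_pos
  rcases le_total 0 z.re with h | h
  · exact ⟨z, hz, h⟩
  · exact ⟨-z, by rw [neg_sq, hz], by rw [neg_re]; linarith⟩

theorem XD.log (h : XD X F) : ∃ (L : ℂ → ℂ) (c : ℝ), 0 < c ∧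
    (∀ z : ℂ, 1 ≤ z.re → HasDerivAt L (logDeriv X z) z) ∧ (∀ z : ℂ, 1 ≤ z.re → logDeriv X z ≠ 0) ∧
    (∀ z : ℂ, 1 ≤ z.re → X z = cexp (L z)) ∧
    ∀ z z' : ℂ, 1 ≤ z.re → 1 ≤ z'.re → z ≠ z' → c ≤ ((L z - L z') / (z - z')).re := by
  have hX := h.dX
  obtain ⟨c, hc, hlow⟩ := h.low
  have hd : DifferentiableOn ℂ (logDeriv X) (HP (1 / 2)) := by
    intro z hz
    exact (((hX.analyticAt z).deriv.div (hX.analyticAt z) (h.ne z hz)).differentiableAt).differentiableWithinAt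
  obtain ⟨L, hL0, hL⟩ := prim hd (Complex.log (X ((1 / 2 + 1 : ℝ) : ℂ)))
  have hHP : ∀ z : ℂ, 1 ≤ z.re → z ∈ HP (1 / 2) := fun z hz => by
    change (1 / 2 : ℝ) < z.re
    linarith
  have h0 : ((1 / 2 + 1 : ℝ) : ℂ) ∈ HP (1 / 2) := by
    change (1 / 2 : ℝ) < ((1 / 2 + 1 : ℝ) : ℂ).re
    rw [Complex.ofReal_re]
    norm_num
  have hexp : ∀ z ∈ HP (1 / 2), X z = cexp (L z) := by
    obtain ⟨q, hq⟩ : ∃ q : ℂ → ℂ, q = fun z => X z * cexp (-(L z)) := ⟨_, rfl⟩
    have hqd : ∀ z ∈ HP (1 / 2), HasDerivAt q 0 z := by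
      intro z hz
      have h1 : HasDerivAt q (deriv X z * cexp (-(L z)) + X z * (cexp (-(L z)) * -(logDeriv X z))) z := by
        rw [hq]
        exact (hX z).hasDerivAt.mul ((hL z hz).neg.cexp)
      have e : deriv X z * cexp (-(L z)) + X z * (cexp (-(L z)) * -(logDeriv X z)) = 0 := by
        rw [logDeriv_apply]
        have := h.ne z hz
        field_simp
        ring
      rwa [e] at h1
    intro z hz
    have h1 : q z = q ((1 / 2 + 1 : ℝ) : ℂ) :=
      (HP_open _).is_const_of_deriv_eq_zero (HP_convex _).isPreconnected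
        (fun w hw => (hqd w hw).differentiableAt.differentiableWithinAt) (fun w hw => (hqd w hw).deriv) hz h0
    have h2 : q ((1 / 2 + 1 : ℝ) : ℂ) = 1 := by
      rw [hq]
      change X _ * cexp (-(L _)) = 1
      rw [hL0, Complex.exp_neg, Complex.exp_log (h.ne _ h0)]
      exact mul_inv_cancel₀ (h.ne _ h0)
    rw [h2, hq] at h1
    have h3 : X z * cexp (-(L z)) = 1 := h1
    rw [Complex.exp_neg] at h3
    have h4 := Complex.exp_ne_zero (L z)
    field_simp at h3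
    exact h3
  refine ⟨L, c, hc, fun z hz => hL z (hHP z hz), fun z hz h0 => ?_, fun z hz => hexp z (hHP z hz), ?_⟩
  · have := hlow z hz
    rw [h0, Complex.zero_re] at this
    linarith
  · intro z z' hz hz' hne
    have hne' : z - z' ≠ 0 := sub_ne_zero.2 hne
    obtain ⟨φ, hφ⟩ : ∃ φ : ℝ → ℝ, φ = fun t : ℝ => ((L (z' + (t : ℂ) * (z - z'))) / (z - z')).re := ⟨_, rfl⟩
    have hseg : ∀ t : ℝ, t ∈ Icc (0 : ℝ) 1 → 1 ≤ (z' + t * (z - z')).re := by
      intro t ht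
      have : (z' + t * (z - z')).re = (1 - t) * z'.re + t * z.re := by
        simp
        ring
      rw [this]
      nlinarith [ht.1, ht.2]
    have hφd : ∀ t ∈ Icc (0 : ℝ) 1, HasDerivAt φ (logDeriv X (z' + t * (z - z'))).re t := by
      intro t ht
      have h1 : HasDerivAt (fun t : ℝ => (z' + t * (z - z') : ℂ)) (z - z') t := by
        have := ((Complex.ofRealCLM.hasDerivAt (x := t)).mul_const (z - z')).const_add z'
        simpa using this
      have h2 : HasDerivAt (fun t : ℝ => L (z' + t * (z - z')) / (z - z'))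
          (logDeriv X (z' + t * (z - z')) * (z - z') / (z - z')) t :=
        ((hL _ (hHP _ (hseg t ht))).comp t h1).div_const _
      rw [mul_div_cancel_right₀ _ hne'] at h2
      have h3 := (Complex.reCLM.hasFDerivAt.comp_hasDerivAt t h2)
      rw [hφ]
      exact h3
    have h1 := (convex_Icc (0 : ℝ) 1).mul_sub_le_image_sub_of_le_deriv
      (f := φ) (C := c) (fun t ht => (hφd t ht).continuousAt.continuousWithinAt)
      (fun t ht => (hφd t (interior_subset ht)).differentiableAt.differentiableWithinAt)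
      (fun t ht => by
        rw [(hφd t (interior_subset ht)).deriv]
        exact hlow _ (hseg t (interior_subset ht))) 0 ⟨le_rfl, zero_le_one⟩ 1 ⟨zero_le_one, le_rfl⟩ zero_le_one
    rw [sub_zero, mul_one, hφ] at h1
    simp only [Complex.ofReal_one, one_mul, Complex.ofReal_zero, zero_mul, add_zero, add_sub_cancel] at h1
    rw [sub_div, Complex.sub_re]
    exact h1

theorem XD.log' (h : XD X F) : ∃ (L : ℂ → ℂ) (c : ℝ), 0 < c ∧
    (∀ z : ℂ, 1 ≤ z.re → HasDerivAt L (logDeriv X z) z) ∧ (∀ z : ℂ, 1 ≤ z.re → logDeriv X z ≠ 0) ∧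
    (∀ z : ℂ, 1 ≤ z.re → X z = cexp (L z)) ∧
    (∀ z z' : ℂ, 1 ≤ z.re → 1 ≤ z'.re → c * ‖z - z'‖ ≤ ‖L z - L z'‖) ∧
    ∀ M : ℝ, ∃ z : ℂ, 2 < z.re ∧ M < (L z).re := by
  obtain ⟨L, c, hc, h1, h2, h3, h4⟩ := h.log
  refine ⟨L, c, hc, h1, h2, h3, fun z z' hz hz' => ?_, fun M => ?_⟩
  · rcases eq_or_ne z z' with rfl | hne
    · simp
    · have h5 := (h4 z z' hz hz' hne).trans ((le_abs_self _).trans (Complex.abs_re_le_norm _))
      rw [norm_div, le_div_iff₀ (norm_pos_iff.2 (sub_ne_zero.2 hne))] at h5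
      exact h5
  · obtain ⟨x, hx⟩ : ∃ x : ℝ, x = (|M| + |(L 3).re| + 1) / c := ⟨_, rfl⟩
    have hx0 : 0 < x := by
      rw [hx]
      positivity
    have hcx : c * x = |M| + |(L 3).re| + 1 := by
      rw [hx]
      field_simp
    have h5 := h4 (3 + x) 3 (by simp; linarith) (by simp) (by
      intro h0
      have h6 : (x : ℂ) = 0 := by linear_combination h0
      exact hx0.ne' (by exact_mod_cast h6))
    have e : (L (3 + x) - L 3) / ((3 + x : ℂ) - 3) = ((x⁻¹ : ℝ) : ℂ) * (L (3 + x) - L 3) := by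
      rw [add_sub_cancel_left, Complex.ofReal_inv]
      ring
    rw [e, Complex.re_ofReal_mul, Complex.sub_re, inv_mul_eq_div, le_div_iff₀ hx0, hcx] at h5
    refine ⟨3 + x, by simp; linarith, ?_⟩
    have h7 := neg_abs_le (L 3).re
    have h8 := le_abs_self M
    linarith

theorem closure_right {z : ℂ} (h : z ∈ closure {z : ℂ | 2 < z.re}) : 2 ≤ z.re := by
  have h1 : closure {z : ℂ | 2 < z.re} ⊆ {z : ℂ | 2 ≤ z.re} :=
    closure_minimal (fun z (hz : 2 < z.re) => (hz.le : 2 ≤ z.re)) (isClosed_le continuous_const Complex.continuous_re)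
  exact h1 h

theorem XD.bound (h : XD X F) : ∃ X1 : ℝ, ∀ z : ℂ, |z.re| ≤ 2 → ‖X z‖ ≤ Real.exp X1 := by
  obtain ⟨T, hT⟩ := h.dec 1 one_pos
  obtain ⟨B, hB⟩ := (isCompact_closedBall (0 : ℂ) (2 + |T|)).exists_bound_of_continuousOn
    (h.dX.continuous.continuousOn)
  refine ⟨Real.log (max 1 B), fun z hz => ?_⟩
  rw [Real.exp_log (lt_of_lt_of_le one_pos (le_max_left _ _))]
  rcases le_or_gt T |z.im| with h1 | h1
  · exact (hT z hz h1).le.trans (le_max_left _ _)
  · refine (hB z ?_).trans (le_max_right _ _)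
    rw [mem_closedBall_zero_iff]
    exact (Complex.norm_le_abs_re_add_abs_im z).trans (by linarith [le_abs_self T])

theorem XD.base (h : XD X F) : ∃ (X1 : ℝ) (G : ℂ → ℂ), Fib F X1 G ∧ FarP G X1 := by
  obtain ⟨L, c, hc, h1, h2, h3, h4, h5⟩ := h.log'
  obtain ⟨X1, hX1⟩ := h.bound
  have hbig : ∀ z : ℂ, 0 ≤ z.re → Real.exp X1 < ‖X z‖ → 2 < z.re := by
    intro z hz hz1
    by_contra hcon
    push Not at hcon
    have := hX1 z (by rw [abs_of_nonneg hz]; exact hcon)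
    linarith
  have hnorm : ∀ z : ℂ, 1 ≤ z.re → ‖X z‖ = Real.exp (L z).re := by
    intro z hz
    rw [h3 z hz, Complex.norm_exp]
  have hinj : ∀ z z' : ℂ, 1 ≤ z.re → 1 ≤ z'.re → L z = L z' → z = z' := by
    intro z z' g1 g2 g3
    have := h4 z z' g1 g2
    rw [g3, sub_self, norm_zero] at this
    have g4 : ‖z - z'‖ ≤ 0 := by
      by_contra hcon
      push Not at hcon
      nlinarith
    exact sub_eq_zero.1 (norm_le_zero_iff.1 g4)
  obtain ⟨g, hg, hg1⟩ := inv_on (U := {z : ℂ | 2 < z.re}) (V := HP X1) hc h1 h2 h4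
    (HP_convex X1).isPreconnected (HP_open X1) (isOpen_lt continuous_const Complex.continuous_re)
    (fun z hz => by linarith [closure_right hz])
    (fun z hz hz1 => by
      have g1 := closure_right hz
      refine hbig z (by linarith) ?_
      rw [hnorm z (by linarith)]
      exact Real.exp_lt_exp.2 hz1)
    (by
      obtain ⟨z, hz, hz1⟩ := h5 X1
      exact ⟨z, hz, hz1⟩)
  have hre : ∀ ζ ∈ HP X1, 2 < (g ζ).re := fun ζ hζ => (hg1 ζ hζ).1
  refine ⟨X1, fun ζ => g ζ ^ 2, ⟨⟨hg.pow 2, fun ζ hζ => ?_⟩, ?_, ?_⟩, ?_⟩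
  · rw [h.sq, h3 _ (by linarith [hre ζ hζ]), (hg1 ζ hζ).2]
  · intro ζ hζ ζ' hζ' he
    have g1 := hre ζ hζ
    have g2 := hre ζ' hζ'
    rcases sq_eq_sq_iff_eq_or_eq_neg.1 he with g3 | g3
    · rw [← (hg1 ζ hζ).2, ← (hg1 ζ' hζ').2, g3]
    · exfalso
      rw [g3, Complex.neg_re] at g1
      linarith
  · intro w hw
    obtain ⟨z, hz, hz0⟩ := sqrt_re w
    rw [← hz, h.sq] at hw
    have g1 := hbig z hz0 hw
    rw [hnorm z (by linarith)] at hw
    have g2 : L z ∈ HP X1 := Real.exp_lt_exp.1 hw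
    refine ⟨L z, g2, ?_⟩
    rw [hinj _ _ (by linarith [hre _ g2]) (by linarith) (hg1 _ g2).2, hz]
  · intro M B
    obtain ⟨B0, hB0⟩ := ((isCompact_closedBall (0 : ℂ) (|M| + 1)).inter_right
      (isClosed_le continuous_const Complex.continuous_re : IsClosed {z : ℂ | 1 ≤ z.re})).exists_bound_of_continuousOn
      (f := L) (fun z hz => (h1 z hz.2).continuousAt.continuousWithinAt)
    refine ⟨|B0| + 1, fun ζ hζ _ hY => ?_⟩
    by_contra hcon
    push Not at hcon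
    rw [norm_pow] at hcon
    have g1 : ‖g ζ‖ ≤ |M| + 1 := by
      have := le_abs_self M
      nlinarith [norm_nonneg (g ζ), abs_nonneg M]
    have g2 := hB0 (g ζ) ⟨mem_closedBall_zero_iff.2 g1, by
      change 1 ≤ (g ζ).re
      linarith [hre ζ hζ]⟩
    rw [(hg1 ζ hζ).2] at g2
    have g3 := Complex.abs_im_le_norm ζ
    linarith [le_abs_self B0]

theorem XD.ext (h : XD X F) : ExtP F := by
  intro ε hε
  obtain ⟨L, c, hc, h1, h2, h3, h4, h5⟩ := h.log'
  obtain ⟨T, hT⟩ := h.dec ε hε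
  have hinj : ∀ z z' : ℂ, 1 ≤ z.re → 1 ≤ z'.re → L z = L z' → z = z' := by
    intro z z' g1 g2 g3
    have := h4 z z' g1 g2
    rw [g3, sub_self, norm_zero] at this
    have g4 : ‖z - z'‖ ≤ 0 := by
      by_contra hcon
      push Not at hcon
      nlinarith
    exact sub_eq_zero.1 (norm_le_zero_iff.1 g4)
  refine ⟨c, hc, fun M => ⟨(|T| + 3 + |M|) ^ 2, fun w0 ζ0 hw0 hF0 he => ?_⟩⟩
  obtain ⟨z0, hz0, hz0re⟩ := sqrt_re w0
  have hT0 := abs_nonneg T
  have hM0 := abs_nonneg M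
  have hz0n : |T| + 3 + |M| ≤ ‖z0‖ := by
    rw [← hz0, norm_pow] at hw0
    exact le_of_sq_le_sq hw0 (norm_nonneg _)
  have hXz : X z0 = F w0 := by rw [← h.sq, hz0]
  have hz02 : 2 < z0.re := by
    by_contra hcon
    push Not at hcon
    have g1 := Complex.norm_le_abs_re_add_abs_im z0
    rw [abs_of_nonneg hz0re] at g1
    have g2 := hT z0 (by rw [abs_of_nonneg hz0re]; exact hcon) (by linarith [le_abs_self T])
    rw [hXz] at g2
    linarith
  have hcl : ∀ z ∈ closure (ball z0 1), ‖z - z0‖ ≤ 1 := by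
    intro z hz
    have := closure_ball_subset_closedBall hz
    exact mem_closedBall_iff_norm.1 this
  have hre : ∀ z : ℂ, ‖z - z0‖ ≤ 1 → 1 ≤ z.re := by
    intro z hz
    have g1 := (Complex.abs_re_le_norm _).trans hz
    rw [Complex.sub_re] at g1
    have := (abs_le.1 g1).1
    linarith
  obtain ⟨g, hg, hg1⟩ := inv_on (U := ball z0 1) (V := ball (L z0) c) hc h1 h2 h4
    (convex_ball _ _).isPreconnected isOpen_ball isOpen_ball
    (fun z hz => hre z (hcl z hz))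
    (fun z hz hz1 => by
      rw [mem_ball_iff_norm] at hz1 ⊢
      have g1 := (h4 z z0 (hre z (hcl z hz)) (by linarith)).trans_lt hz1
      by_contra hcon
      push Not at hcon
      nlinarith)
    ⟨z0, mem_ball_self one_pos, mem_ball_self hc⟩
  have hexp : cexp (L z0 - ζ0) = 1 := by
    rw [Complex.exp_sub, ← h3 z0 (by linarith), hXz, he]
    exact div_self (Complex.exp_ne_zero _)
  have hmaps : MapsTo (fun ζ => ζ + (L z0 - ζ0)) (ball ζ0 c) (ball (L z0) c) := by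
    intro ζ hζ
    rw [mem_ball_iff_norm] at hζ ⊢
    have e : ζ + (L z0 - ζ0) - L z0 = ζ - ζ0 := by ring
    rw [e]
    exact hζ
  refine ⟨fun ζ => g (ζ + (L z0 - ζ0)) ^ 2, ⟨?_, fun ζ hζ => ?_⟩, ?_, fun ζ hζ => ?_⟩
  · exact (hg.comp ((differentiable_id.add_const _).differentiableOn) hmaps).pow 2
  · obtain ⟨g1, g2⟩ := hg1 _ (hmaps hζ)
    rw [h.sq, h3 _ (hre _ (mem_ball_iff_norm.1 g1).le), g2, Complex.exp_add, hexp, mul_one]
  · have e : ζ0 + (L z0 - ζ0) = L z0 := by ring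
    change g (ζ0 + (L z0 - ζ0)) ^ 2 = w0
    rw [e]
    obtain ⟨g1, g2⟩ := hg1 (L z0) (mem_ball_self hc)
    rw [hinj _ _ (hre _ (mem_ball_iff_norm.1 g1).le) (by linarith) g2, hz0]
  · obtain ⟨g1, g2⟩ := hg1 _ (hmaps hζ)
    rw [mem_ball_iff_norm] at g1
    rw [norm_pow]
    have g3 : ‖z0‖ ≤ ‖g (ζ + (L z0 - ζ0))‖ + ‖g (ζ + (L z0 - ζ0)) - z0‖ := by
      have := norm_sub_le (g (ζ + (L z0 - ζ0))) (g (ζ + (L z0 - ζ0)) - z0)
      rwa [sub_sub_cancel] at this
    have g4 : |M| + 2 ≤ ‖g (ζ + (L z0 - ζ0))‖ := by linarith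
    have := le_abs_self M
    nlinarith

theorem XD.dat (h : XD X F) : Dat F := ⟨h.dF, h.ext, h.base, h.crit⟩

end Pool.Agent.Q288.AP
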