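import Pool.Agent.Q288.AP.XDat

set_option autoImplicit false

/-!
# Lower bound of the logarithmic derivative, real critical points
-/

namespace Pool.Agent.Q288.AP

open Complex Filter Topology Metric Set

theorem low_of {X : ℂ → ℂ} (hX : Differentiable ℂ X)
    (hpos : ∀ z : ℂ, 1 / 2 < z.re → X z ≠ 0 ∧ 0 < (logDeriv X z).re)
    (hgr : ∀ M : ℝ, ∃ T : ℝ, ∀ t : ℝ, T ≤ |t| → M ≤ (logDeriv X (1 + t * I)).re) :
    ∃ c : ℝ, 0 < c ∧ ∀ z : ℂ, 1 ≤ z.re → c ≤ (logDeriv X z).re := by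
  have hcont : ∀ z : ℂ, 1 / 2 < z.re → ContinuousAt (logDeriv X) z := by
    intro z hz
    exact (((hX.analyticAt z).deriv.div (hX.analyticAt z) (hpos z hz).1).differentiableAt).continuousAt
  have hline : ∀ t : ℝ, (1 / 2 : ℝ) < (1 + t * I : ℂ).re := by
    intro t
    simp
    norm_num
  obtain ⟨T, hT⟩ := hgr 1
  obtain ⟨t0, -, ht0⟩ := (isCompact_Icc (a := -|T|) (b := |T|)).exists_isMinOn
    (nonempty_Icc.2 (by linarith [abs_nonneg T]))
    (f := fun t : ℝ => (logDeriv X (1 + t * I)).re) (fun t _ => by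
      refine ContinuousAt.continuousWithinAt ?_
      refine Complex.continuous_re.continuousAt.comp ?_
      refine ContinuousAt.comp (f := fun t : ℝ => (1 + t * I : ℂ)) (hcont _ (hline t)) ?_
      fun_prop)
  obtain ⟨c, hc⟩ : ∃ c : ℝ, c = min 1 (logDeriv X (1 + t0 * I)).re := ⟨_, rfl⟩
  have hc0 : 0 < c := by
    rw [hc]
    exact lt_min one_pos (hpos _ (hline t0)).2
  have hcl : ∀ t : ℝ, c ≤ (logDeriv X (1 + t * I)).re := by
    intro t
    rcases le_or_gt T |t| with h1 | h1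
    · exact (by rw [hc]; exact min_le_left _ _ : c ≤ 1).trans (hT t h1)
    · have h2 : t ∈ Icc (-|T|) |T| := abs_le.1 (h1.le.trans (le_abs_self T))
      have h3 := isMinOn_iff.1 ht0 t h2
      exact (by rw [hc]; exact min_le_right _ _ : c ≤ _).trans h3
  refine ⟨c, hc0, ?_⟩
  obtain ⟨f, hf⟩ : ∃ f : ℂ → ℂ, f = fun w => cexp (-(logDeriv X (w + 1))) := ⟨_, rfl⟩
  have hfd : ∀ w : ℂ, -(1 / 2) < w.re → DifferentiableAt ℂ f w := by
    intro w hw
    rw [hf]
    refine DifferentiableAt.cexp (DifferentiableAt.neg ?_)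
    have h1 : (1 / 2 : ℝ) < (w + 1).re := by
      rw [Complex.add_re, Complex.one_re]
      linarith
    have h2 : DifferentiableAt ℂ (logDeriv X) (w + 1) :=
      (((hX.analyticAt _).deriv.div (hX.analyticAt _) (hpos _ h1).1).differentiableAt)
    exact h2.comp w (differentiableAt_id.add_const _)
  have hfn : ∀ w : ℂ, -(1 / 2) < w.re → ‖f w‖ ≤ 1 := by
    intro w hw
    rw [hf]
    change ‖cexp (-(logDeriv X (w + 1)))‖ ≤ 1
    rw [Complex.norm_exp, Complex.neg_re]
    have h1 : (1 / 2 : ℝ) < (w + 1).re := by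
      rw [Complex.add_re, Complex.one_re]
      linarith
    have := (hpos _ h1).2
    exact Real.exp_le_one_iff.2 (by linarith)
  intro z hz
  have key : ‖f (z - 1)‖ ≤ Real.exp (-c) := by
    refine PhragmenLindelof.right_half_plane_of_bounded_on_real (f := f) (C := Real.exp (-c)) ?_ ?_ ?_ ?_ ?_
    · refine DifferentiableOn.diffContOnCl ?_
      intro w hw
      rw [Complex.closure_setOfPred_lt_re] at hw
      have hw' : 0 ≤ w.re := hw
      exact (hfd w (by linarith)).differentiableWithinAt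
    · refine ⟨1, by norm_num, 0, ?_⟩
      refine Asymptotics.IsBigO.of_bound 1 ?_
      rw [eventually_inf_principal]
      refine Eventually.of_forall fun w hw => ?_
      have hw' : 0 < w.re := hw
      rw [zero_mul, Real.exp_zero, norm_one, mul_one]
      exact hfn w (by linarith)
    · refine ⟨1, ?_⟩
      rw [eventually_map]
      filter_upwards [eventually_ge_atTop (0 : ℝ)] with x hx
      exact hfn x (by rw [Complex.ofReal_re]; linarith)
    · intro x
      rw [hf]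
      change ‖cexp (-(logDeriv X (x * I + 1)))‖ ≤ _
      rw [Complex.norm_exp, Complex.neg_re, add_comm]
      exact Real.exp_le_exp.2 (neg_le_neg (hcl x))
    · rw [Complex.sub_re, Complex.one_re]
      linarith
  rw [hf] at key
  have key' : ‖cexp (-(logDeriv X (z - 1 + 1)))‖ ≤ Real.exp (-c) := key
  rw [sub_add_cancel, Complex.norm_exp, Complex.neg_re, Real.exp_le_exp] at key'
  linarith

theorem crit_of {F : ℂ → ℂ} (hF : Differentiable ℂ F) (hre : ∀ x : ℝ, 0 ≤ x → (F ((-x : ℝ) : ℂ)).im = 0)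
    {x0 : ℝ} (hx0 : 0 < x0) (h0 : F ((-x0 : ℝ) : ℂ) = 0) (hne : ∃ z, F z ≠ 0)
    (hdec : ∀ ε : ℝ, 0 < ε → ∃ T : ℝ, ∀ x : ℝ, T ≤ x → ‖F ((-x : ℝ) : ℂ)‖ < ε) :
    ∃ c, deriv F c = 0 ∧ F c ≠ 0 := by
  obtain ⟨r, hr⟩ : ∃ r : ℝ → ℝ, r = fun x => (F ((-x : ℝ) : ℂ)).re := ⟨_, rfl⟩
  have hF' : ∀ x : ℝ, 0 ≤ x → F ((-x : ℝ) : ℂ) = (r x : ℂ) := by
    intro x hx
    rw [hr]
    exact Complex.ext (by simp) (by rw [hre x hx, Complex.ofReal_im])
  have hline : ∀ x : ℝ, HasDerivAt (fun x : ℝ => F ((-x : ℝ) : ℂ)) (-(deriv F ((-x : ℝ) : ℂ))) x := by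
    intro x
    have h1 : HasDerivAt (fun x : ℝ => ((-x : ℝ) : ℂ)) (-1) x := by
      have h2 : HasDerivAt (fun u : ℝ => (u : ℂ)) 1 x := Complex.ofRealCLM.hasDerivAt
      have h3 := h2.neg
      refine h3.congr_of_eventuallyEq (Eventually.of_forall fun u => ?_)
      push_cast
      rfl
    have h2 := (hF ((-x : ℝ) : ℂ)).hasDerivAt.comp x h1
    rw [mul_neg_one] at h2
    exact h2
  have hrd : ∀ x : ℝ, HasDerivAt r (-(deriv F ((-x : ℝ) : ℂ))).re x := by
    intro x
    rw [hr]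
    exact Complex.reCLM.hasFDerivAt.comp_hasDerivAt x (hline x)
  have him : ∀ x : ℝ, 0 < x → (deriv F ((-x : ℝ) : ℂ)).im = 0 := by
    intro x hx
    have h1 : HasDerivAt (fun x : ℝ => (F ((-x : ℝ) : ℂ)).im) (-(deriv F ((-x : ℝ) : ℂ))).im x :=
      Complex.imCLM.hasFDerivAt.comp_hasDerivAt x (hline x)
    have h2 : HasDerivAt (fun x : ℝ => (F ((-x : ℝ) : ℂ)).im) 0 x := by
      refine (hasDerivAt_const x (0 : ℝ)).congr_of_eventuallyEq ?_
      filter_upwards [Ioi_mem_nhds hx] with y hy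
      exact hre y (le_of_lt hy)
    have h3 := h1.unique h2
    rw [Complex.neg_im] at h3
    linarith
  -- a point with nonzero value
  obtain ⟨x1, hx1, hx1r⟩ : ∃ x1, x0 < x1 ∧ r x1 ≠ 0 := by
    by_contra hcon
    push Not at hcon
    have h1 : ∃ᶠ z in 𝓝[≠] ((-(x0 + 1) : ℝ) : ℂ), F z = 0 := by
      rw [frequently_iff]
      intro U hU
      have h2 : Tendsto (fun t : ℝ => ((-(x0 + 1) - t : ℝ) : ℂ)) (𝓝[>] 0) (𝓝[≠] ((-(x0 + 1) : ℝ) : ℂ)) := by
        refine tendsto_nhdsWithin_iff.2 ⟨?_, ?_⟩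
        · have h3 : Continuous fun t : ℝ => ((-(x0 + 1) - t : ℝ) : ℂ) := by fun_prop
          have h4 := h3.tendsto 0
          rw [sub_zero] at h4
          exact h4.mono_left nhdsWithin_le_nhds
        · filter_upwards [self_mem_nhdsWithin] with t ht
          intro h3
          have h4 : ((-(x0 + 1) - t : ℝ) : ℂ) = ((-(x0 + 1) : ℝ) : ℂ) := h3
          have h5 : -(x0 + 1) - t = -(x0 + 1) := by exact_mod_cast h4
          have ht' : 0 < t := ht
          linarith
      obtain ⟨t, ht, ht1⟩ := ((h2.eventually hU).and self_mem_nhdsWithin).exists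
      have ht0 : (0 : ℝ) < t := ht1
      refine ⟨_, ht, ?_⟩
      have e : ((-(x0 + 1) - t : ℝ) : ℂ) = ((-(x0 + 1 + t) : ℝ) : ℂ) := by push_cast; ring
      rw [e, hF' _ (by linarith), hcon _ (by linarith), Complex.ofReal_zero]
    have h2 : EqOn F 0 univ :=
      (hF.differentiableOn.analyticOnNhd isOpen_univ).eqOn_zero_of_preconnected_of_frequently_eq_zero
        isPreconnected_univ (mem_univ _) h1
    obtain ⟨z, hz⟩ := hne
    exact hz (h2 (mem_univ z))
  obtain ⟨T, hT⟩ := hdec |r x1| (abs_pos.2 hx1r)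
  have hrc : Continuous r := continuous_iff_continuousAt.2 fun x => (hrd x).continuousAt
  have hx1T : x1 < T := by
    by_contra hcon
    push Not at hcon
    have := hT x1 hcon
    rw [hF' x1 (by linarith), Complex.norm_real, Real.norm_eq_abs] at this
    exact lt_irrefl _ this
  obtain ⟨x2, hx2, hmax⟩ := (isCompact_Icc (a := x0) (b := T)).exists_isMaxOn
    ⟨x1, hx1.le, hx1T.le⟩ (f := fun x => r x ^ 2) ((hrc.pow 2).continuousOn)
  have hmax' := isMaxOn_iff.1 hmax
  have h1 : r x1 ^ 2 ≤ r x2 ^ 2 := hmax' x1 ⟨hx1.le, hx1T.le⟩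
  have h1' : 0 < r x1 ^ 2 := by positivity
  have h2 : x2 ≠ x0 := by
    intro h3
    rw [h3] at h1
    have h4 := hF' x0 hx0.le
    rw [h0] at h4
    have h5 : r x0 = 0 := by exact_mod_cast h4.symm
    rw [h5] at h1
    nlinarith
  have h3 : x2 ≠ T := by
    intro h4
    have h5 := hT x2 h4.ge
    rw [hF' x2 (by linarith [hx2.1]), Complex.norm_real, Real.norm_eq_abs] at h5
    have h6 := sq_lt_sq.2 h5
    linarith
  have h4 : x2 ∈ Ioo x0 T := ⟨lt_of_le_of_ne hx2.1 (Ne.symm h2), lt_of_le_of_ne hx2.2 h3⟩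
  have hloc : IsLocalMax (fun x => r x ^ 2) x2 := by
    filter_upwards [Icc_mem_nhds h4.1 h4.2] with y hy
    exact hmax' y hy
  have h5 : HasDerivAt (fun x => r x ^ 2) (2 * r x2 * (-(deriv F ((-x2 : ℝ) : ℂ))).re) x2 := by
    have h6 := (hrd x2).mul (hrd x2)
    refine (h6.congr_of_eventuallyEq (Eventually.of_forall fun u => ?_)).congr_deriv ?_
    · exact sq (r u)
    · ring
  have h6 := hloc.hasDerivAt_eq_zero h5
  have h7 : r x2 ≠ 0 := by
    intro h8
    rw [h8] at h1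
    nlinarith
  have h8 : (-(deriv F ((-x2 : ℝ) : ℂ))).re = 0 := by
    rcases mul_eq_zero.1 h6 with h9 | h9
    · exact absurd (by linarith) h7
    · exact h9
  refine ⟨((-x2 : ℝ) : ℂ), ?_, ?_⟩
  · rw [Complex.neg_re] at h8
    refine Complex.ext ?_ ?_
    · rw [Complex.zero_re]
      linarith
    · rw [Complex.zero_im]
      exact him x2 (by linarith [h4.1])
  · rw [hF' x2 (by linarith [h4.1])]
    exact_mod_cast h7

end Pool.Agent.Q288.AP
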